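import Pool.Agent.HRP.Defs

/-!
# HRP-A3 : special unitary matrices, the adapted basis `Un`, the diagonal frames `Dg`
-/

namespace HRP

open Matrix

theorem a3_nsq (X : Mat) : ((nsq X : ℝ) : ℂ) = (Xᴴ * X).trace := by
  simp only [nsq, Matrix.trace, Matrix.diag, Matrix.mul_apply, Fin.sum_univ_two,
    Matrix.conjTranspose_apply, Complex.star_def, Complex.ofReal_add,
    Complex.normSq_eq_conj_mul_self]
  ring

theorem a3_vsq (v : V) : ((vsq v : ℝ) : ℂ) = star v ⬝ᵥ v := by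
  simp only [vsq, dotProduct, Fin.sum_univ_two, Pi.star_apply, Complex.star_def,
    Complex.ofReal_add, Complex.normSq_eq_conj_mul_self]

theorem a3_nsq_eq {X Y : Mat} (h : (Xᴴ * X).trace = (Yᴴ * Y).trace) : nsq X = nsq Y := by
  rw [← a3_nsq, ← a3_nsq] at h
  exact_mod_cast h

theorem a3_unit {ψ : V} (h : vsq ψ = 1) :
    (starRingEnd ℂ) (ψ 0) * ψ 0 + (starRingEnd ℂ) (ψ 1) * ψ 1 = 1 := by
  have h1 : ((vsq ψ : ℝ) : ℂ) = 1 := by rw [h]; simp
  rw [← h1]
  simp only [vsq, Complex.ofReal_add, Complex.normSq_eq_conj_mul_self]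

theorem a3_exp (s : ℝ) : (Real.exp (s / 2) : ℂ) * (Real.exp (-(s / 2)) : ℂ) = 1 := by
  rw [← Complex.ofReal_mul, ← Real.exp_add]
  simp

theorem a3_sq (s : ℝ) : Real.exp (s / 2) * Real.exp (s / 2) = Real.exp s := by
  rw [← Real.exp_add]
  congr 1
  ring

theorem a3_nsq_one (s : ℝ) : nsq (Dg s - 1) =
    (Real.exp (s / 2) - 1) ^ 2 + (Real.exp (-(s / 2)) - 1) ^ 2 := by
  have h1 : ∀ t : ℝ, Complex.normSq ((t : ℂ) - 1) = (t - 1) ^ 2 := by
    intro t
    have h2 : ((t : ℂ) - 1) = ((t - 1 : ℝ) : ℂ) := by push_cast; rfl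
    rw [h2, Complex.normSq_ofReal]
    ring
  unfold nsq Dg
  simp only [Matrix.sub_apply, Matrix.of_apply, Matrix.cons_val', Matrix.cons_val_zero,
    Matrix.cons_val_one, Matrix.one_apply, Fin.isValue, if_true, zero_ne_one, one_ne_zero,
    if_false, Matrix.cons_val_fin_one, sub_zero, map_zero, add_zero]
  rw [h1, h1]

theorem IsU.one : IsU (1 : Mat) := by
  constructor
  · simp
  · simp

theorem IsU.inv_eq {u : Mat} (hu : IsU u) : u⁻¹ = uᴴ := by
  exact Matrix.inv_eq_left_inv hu.1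

theorem IsU.inv {u : Mat} (hu : IsU u) : IsU u⁻¹ := by
  rw [hu.inv_eq]
  constructor
  · rw [Matrix.conjTranspose_conjTranspose]
    exact _root_.mul_eq_one_comm.1 hu.1
  · rw [Matrix.det_conjTranspose, hu.2]
    simp

theorem IsU.mul {u w : Mat} (hu : IsU u) (hw : IsU w) : IsU (u * w) := by
  constructor
  · rw [Matrix.conjTranspose_mul, Matrix.mul_assoc, ← Matrix.mul_assoc uᴴ, hu.1, Matrix.one_mul,
      hw.1]
  · rw [Matrix.det_mul, hu.2, hw.2, mul_one]

theorem IsU.vsq_mulVec {u : Mat} (hu : IsU u) (v : V) : vsq (u *ᵥ v) = vsq v := by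
  have h1 : ((vsq (u *ᵥ v) : ℝ) : ℂ) = ((vsq v : ℝ) : ℂ) := by
    rw [a3_vsq, a3_vsq, Matrix.star_mulVec, ← Matrix.dotProduct_mulVec, Matrix.mulVec_mulVec,
      hu.1, Matrix.one_mulVec]
  exact_mod_cast h1

theorem IsU.nsq_mul {u : Mat} (hu : IsU u) (X : Mat) : nsq (u * X) = nsq X := by
  apply a3_nsq_eq
  rw [Matrix.conjTranspose_mul, Matrix.mul_assoc, ← Matrix.mul_assoc uᴴ, hu.1, Matrix.one_mul]

theorem IsU.nsq_mul_right {u : Mat} (hu : IsU u) (X : Mat) : nsq (X * u) = nsq X := by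
  apply a3_nsq_eq
  rw [Matrix.conjTranspose_mul, Matrix.mul_assoc, Matrix.trace_mul_comm, Matrix.mul_assoc,
    Matrix.mul_assoc, _root_.mul_eq_one_comm.1 hu.1, Matrix.mul_one]

theorem IsU.nsq_conj {u : Mat} (hu : IsU u) (X : Mat) : nsq (u * X * u⁻¹) = nsq X := by
  rw [hu.inv.nsq_mul_right, hu.nsq_mul]

theorem Un_isU {ψ : V} (h : vsq ψ = 1) : IsU (Un ψ) := by
  have h1 := a3_unit h
  constructor
  · ext i j
    fin_cases i <;> fin_cases j <;>
      simp [Un, Matrix.mul_apply, Fin.sum_univ_two, Matrix.conjTranspose_apply]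
    · linear_combination h1
    · ring
    · ring
    · linear_combination h1
  · rw [Un, Matrix.det_fin_two_of]
    simp only [Complex.star_def]
    linear_combination h1

theorem Un_mulVec {ψ : V} (h : vsq ψ = 1) : Un ψ *ᵥ ψ = ![1, 0] := by
  have h1 := a3_unit h
  ext i
  fin_cases i
  · simp [Un, Matrix.mulVec, dotProduct, Fin.sum_univ_two]
    exact h1
  · simp [Un, Matrix.mulVec, dotProduct, Fin.sum_univ_two]
    ring

theorem det_Dg (s : ℝ) : (Dg s).det = 1 := by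
  rw [Dg, Matrix.det_fin_two_of, a3_exp]
  simp

theorem Dg_zero : Dg 0 = 1 := by
  ext i j
  fin_cases i <;> fin_cases j <;> simp [Dg]

theorem Dg_add (s t : ℝ) : Dg (s + t) = Dg s * Dg t := by
  have h1 : Real.exp ((s + t) / 2) = Real.exp (s / 2) * Real.exp (t / 2) := by
    rw [← Real.exp_add]
    congr 1
    ring
  have h2 : Real.exp (-((s + t) / 2)) = Real.exp (-(s / 2)) * Real.exp (-(t / 2)) := by
    rw [← Real.exp_add]
    congr 1
    ring
  unfold Dg
  rw [h1, h2, Matrix.mul_fin_two]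
  simp

theorem Dg_inv (s : ℝ) : (Dg s)⁻¹ = Dg (-s) := by
  apply Matrix.inv_eq_left_inv
  rw [← Dg_add]
  simp [Dg_zero]

theorem vsq_Dg_mulVec (s : ℝ) (v : V) :
    vsq (Dg s *ᵥ v) =
      Real.exp s * Complex.normSq (v 0) + Real.exp (-s) * Complex.normSq (v 1) := by
  have h1 := a3_sq s
  have h2 := a3_sq (-s)
  have h3 : -s / 2 = -(s / 2) := by ring
  rw [h3] at h2
  unfold vsq Dg
  simp only [Matrix.mulVec, dotProduct, Fin.sum_univ_two, Matrix.of_apply, Matrix.cons_val',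
    Matrix.cons_val_zero, Matrix.cons_val_one, Matrix.cons_val_fin_one, zero_mul, add_zero,
    zero_add, map_mul, Complex.normSq_ofReal]
  rw [h1, h2]

theorem vsq_Dg_mulVec_le (s : ℝ) (v : V) : vsq (Dg s *ᵥ v) ≤ Real.exp |s| * vsq v := by
  rw [vsq_Dg_mulVec]
  have h1 : Real.exp s ≤ Real.exp |s| := Real.exp_le_exp.2 (le_abs_self s)
  have h2 : Real.exp (-s) ≤ Real.exp |s| := Real.exp_le_exp.2 (neg_le_abs s)
  have h3 := Complex.normSq_nonneg (v 0)
  have h4 := Complex.normSq_nonneg (v 1)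
  unfold vsq
  nlinarith

theorem nsq_Dg_conj (s : ℝ) (X : Mat) :
    nsq (Dg s * X * (Dg s)⁻¹) = Complex.normSq (X 0 0) + Complex.normSq (X 1 1) +
      Real.exp (2 * s) * Complex.normSq (X 0 1) + Real.exp (-(2 * s)) * Complex.normSq (X 1 0) := by
  have h1 := a3_sq s
  have h2 := a3_sq (-s)
  have h3 : -s / 2 = -(s / 2) := by ring
  rw [h3] at h2
  have h4 : Real.exp (2 * s) = Real.exp s * Real.exp s := by
    rw [← Real.exp_add]
    congr 1
    ring
  have h5 : Real.exp (-(2 * s)) = Real.exp (-s) * Real.exp (-s) := by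
    rw [← Real.exp_add]
    congr 1
    ring
  have h6 : Real.exp s * Real.exp (-s) = 1 := by
    rw [← Real.exp_add]
    simp
  have h7 : Dg s * X * (Dg s)⁻¹ = !![X 0 0, (Real.exp (s / 2) : ℂ) * X 0 1 * (Real.exp (s / 2) : ℂ);
      (Real.exp (-(s / 2)) : ℂ) * X 1 0 * (Real.exp (-(s / 2)) : ℂ), X 1 1] := by
    rw [Dg_inv]
    have h8 : -s / 2 = -(s / 2) := by ring
    have h9 : -(-s / 2) = s / 2 := by ring
    have h10 := a3_exp s
    unfold Dg
    rw [h9, h8, Matrix.eta_fin_two X, Matrix.mul_fin_two, Matrix.mul_fin_two]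
    ext i j
    fin_cases i <;> fin_cases j <;> simp
    · have h11 : Complex.exp ((s : ℂ) / 2) * Complex.exp (-((s : ℂ) / 2)) = 1 := by
        rw [← Complex.exp_add]
        simp
      linear_combination (X 0 0) * h11
    · have h11 : Complex.exp ((s : ℂ) / 2) * Complex.exp (-((s : ℂ) / 2)) = 1 := by
        rw [← Complex.exp_add]
        simp
      linear_combination (X 1 1) * h11
  rw [h7, h4, h5]
  unfold nsq
  simp only [Matrix.of_apply, Matrix.cons_val', Matrix.cons_val_zero, Matrix.cons_val_one,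
    Matrix.cons_val_fin_one, map_mul, Complex.normSq_ofReal]
  rw [h1, h2]
  ring

theorem continuous_Dg : Continuous Dg := by
  refine continuous_matrix fun i j => ?_
  fin_cases i <;> fin_cases j <;> simp [Dg] <;> fun_prop

/-- `nsq (u⁻¹ Dg s u - 1)` is small for small `s`, uniformly in the unitary matrix `u`. -/
theorem nsq_UDU_sub_one_le {u : Mat} (hu : IsU u) (s : ℝ) :
    nsq (u⁻¹ * Dg s * u - 1) = (Real.exp (s / 2) - 1) ^ 2 + (Real.exp (-(s / 2)) - 1) ^ 2 := by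
  have h1 : u⁻¹ * u = 1 := by
    rw [hu.inv_eq]
    exact hu.1
  have h2 : u⁻¹ * Dg s * u - 1 = u⁻¹ * (Dg s - 1) * u := by
    rw [Matrix.mul_sub, Matrix.sub_mul, Matrix.mul_one, h1]
  rw [h2, hu.nsq_mul_right, hu.inv.nsq_mul, a3_nsq_one]

end HRP
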