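import Pool.Agent.HRP.A2
import Pool.Agent.HRP.A3

/-!
# HRP-A9 : Bloch vectors

* `inner_bl`: for a unit vector `χ`, `⟪bl χ, bl ψ⟫ = |(Un χ ψ)₀|² - |(Un χ ψ)₁|²`. Proof:
  `(Un χ ψ)₀ = χ̄₀ ψ₀ + χ̄₁ ψ₁`, `(Un χ ψ)₁ = -χ₁ ψ₀ + χ₀ ψ₁`; both sides are the real polynomial
  `(|χ₀|² - |χ₁|²)(|ψ₀|² - |ψ₁|²) + 4 Re (χ̄₀ χ₁ ψ₀ ψ̄₁)`.
* `norm_bl`: `|bl ψ|² = |ψ|⁴` so `‖bl ψ‖ = vsq ψ`.
* `bl_surj`: every unit vector `x` of `ℝ³` is `bl χ`, `χ` unit: if `x₂ = -1` take `χ = (0,1)`,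
  otherwise `χ₀ = √((1+x₂)/2)` (real), `χ₁ = (x₀ + i x₁)/(2 χ₀)`.
* `plane_ineq` (inequality `A ≤ 1 + B + C`): for a plane `Q`,
  `|Q00|² + |Q11|² ≤ |Q00 + Q11|² + 2 |Q00 Q11| = 1 + 2 |Q01 Q10| ≤ 1 + |Q01|² + |Q10|²`.
-/

namespace HRP

open Matrix

theorem inner_bl {χ : V} (hχ : vsq χ = 1) (ψ : V) :
    inner ℝ (bl χ) (bl ψ) =
      Complex.normSq ((Un χ *ᵥ ψ) 0) - Complex.normSq ((Un χ *ᵥ ψ) 1) := by
  unfold bl Un
  rw [PiLp.inner_apply, Fin.sum_univ_three]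
  simp only [Matrix.mulVec, dotProduct, Fin.sum_univ_two, Matrix.of_apply,
    Complex.normSq_apply, RCLike.inner_apply, conj_trivial, Complex.star_def, Complex.mul_re, Complex.mul_im,
    Complex.add_re, Complex.add_im, Complex.neg_re, Complex.neg_im, Complex.conj_re, Complex.conj_im,
    Matrix.vecCons, Fin.cons_zero, Fin.cons_one]
  simp
  ring

theorem norm_bl (ψ : V) : ‖bl ψ‖ = vsq ψ := by
  have h : ‖bl ψ‖ ^ 2 = vsq ψ ^ 2 := by
    rw [EuclideanSpace.norm_sq_eq, Fin.sum_univ_three]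
    unfold bl vsq
    simp only [Real.norm_eq_abs, sq_abs]
    simp [Complex.normSq_apply, Complex.mul_re, Complex.mul_im]
    ring
  have h1 : 0 ≤ vsq ψ := vsq_nonneg ψ
  exact (sq_eq_sq₀ (norm_nonneg _) h1).1 h

theorem bl_surj {x : EuclideanSpace ℝ (Fin 3)} (hx : ‖x‖ = 1) : ∃ χ : V, vsq χ = 1 ∧ bl χ = x := by
  have h : x 0 ^ 2 + x 1 ^ 2 + x 2 ^ 2 = 1 := by
    have h1 : ‖x‖ ^ 2 = 1 := by rw [hx]; norm_num
    rw [EuclideanSpace.norm_sq_eq, Fin.sum_univ_three] at h1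
    simpa using h1
  by_cases h2 : x 2 = -1
  · have h0 : x 0 = 0 := by nlinarith [sq_nonneg (x 0), sq_nonneg (x 1)]
    have h1 : x 1 = 0 := by nlinarith [sq_nonneg (x 0), sq_nonneg (x 1)]
    refine ⟨![0, 1], ?_, ?_⟩
    · unfold vsq
      simp
    · unfold bl
      ext i
      fin_cases i
      · simp [h0]
      · simp [h1]
      · simp [h2]
  · have h3 : -1 < x 2 := by
      have h4 : -1 ≤ x 2 := by nlinarith [sq_nonneg (x 0), sq_nonneg (x 1)]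
      exact lt_of_le_of_ne h4 (Ne.symm h2)
    obtain ⟨t, ht⟩ : ∃ t, t = Real.sqrt ((1 + x 2) / 2) := ⟨_, rfl⟩
    have ht0 : 0 < t := by rw [ht]; exact Real.sqrt_pos.2 (by linarith)
    have ht2 : t ^ 2 = (1 + x 2) / 2 := by rw [ht]; exact Real.sq_sqrt (by linarith)
    refine ⟨![(t : ℂ), ⟨x 0 / (2 * t), x 1 / (2 * t)⟩], ?_, ?_⟩
    · unfold vsq
      simp only [Matrix.cons_val_zero, Matrix.cons_val_one, Complex.normSq_ofReal, Complex.normSq_mk]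
      have e1 : x 0 / (2 * t) * (x 0 / (2 * t)) + x 1 / (2 * t) * (x 1 / (2 * t)) =
          (x 0 ^ 2 + x 1 ^ 2) / (4 * t ^ 2) := by
        field_simp
        ring
      rw [e1, ht2]
      have e2 : x 0 ^ 2 + x 1 ^ 2 = (1 - x 2) * (1 + x 2) := by linarith
      rw [e2]
      have e3 : (1 + x 2) ≠ 0 := by linarith
      have e4 : t * t = (1 + x 2) / 2 := by rw [← ht2]; ring
      rw [e4]
      field_simp
      ring
    · unfold bl
      ext i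
      fin_cases i
      · simp
        field_simp
      · simp
        field_simp
      · simp [Complex.normSq_mk]
        have e1 : x 0 / (2 * t) * (x 0 / (2 * t)) + x 1 / (2 * t) * (x 1 / (2 * t)) =
            (x 0 ^ 2 + x 1 ^ 2) / (4 * t ^ 2) := by
          field_simp
          ring
        rw [e1, ht2]
        have e2 : x 0 ^ 2 + x 1 ^ 2 = (1 - x 2) * (1 + x 2) := by linarith
        rw [e2]
        have e3 : (1 + x 2) ≠ 0 := by linarith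
        have e4 : t * t = (1 + x 2) / 2 := by rw [← ht2]; ring
        rw [e4]
        field_simp
        ring

theorem continuous_bl : Continuous bl := by
  unfold bl
  refine (PiLp.continuous_toLp 2 _).comp (continuous_pi fun i => ?_)
  fin_cases i
  · simp
    fun_prop
  · simp
    fun_prop
  · simp
    fun_prop

theorem bl_smul (c : ℂ) (ψ : V) : bl (c • ψ) = Complex.normSq c • bl ψ := by
  unfold bl
  ext i
  fin_cases i
  · simp [Complex.normSq_apply]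
    ring
  · simp [Complex.normSq_apply]
    ring
  · simp [Complex.normSq_apply]
    ring

theorem plane_ineq {Q : Mat} (hQ : IsPl Q) :
    Complex.normSq (Q 0 0) + Complex.normSq (Q 1 1) ≤
      1 + Complex.normSq (Q 0 1) + Complex.normSq (Q 1 0) := by
  obtain ⟨h1, h2⟩ := hQ
  rw [Matrix.trace_fin_two] at h1
  rw [Matrix.det_fin_two] at h2
  have h3 : Q 0 0 * Q 1 1 = Q 0 1 * Q 1 0 := sub_eq_zero.1 h2
  have h4 : ‖Q 0 0‖ * ‖Q 1 1‖ = ‖Q 0 1‖ * ‖Q 1 0‖ := by rw [← norm_mul, ← norm_mul, h3]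
  simp only [Complex.normSq_eq_norm_sq]
  have h5 : ‖Q 0 0‖ ^ 2 + ‖Q 1 1‖ ^ 2 + 2 * (Q 0 0 * (starRingEnd ℂ) (Q 1 1)).re = 1 := by
    have e1 := Complex.normSq_add (Q 0 0) (Q 1 1)
    rw [h1, map_one] at e1
    simp only [Complex.normSq_eq_norm_sq] at e1
    linarith
  have h6 : -(‖Q 0 0‖ * ‖Q 1 1‖) ≤ (Q 0 0 * (starRingEnd ℂ) (Q 1 1)).re := by
    have e1 := Complex.abs_re_le_norm (Q 0 0 * (starRingEnd ℂ) (Q 1 1))
    rw [norm_mul, RCLike.norm_conj] at e1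
    exact (abs_le.1 e1).1
  nlinarith [sq_nonneg (‖Q 0 1‖ - ‖Q 1 0‖)]

end HRP
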