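import Pool.Agent.HRP.Defs

/-!
# HRP-B1 : functions with exponential local supports are convex

`Sup2 v`: at every point `s₀` with `v s₀ > 0` there are `B, C ≥ 0`, `v s₀ ≤ 2 (B + C)`, and
`f(s) = v s₀ + B (e^{2(s-s₀)} - 1) + C (e^{-2(s-s₀)} - 1) ≤ v s` for `s` near `s₀`.

* `convexOn_of_Sup2`: `v` continuous, `v ≥ 0`, `Sup2 v` imply `v` convex on `ℝ`. Proof: otherwise
  there are `a < b` and `s ∈ (a, b)` where `v` is above the chord `ℓ` (affine, `ℓ a = v a ≥ 0`,
  `ℓ b = v b ≥ 0`, so `ℓ ≥ 0` on `[a,b]`). The continuous function `v - ℓ` has a positive maximum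
  over `[a,b]` at an interior point `s₀`; `v s₀ > ℓ s₀ ≥ 0`. For small `t > 0`:
  `v(s₀+t) + v(s₀-t) - 2 v(s₀) ≤ ℓ(s₀+t) + ℓ(s₀-t) - 2ℓ(s₀) = 0` and
  `v(s₀+t) + v(s₀-t) - 2 v(s₀) ≥ (B + C)(e^{2t} + e^{-2t} - 2) > 0` as
  `B + C ≥ v s₀ / 2 > 0`. Contradiction.
* `exp_bound`: with the same hypotheses, for `0 ≤ s ≤ L`: `v s ≤ v 0 e^{-s} + v L e^{s-L} =: w s`.
  Proof: otherwise `v - w` has a positive maximum over `[0, L]` at `s₀`, interior since
  `v 0 ≤ w 0`, `v L ≤ w L`. `v s₀ > w s₀ ≥ 0`. For small `t > 0`: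
  `(B + C)(2 cosh 2t - 2) ≤ v(s₀+t) + v(s₀-t) - 2v(s₀) ≤ w(s₀+t) + w(s₀-t) - 2 w(s₀)
   = w(s₀) (2 cosh t - 2)`, and `2 cosh 2t - 2 = 4 (cosh t - 1)(cosh t + 1) ≥ 8 (cosh t - 1)`; so
  `4 v(s₀) (cosh t - 1) ≤ 2 w(s₀) (cosh t - 1)`, contradiction.
-/

namespace HRP

open Set Filter Topology

/-- exponential local supports. -/
def Sup2 (v : ℝ → ℝ) : Prop :=
  ∀ s₀ : ℝ, 0 < v s₀ → ∃ B C : ℝ, 0 ≤ B ∧ 0 ≤ C ∧ v s₀ ≤ 2 * (B + C) ∧
    ∀ᶠ s in 𝓝 s₀, v s₀ + B * (Real.exp (2 * (s - s₀)) - 1) + C * (Real.exp (-(2 * (s - s₀))) - 1)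
      ≤ v s

/-- second differences at an interior maximum of `v - w` -/
theorem b1_key {v w : ℝ → ℝ} (h : Sup2 v) {a b s₀ : ℝ} (ha : a < s₀) (hb : s₀ < b)
    (hpos : 0 < v s₀) (hmax : ∀ s ∈ Icc a b, v s - w s ≤ v s₀ - w s₀) :
    ∃ t : ℝ, 0 < t ∧ ∃ K : ℝ, v s₀ ≤ 2 * K ∧
      K * (Real.exp (2 * t) + Real.exp (-(2 * t)) - 2) ≤
        w (s₀ + t) + w (s₀ - t) - 2 * w s₀ := by
  obtain ⟨B, C, hB, hC, hBC, hev⟩ := h s₀ hpos
  rw [Metric.eventually_nhds_iff] at hev
  obtain ⟨ε, hε, hev⟩ := hev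
  obtain ⟨t, ht0, htε, hta, htb⟩ : ∃ t : ℝ, 0 < t ∧ t < ε ∧ t ≤ s₀ - a ∧ t ≤ b - s₀ := by
    refine ⟨min (ε / 2) (min (s₀ - a) (b - s₀)), ?_, ?_, ?_, ?_⟩
    · refine lt_min (by linarith) (lt_min (by linarith) (by linarith))
    · exact lt_of_le_of_lt (min_le_left _ _) (by linarith)
    · exact (min_le_right _ _).trans (min_le_left _ _)
    · exact (min_le_right _ _).trans (min_le_right _ _)
  refine ⟨t, ht0, B + C, hBC, ?_⟩
  have h1 := hev (y := s₀ + t) (by
    rw [Real.dist_eq, abs_lt]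
    constructor <;> linarith)
  have h2 := hev (y := s₀ - t) (by
    rw [Real.dist_eq, abs_lt]
    constructor <;> linarith)
  have e1 : 2 * (s₀ + t - s₀) = 2 * t := by ring
  have e2 : 2 * (s₀ - t - s₀) = -(2 * t) := by ring
  rw [e1] at h1
  rw [e2, neg_neg] at h2
  have m1 := hmax (s₀ + t) ⟨by linarith, by linarith⟩
  have m2 := hmax (s₀ - t) ⟨by linarith, by linarith⟩
  nlinarith

/-- `exp t + exp (-t) > 2` for `t > 0` -/
theorem b1_cosh {t : ℝ} (ht : 0 < t) : 0 < Real.exp t + Real.exp (-t) - 2 := by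
  have h1 : Real.exp t * Real.exp (-t) = 1 := by
    rw [← Real.exp_add]
    simp
  have h2 : 1 < Real.exp t := by
    rw [← Real.exp_zero]
    exact Real.exp_lt_exp.2 ht
  have h3 : 0 < Real.exp (-t) := Real.exp_pos _
  nlinarith [sq_nonneg (Real.exp t - 1), mul_pos (sub_pos.2 h2) (sub_pos.2 h2)]

theorem convexOn_of_Sup2 {v : ℝ → ℝ} (hc : Continuous v) (h0 : ∀ s, 0 ≤ v s) (h : Sup2 v) :
    ConvexOn ℝ univ v := by
  apply LinearOrder.convexOn_of_lt convex_univ
  intro x _ y _ hxy a b ha hb hab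
  simp only [smul_eq_mul]
  by_contra hcon
  push Not at hcon
  have hyx : 0 < y - x := sub_pos.2 hxy
  set l : ℝ → ℝ := fun s => ((y - s) * v x + (s - x) * v y) / (y - x) with hl
  have hlc : Continuous l := by
    simp only [hl]
    fun_prop
  obtain ⟨s₀, hs₀, hmax⟩ := (isCompact_Icc (a := x) (b := y)).exists_isMaxOn
    ⟨x, left_mem_Icc.2 hxy.le⟩ ((hc.sub hlc).continuousOn)
  have hmax' : ∀ s ∈ Icc x y, v s - l s ≤ v s₀ - l s₀ := fun s hs => hmax hs
  have hp : a * x + b * y ∈ Icc x y := by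
    have ha' : a = 1 - b := by linarith
    have h3 := mul_pos hb hyx
    have h4 := mul_pos ha hyx
    constructor
    · rw [ha']
      nlinarith
    · have hb' : b = 1 - a := by linarith
      rw [hb']
      nlinarith
  have hlp : l (a * x + b * y) = a * v x + b * v y := by
    simp only [hl]
    rw [div_eq_iff hyx.ne']
    have hb' : b = 1 - a := by linarith
    subst hb'
    ring
  have hgt : 0 < v s₀ - l s₀ := by
    have := hmax' _ hp
    rw [hlp] at this
    linarith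
  have hlx : l x = v x := by
    simp only [hl]
    field_simp
    ring
  have hly : l y = v y := by
    simp only [hl]
    field_simp
    ring
  have hsx : x < s₀ := by
    rcases hs₀.1.lt_or_eq with h1 | h1
    · exact h1
    · rw [← h1, hlx] at hgt
      linarith
  have hsy : s₀ < y := by
    rcases hs₀.2.lt_or_eq with h1 | h1
    · exact h1
    · rw [h1, hly] at hgt
      linarith
  have hl0 : 0 ≤ l s₀ := by
    simp only [hl]
    apply div_nonneg _ hyx.le
    have := h0 x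
    have := h0 y
    have := mul_nonneg (sub_pos.2 hsy).le (h0 x)
    have := mul_nonneg (sub_pos.2 hsx).le (h0 y)
    linarith
  obtain ⟨t, ht, K, hK, hineq⟩ := b1_key (w := l) h hsx hsy (by linarith) hmax'
  have hz : l (s₀ + t) + l (s₀ - t) - 2 * l s₀ = 0 := by
    simp only [hl]
    field_simp
    ring
  rw [hz] at hineq
  have hc2 := b1_cosh (t := 2 * t) (by linarith)
  have hKpos : 0 < K := by linarith
  have := mul_pos hKpos hc2
  linarith

theorem exp_bound {v : ℝ → ℝ} (hc : Continuous v) (h0 : ∀ s, 0 ≤ v s) (h : Sup2 v)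
    {L s : ℝ} (h1 : 0 ≤ s) (h2 : s ≤ L) :
    v s ≤ v 0 * Real.exp (-s) + v L * Real.exp (s - L) := by
  by_contra hcon
  push Not at hcon
  have hL : 0 ≤ L := h1.trans h2
  set w : ℝ → ℝ := fun s => v 0 * Real.exp (-s) + v L * Real.exp (s - L) with hw
  have hwc : Continuous w := by
    simp only [hw]
    fun_prop
  obtain ⟨s₀, hs₀, hmax⟩ := (isCompact_Icc (a := 0) (b := L)).exists_isMaxOn
    ⟨0, left_mem_Icc.2 hL⟩ ((hc.sub hwc).continuousOn)
  have hmax' : ∀ s ∈ Icc 0 L, v s - w s ≤ v s₀ - w s₀ := fun s hs => hmax hs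
  have hgt : 0 < v s₀ - w s₀ := by
    have h3 := hmax' s ⟨h1, h2⟩
    have h4 : w s < v s := hcon
    linarith
  have hw0 : v 0 ≤ w 0 := by
    simp only [hw]
    have := mul_nonneg (h0 L) (Real.exp_pos (0 - L)).le
    simp only [neg_zero, Real.exp_zero, mul_one]
    linarith
  have hwL : v L ≤ w L := by
    simp only [hw]
    have := mul_nonneg (h0 0) (Real.exp_pos (-L)).le
    simp only [sub_self, Real.exp_zero, mul_one]
    linarith
  have hs1 : 0 < s₀ := by
    rcases hs₀.1.lt_or_eq with h3 | h3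
    · exact h3
    · rw [← h3] at hgt
      linarith
  have hs2 : s₀ < L := by
    rcases hs₀.2.lt_or_eq with h3 | h3
    · exact h3
    · rw [h3] at hgt
      linarith
  have hwpos : 0 ≤ w s₀ := by
    simp only [hw]
    have := mul_nonneg (h0 0) (Real.exp_pos (-s₀)).le
    have := mul_nonneg (h0 L) (Real.exp_pos (s₀ - L)).le
    linarith
  obtain ⟨t, ht, K, hK, hineq⟩ := b1_key (w := w) h hs1 hs2 (by linarith) hmax'
  have hwd : w (s₀ + t) + w (s₀ - t) - 2 * w s₀ =
      w s₀ * (Real.exp t + Real.exp (-t) - 2) := by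
    simp only [hw]
    have e1 : Real.exp (-(s₀ + t)) = Real.exp (-s₀) * Real.exp (-t) := by
      rw [← Real.exp_add]
      congr 1
      ring
    have e2 : Real.exp (-(s₀ - t)) = Real.exp (-s₀) * Real.exp t := by
      rw [← Real.exp_add]
      congr 1
      ring
    have e3 : Real.exp (s₀ + t - L) = Real.exp (s₀ - L) * Real.exp t := by
      rw [← Real.exp_add]
      congr 1
      ring
    have e4 : Real.exp (s₀ - t - L) = Real.exp (s₀ - L) * Real.exp (-t) := by
      rw [← Real.exp_add]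
      congr 1
      ring
    rw [e1, e2, e3, e4]
    ring
  rw [hwd] at hineq
  have hc1 := b1_cosh ht
  set c : ℝ := Real.exp t + Real.exp (-t) - 2 with hcdef
  have hcc : Real.exp (2 * t) + Real.exp (-(2 * t)) - 2 = c * (c + 4) := by
    have e1 : Real.exp (2 * t) = Real.exp t * Real.exp t := by
      rw [← Real.exp_add]
      congr 1
      ring
    have e2 : Real.exp (-(2 * t)) = Real.exp (-t) * Real.exp (-t) := by
      rw [← Real.exp_add]
      congr 1
      ring
    have e3 : Real.exp t * Real.exp (-t) = 1 := by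
      rw [← Real.exp_add]
      simp
    rw [e1, e2, hcdef]
    nlinarith
  rw [hcc] at hineq
  have hKpos : 0 < K := by linarith
  have h5 : K * (c + 4) ≤ w s₀ := by
    by_contra h6
    push Not at h6
    have := mul_lt_mul_of_pos_right h6 hc1
    nlinarith
  have h6 : 0 < K * c := mul_pos hKpos hc1
  nlinarith

end HRP
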