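import Pool.Agent.HRP.Defs

/-!
# HRP-A2 : norms of vectors and matrices
-/

namespace HRP

open Matrix

theorem vsq_nonneg (v : V) : 0 ≤ vsq v := by
  unfold vsq
  exact add_nonneg (Complex.normSq_nonneg _) (Complex.normSq_nonneg _)

theorem nsq_nonneg (X : Mat) : 0 ≤ nsq X := by
  unfold nsq
  have h1 := Complex.normSq_nonneg (X 0 0)
  have h2 := Complex.normSq_nonneg (X 0 1)
  have h3 := Complex.normSq_nonneg (X 1 0)
  have h4 := Complex.normSq_nonneg (X 1 1)
  linarith

theorem vsq_eq_zero {v : V} : vsq v = 0 ↔ v = 0 := by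
  constructor
  · intro h
    unfold vsq at h
    have h1 := Complex.normSq_nonneg (v 0)
    have h2 := Complex.normSq_nonneg (v 1)
    have h3 : v 0 = 0 := Complex.normSq_eq_zero.1 (by linarith)
    have h4 : v 1 = 0 := Complex.normSq_eq_zero.1 (by linarith)
    funext i
    fin_cases i
    · exact h3
    · exact h4
  · intro h
    rw [h]
    unfold vsq
    rw [Pi.zero_apply, Pi.zero_apply, Complex.normSq_zero, add_zero]

theorem vsq_smul (c : ℂ) (v : V) : vsq (c • v) = Complex.normSq c * vsq v := by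
  unfold vsq
  rw [Pi.smul_apply, Pi.smul_apply, smul_eq_mul, smul_eq_mul, Complex.normSq_mul, Complex.normSq_mul]
  ring

theorem continuous_vsq : Continuous vsq := by
  unfold vsq
  exact (Complex.continuous_normSq.comp (continuous_apply 0)).add
    (Complex.continuous_normSq.comp (continuous_apply 1))

theorem a2_cont_entry (i j : Fin 2) : Continuous fun X : Mat => X i j :=
  (continuous_apply j).comp (continuous_apply i)

theorem continuous_nsq : Continuous nsq := by
  unfold nsq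
  exact (((Complex.continuous_normSq.comp (a2_cont_entry 0 0)).add
    (Complex.continuous_normSq.comp (a2_cont_entry 0 1))).add
    (Complex.continuous_normSq.comp (a2_cont_entry 1 0))).add
    (Complex.continuous_normSq.comp (a2_cont_entry 1 1))

/-- Cauchy-Schwarz for two terms (Lagrange identity) -/
theorem a2_cs (a b x y : ℂ) : Complex.normSq (a * x + b * y) ≤
    (Complex.normSq a + Complex.normSq b) * (Complex.normSq x + Complex.normSq y) := by
  have h : (Complex.normSq a + Complex.normSq b) * (Complex.normSq x + Complex.normSq y) =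
      Complex.normSq (a * x + b * y) + Complex.normSq (a * star y - b * star x) := by
    simp only [Complex.normSq_apply, Complex.add_re, Complex.add_im, Complex.mul_re, Complex.mul_im,
      Complex.sub_re, Complex.sub_im, Complex.star_def, Complex.conj_re, Complex.conj_im]
    ring
  rw [h]
  have := Complex.normSq_nonneg (a * star y - b * star x)
  linarith

theorem a2_mul (X Y : Mat) (i j : Fin 2) : (X * Y) i j = X i 0 * Y 0 j + X i 1 * Y 1 j := by
  rw [Matrix.mul_apply, Fin.sum_univ_two]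

theorem a2_mulVec (X : Mat) (v : V) (i : Fin 2) : (X *ᵥ v) i = X i 0 * v 0 + X i 1 * v 1 := by
  rw [Matrix.mulVec, dotProduct, Fin.sum_univ_two]

/-- Cauchy-Schwarz. -/
theorem vsq_mulVec_le (X : Mat) (v : V) : vsq (X *ᵥ v) ≤ nsq X * vsq v := by
  unfold vsq nsq
  rw [a2_mulVec, a2_mulVec]
  have h1 := a2_cs (X 0 0) (X 0 1) (v 0) (v 1)
  have h2 := a2_cs (X 1 0) (X 1 1) (v 0) (v 1)
  linarith

/-- the Hilbert-Schmidt norm is submultiplicative. -/
theorem nsq_mul_le (X Y : Mat) : nsq (X * Y) ≤ nsq X * nsq Y := by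
  unfold nsq
  rw [a2_mul, a2_mul, a2_mul, a2_mul]
  have h1 := a2_cs (X 0 0) (X 0 1) (Y 0 0) (Y 1 0)
  have h2 := a2_cs (X 0 0) (X 0 1) (Y 0 1) (Y 1 1)
  have h3 := a2_cs (X 1 0) (X 1 1) (Y 0 0) (Y 1 0)
  have h4 := a2_cs (X 1 0) (X 1 1) (Y 0 1) (Y 1 1)
  linarith

/-- Cauchy-Schwarz for the trace pairing. -/
theorem normSq_trace_mul_le (X Y : Mat) : Complex.normSq (X * Y).trace ≤ nsq X * nsq Y := by
  rw [Matrix.trace_fin_two, a2_mul, a2_mul]
  unfold nsq
  have h1 := a2_cs (X 0 0) (X 0 1) (Y 0 0) (Y 1 0)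
  have h2 := a2_cs (X 1 0) (X 1 1) (Y 0 1) (Y 1 1)
  generalize X 0 0 * Y 0 0 + X 0 1 * Y 1 0 = p at h1 ⊢
  generalize X 1 0 * Y 0 1 + X 1 1 * Y 1 1 = q at h2 ⊢
  have hA : 0 ≤ Complex.normSq (X 0 0) + Complex.normSq (X 0 1) :=
    add_nonneg (Complex.normSq_nonneg _) (Complex.normSq_nonneg _)
  have hB : 0 ≤ Complex.normSq (Y 0 0) + Complex.normSq (Y 1 0) :=
    add_nonneg (Complex.normSq_nonneg _) (Complex.normSq_nonneg _)
  have hC : 0 ≤ Complex.normSq (X 1 0) + Complex.normSq (X 1 1) :=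
    add_nonneg (Complex.normSq_nonneg _) (Complex.normSq_nonneg _)
  have hD : 0 ≤ Complex.normSq (Y 0 1) + Complex.normSq (Y 1 1) :=
    add_nonneg (Complex.normSq_nonneg _) (Complex.normSq_nonneg _)
  have hE : (Complex.normSq (X 0 0) + Complex.normSq (X 0 1) + Complex.normSq (X 1 0) +
      Complex.normSq (X 1 1)) * (Complex.normSq (Y 0 0) + Complex.normSq (Y 0 1) +
      Complex.normSq (Y 1 0) + Complex.normSq (Y 1 1)) =
      ((Complex.normSq (X 0 0) + Complex.normSq (X 0 1)) + (Complex.normSq (X 1 0) +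
      Complex.normSq (X 1 1))) * ((Complex.normSq (Y 0 0) + Complex.normSq (Y 1 0)) +
      (Complex.normSq (Y 0 1) + Complex.normSq (Y 1 1))) := by ring
  rw [hE]
  generalize Complex.normSq (X 0 0) + Complex.normSq (X 0 1) = A at *
  generalize Complex.normSq (Y 0 0) + Complex.normSq (Y 1 0) = B at *
  generalize Complex.normSq (X 1 0) + Complex.normSq (X 1 1) = C at *
  generalize Complex.normSq (Y 0 1) + Complex.normSq (Y 1 1) = D at *
  rw [Complex.normSq_eq_norm_sq] at h1 h2 ⊢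
  have hp := norm_nonneg p
  have hq := norm_nonneg q
  have h3 : 2 * ‖p‖ * ‖q‖ ≤ A * D + C * B := by
    refine le_of_abs_le (abs_le_of_sq_le_sq ?_ (by positivity))
    have h4 : ‖p‖ ^ 2 * ‖q‖ ^ 2 ≤ (A * B) * (C * D) :=
      mul_le_mul h1 h2 (by positivity) (by positivity)
    have h5 : 4 * ((A * B) * (C * D)) ≤ (A * D + C * B) ^ 2 := by
      have := sq_nonneg (A * D - C * B)
      linarith
    calc (2 * ‖p‖ * ‖q‖) ^ 2 = 4 * (‖p‖ ^ 2 * ‖q‖ ^ 2) := by ring
      _ ≤ 4 * ((A * B) * (C * D)) := by linarith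
      _ ≤ _ := h5
  calc ‖p + q‖ ^ 2 ≤ (‖p‖ + ‖q‖) ^ 2 := pow_le_pow_left₀ (norm_nonneg _) (norm_add_le _ _) 2
    _ = ‖p‖ ^ 2 + 2 * ‖p‖ * ‖q‖ + ‖q‖ ^ 2 := by ring
    _ ≤ A * B + (A * D + C * B) + C * D := by linarith
    _ = _ := by ring

theorem a2_vsq_norm (v : V) : vsq v = ‖(WithLp.toLp 2 v : EuclideanSpace ℂ (Fin 2))‖ ^ 2 := by
  rw [EuclideanSpace.norm_sq_eq, Fin.sum_univ_two]
  unfold vsq
  rw [Complex.normSq_eq_norm_sq, Complex.normSq_eq_norm_sq]

/-- the matrix as a vector -/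
noncomputable def a2_vec (X : Mat) : EuclideanSpace ℂ (Fin 2 × Fin 2) := WithLp.toLp 2 (fun p => X p.1 p.2)

theorem a2_nsq_norm (X : Mat) : nsq X = ‖a2_vec X‖ ^ 2 := by
  rw [EuclideanSpace.norm_sq_eq, Fintype.sum_prod_type, Fin.sum_univ_two, Fin.sum_univ_two, Fin.sum_univ_two]
  unfold nsq a2_vec
  simp only [Complex.normSq_eq_norm_sq]
  ring

/-- triangle inequality. -/
theorem sqrt_nsq_add_le (X Y : Mat) :
    Real.sqrt (nsq (X + Y)) ≤ Real.sqrt (nsq X) + Real.sqrt (nsq Y) := by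
  rw [a2_nsq_norm, a2_nsq_norm, a2_nsq_norm, Real.sqrt_sq (norm_nonneg _), Real.sqrt_sq (norm_nonneg _),
    Real.sqrt_sq (norm_nonneg _)]
  exact norm_add_le (a2_vec X) (a2_vec Y)

theorem sqrt_vsq_add_le (v w : V) :
    Real.sqrt (vsq (v + w)) ≤ Real.sqrt (vsq v) + Real.sqrt (vsq w) := by
  rw [a2_vsq_norm, a2_vsq_norm, a2_vsq_norm, Real.sqrt_sq (norm_nonneg _), Real.sqrt_sq (norm_nonneg _),
    Real.sqrt_sq (norm_nonneg _)]
  exact norm_add_le (WithLp.toLp 2 v : EuclideanSpace ℂ (Fin 2)) (WithLp.toLp 2 w)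

theorem nsq_neg (X : Mat) : nsq (-X) = nsq X := by
  unfold nsq
  simp only [Matrix.neg_apply, Complex.normSq_neg]

theorem vsq_neg (v : V) : vsq (-v) = vsq v := by
  unfold vsq
  simp only [Pi.neg_apply, Complex.normSq_neg]

theorem nsq_smul (c : ℂ) (X : Mat) : nsq (c • X) = Complex.normSq c * nsq X := by
  unfold nsq
  simp only [Matrix.smul_apply, smul_eq_mul, Complex.normSq_mul]
  ring

theorem nsq_conjTranspose (X : Mat) : nsq Xᴴ = nsq X := by
  unfold nsq
  simp only [Matrix.conjTranspose_apply, Complex.star_def, Complex.normSq_conj]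
  ring

theorem a2_inv {k : Mat} (hk : k.det = 1) : k⁻¹ = !![k 1 1, -k 0 1; -k 1 0, k 0 0] := by
  rw [Matrix.inv_def, hk, Ring.inverse_one, one_smul, Matrix.adjugate_fin_two]

/-- for `det k = 1` the inverse has the same Hilbert-Schmidt norm. -/
theorem nsq_inv {k : Mat} (hk : k.det = 1) : nsq k⁻¹ = nsq k := by
  rw [a2_inv hk]
  unfold nsq
  simp only [Matrix.of_apply, Matrix.cons_val', Matrix.cons_val_zero, Matrix.cons_val_one,
    Matrix.cons_val_fin_one, Complex.normSq_neg]
  ring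

/-- `|n(ψ)| = |ψ|²` -/
theorem nsq_nil (ψ : V) : nsq (nil ψ) = vsq ψ ^ 2 := by
  unfold nsq nil vsq
  simp only [Matrix.of_apply, Matrix.cons_val', Matrix.cons_val_zero, Matrix.cons_val_one,
    Matrix.cons_val_fin_one, Complex.normSq_neg, Complex.normSq_mul, pow_two]
  ring

/-- `|q_P(ψ)| ≤ |P| |ψ|²`. -/
theorem norm_qP_sq_le (P : Mat) (ψ : V) : ‖qP P ψ‖ ^ 2 ≤ nsq P * vsq ψ ^ 2 := by
  rw [← Complex.normSq_eq_norm_sq, ← nsq_nil]
  exact normSq_trace_mul_le P (nil ψ)

/-- entries are bounded by the norm -/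
theorem normSq_entry_le (X : Mat) (i j : Fin 2) : Complex.normSq (X i j) ≤ nsq X := by
  unfold nsq
  have h1 := Complex.normSq_nonneg (X 0 0)
  have h2 := Complex.normSq_nonneg (X 0 1)
  have h3 := Complex.normSq_nonneg (X 1 0)
  have h4 := Complex.normSq_nonneg (X 1 1)
  have hi : i = 0 ∨ i = 1 := by
    fin_cases i
    · exact Or.inl rfl
    · exact Or.inr rfl
  have hj : j = 0 ∨ j = 1 := by
    fin_cases j
    · exact Or.inl rfl
    · exact Or.inr rfl
  rcases hi with rfl | rfl <;> rcases hj with rfl | rfl <;> linarith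

theorem a2_coord_le (v : V) (i : Fin 2) : Complex.normSq (v i) ≤ vsq v := by
  unfold vsq
  have h1 := Complex.normSq_nonneg (v 0)
  have h2 := Complex.normSq_nonneg (v 1)
  have hi : i = 0 ∨ i = 1 := by
    fin_cases i
    · exact Or.inl rfl
    · exact Or.inr rfl
  rcases hi with rfl | rfl <;> linarith

/-- `|N|² = |P|² - 1/2` for `N = P - 1/2`, `P` a plane. -/
theorem nsq_sub_half {P : Mat} (hP : IsPl P) : nsq (P - (1 / 2 : ℂ) • (1 : Mat)) = nsq P - 1 / 2 := by
  obtain ⟨h1, -⟩ := hP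
  rw [Matrix.trace_fin_two] at h1
  have h2 : (P 0 0).re + (P 1 1).re = 1 := by
    have := congrArg Complex.re h1
    simpa using this
  have e00 : (P - (1 / 2 : ℂ) • (1 : Mat)) 0 0 = P 0 0 - 1 / 2 := by simp
  have e01 : (P - (1 / 2 : ℂ) • (1 : Mat)) 0 1 = P 0 1 := by simp
  have e10 : (P - (1 / 2 : ℂ) • (1 : Mat)) 1 0 = P 1 0 := by simp
  have e11 : (P - (1 / 2 : ℂ) • (1 : Mat)) 1 1 = P 1 1 - 1 / 2 := by simp
  unfold nsq
  rw [e00, e01, e10, e11]
  have k : ∀ z : ℂ, Complex.normSq (z - 1 / 2) = Complex.normSq z - z.re + 1 / 4 := by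
    intro z
    have r1 : (1 / 2 : ℂ).re = 1 / 2 := by norm_num
    have r2 : (1 / 2 : ℂ).im = 0 := by norm_num
    rw [Complex.normSq_apply, Complex.normSq_apply, Complex.sub_re, Complex.sub_im, r1, r2]
    ring
  rw [k, k]
  linarith

/-- the unit sphere is compact and nonempty. -/
theorem isCompact_sphere : IsCompact {ψ : V | vsq ψ = 1} := by
  have hcl : IsClosed {ψ : V | vsq ψ = 1} := isClosed_eq continuous_vsq continuous_const
  refine IsCompact.of_isClosed_subset (isCompact_closedBall (0 : V) 1) hcl ?_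
  intro ψ hψ
  rw [mem_closedBall_zero_iff, pi_norm_le_iff_of_nonneg zero_le_one]
  intro i
  have h1 := a2_coord_le ψ i
  have h2 : vsq ψ = 1 := hψ
  rw [h2, Complex.normSq_eq_norm_sq] at h1
  exact le_of_abs_le (abs_le_of_sq_le_sq (by linarith) zero_le_one)

theorem sphere_nonempty : ({ψ : V | vsq ψ = 1}).Nonempty := by
  refine ⟨![1, 0], ?_⟩
  change vsq ![1, 0] = 1
  unfold vsq
  simp

/-- balls of matrices are compact. -/
theorem isCompact_nsq_le (C : ℝ) : IsCompact {X : Mat | nsq X ≤ C} := by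
  have hcl : IsClosed {X : Mat | nsq X ≤ C} := isClosed_le continuous_nsq continuous_const
  have hK : IsCompact (Set.pi Set.univ fun _ : Fin 2 => Set.pi Set.univ fun _ : Fin 2 =>
      Metric.closedBall (0 : ℂ) (Real.sqrt C)) :=
    isCompact_univ_pi fun _ => isCompact_univ_pi fun _ => isCompact_closedBall _ _
  refine IsCompact.of_isClosed_subset hK hcl ?_
  intro X hX i _ j _
  rw [mem_closedBall_zero_iff]
  have h1 := normSq_entry_le X i j
  have h2 : nsq X ≤ C := hX
  rw [Complex.normSq_eq_norm_sq] at h1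
  exact Real.le_sqrt_of_sq_le (h1.trans h2)

/-- sequences: convergence of matrices is convergence of `nsq`. -/
theorem tendsto_nsq_sub {ι : Type*} {l : Filter ι} {X : ι → Mat} {Y : Mat} :
    Filter.Tendsto X l (nhds Y) ↔ Filter.Tendsto (fun i => nsq (X i - Y)) l (nhds 0) := by
  constructor
  · intro h
    have h1 : Filter.Tendsto (fun i => X i - Y) l (nhds (Y - Y)) := h.sub tendsto_const_nhds
    have h2 := (continuous_nsq.tendsto (Y - Y)).comp h1
    have h3 : nsq (Y - Y) = 0 := by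
      rw [sub_self]
      unfold nsq
      simp
    rw [h3] at h2
    exact h2
  · intro h
    refine tendsto_pi_nhds.2 fun a => tendsto_pi_nhds.2 fun b => ?_
    refine tendsto_iff_norm_sub_tendsto_zero.2 ?_
    have h1 : Filter.Tendsto (fun i => Real.sqrt (nsq (X i - Y))) l (nhds 0) := by
      have := (Real.continuous_sqrt.tendsto 0).comp h
      rwa [Real.sqrt_zero] at this
    refine squeeze_zero (fun i => norm_nonneg _) (fun i => ?_) h1
    have h2 := normSq_entry_le (X i - Y) a b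
    rw [Complex.normSq_eq_norm_sq] at h2
    exact Real.le_sqrt_of_sq_le h2

theorem tendsto_vsq_sub {ι : Type*} {l : Filter ι} {X : ι → V} {Y : V} :
    Filter.Tendsto X l (nhds Y) ↔ Filter.Tendsto (fun i => vsq (X i - Y)) l (nhds 0) := by
  constructor
  · intro h
    have h1 : Filter.Tendsto (fun i => X i - Y) l (nhds (Y - Y)) := h.sub tendsto_const_nhds
    have h2 := (continuous_vsq.tendsto (Y - Y)).comp h1
    have h3 : vsq (Y - Y) = 0 := vsq_eq_zero.2 (sub_self Y)
    rw [h3] at h2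
    exact h2
  · intro h
    rw [tendsto_pi_nhds]
    intro a
    rw [tendsto_iff_norm_sub_tendsto_zero]
    have h1 : Filter.Tendsto (fun i => Real.sqrt (vsq (X i - Y))) l (nhds 0) := by
      have := (Real.continuous_sqrt.tendsto 0).comp h
      rwa [Real.sqrt_zero] at this
    refine squeeze_zero (fun i => norm_nonneg _) (fun i => ?_) h1
    have h2 := a2_coord_le (X i - Y) a
    rw [Complex.normSq_eq_norm_sq] at h2
    exact Real.le_sqrt_of_sq_le h2

end HRP
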