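import Pool.Agent.HRP.A1
import Pool.Agent.HRP.A2
import Pool.Agent.HRP.A3

/-!
# HRP-A6 : consequences of the normal form

Let `Q = U P U⁻¹ = [[1/2, q], [r, 1/2]]`, `|r| = M`, `|q| = 1/(4M)`, `M ≥ 1/2`.
* `q_P(φ) = q_Q(U φ) = r a² - q b²` with `(a, b) = U φ`, `|a|² + |b|² = |φ|²`; so
  `|q_P(φ)| ≤ M |a|² + |q| |b|² ≤ M |φ|²` as `1/(4M) ≤ M`; equality at `ψ`: `|q_P(ψ)| = |r| = M`.
* `|P|² = |Q|² = 1/2 + M² + 1/(16 M²) = 1 + FF M`.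
* `P Pᴴ - Pᴴ P = U⁻¹ (Q Qᴴ - Qᴴ Q) U`, `Q Qᴴ - Qᴴ Q = (|q|² - |r|²) diag (1, -1)` and
  `U⁻¹ diag (1,-1) U = 2 ψ ψ* - 1 = [[x₂, x₀ - i x₁], [x₀ + i x₁, -x₂]]`, `x = bl ψ`
  (check: `2 ψ₀ ψ̄₁ = x₀ - i x₁` with `x₀ = 2 Re (ψ̄₀ ψ₁)`, `x₁ = 2 Im (ψ̄₀ ψ₁)`).
* uniqueness: if `M > 1/2`, `|φ| = 1` and `|q_P(φ)| = M` then `b = 0`: `φ = U⁻¹ (a, 0) = a ψ`.
-/

namespace HRP

open Matrix

theorem a6_det {P : Mat} {ψ : V} {M : ℝ} (h : Nrm P ψ M) : (Un ψ).det = 1 :=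
  (Un_isU h.unit).2

theorem a6_q {P : Mat} {ψ : V} {M : ℝ} (h : Nrm P ψ M) (φ : V) :
    qP P φ = (Un ψ * P * (Un ψ)⁻¹) 1 0 * (Un ψ *ᵥ φ) 0 ^ 2 -
      (Un ψ * P * (Un ψ)⁻¹) 0 1 * (Un ψ *ᵥ φ) 1 ^ 2 := by
  rw [← qP_conj P (Un ψ) (a6_det h) φ, qP_formula, h.e00, h.e11]
  ring

theorem a6_vsq {P : Mat} {ψ : V} {M : ℝ} (h : Nrm P ψ M) (φ : V) :
    Complex.normSq ((Un ψ *ᵥ φ) 0) + Complex.normSq ((Un ψ *ᵥ φ) 1) = vsq φ :=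
  (Un_isU h.unit).vsq_mulVec φ

theorem a6_bound {P : Mat} {ψ : V} {M : ℝ} (h : Nrm P ψ M) (φ : V) :
    ‖qP P φ‖ ≤ M * Complex.normSq ((Un ψ *ᵥ φ) 0) +
      1 / (4 * M) * Complex.normSq ((Un ψ *ᵥ φ) 1) := by
  rw [a6_q h φ]
  refine (norm_sub_le _ _).trans (le_of_eq ?_)
  rw [norm_mul, norm_mul, norm_pow, norm_pow, h.e10, h.e01, Complex.normSq_eq_norm_sq,
    Complex.normSq_eq_norm_sq]

theorem a6_M {P : Mat} {ψ : V} {M : ℝ} (h : Nrm P ψ M) : 0 < M := by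
  have := h.half
  linarith

theorem Nrm.norm_qP {P : Mat} {ψ : V} {M : ℝ} (h : Nrm P ψ M) : ‖qP P ψ‖ = M := by
  rw [a6_q h ψ, Un_mulVec h.unit]
  simp only [Matrix.cons_val_zero, Matrix.cons_val_one]
  rw [← h.e10]
  congr 1
  ring

theorem Nrm.le {P : Mat} {ψ : V} {M : ℝ} (h : Nrm P ψ M) (φ : V) : ‖qP P φ‖ ≤ M * vsq φ := by
  have h1 := a6_bound h φ
  have h2 := a6_vsq h φ
  have hM := a6_M h
  have hh := h.half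
  have h3 : 1 / (4 * M) ≤ M := by
    rw [div_le_iff₀ (by positivity)]
    nlinarith
  have h4 := mul_le_mul_of_nonneg_right h3 (Complex.normSq_nonneg ((Un ψ *ᵥ φ) 1))
  rw [← h2]
  linarith

theorem Nrm.nsq_eq {P : Mat} {ψ : V} {M : ℝ} (h : Nrm P ψ M) : nsq P = 1 + FF M := by
  have hM := a6_M h
  rw [← (Un_isU h.unit).nsq_conj P]
  unfold nsq FF
  rw [h.e00, h.e11, Complex.normSq_eq_norm_sq ((Un ψ * P * (Un ψ)⁻¹) 1 0),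
    Complex.normSq_eq_norm_sq ((Un ψ * P * (Un ψ)⁻¹) 0 1), h.e10, h.e01]
  have h1 : Complex.normSq (1 / 2) = 1 / 4 := by
    rw [Complex.normSq_eq_norm_sq]
    norm_num
  rw [h1]
  field_simp
  ring

theorem Nrm.unique {P : Mat} {ψ : V} {M : ℝ} (h : Nrm P ψ M) (hM : 1 / 2 < M) {φ : V}
    (hφ : vsq φ = 1) (hq : ‖qP P φ‖ = M) : ∃ c : ℂ, ‖c‖ = 1 ∧ φ = c • ψ := by
  have h1 := a6_bound h φ
  have h2 := a6_vsq h φ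
  have hM0 := a6_M h
  rw [hq] at h1
  rw [hφ] at h2
  have h3 : 1 / (4 * M) < M := by
    rw [div_lt_iff₀ (by positivity)]
    nlinarith
  have hb : Complex.normSq ((Un ψ *ᵥ φ) 1) = 0 := by
    have h5 := Complex.normSq_nonneg ((Un ψ *ᵥ φ) 1)
    have h6 : (M - 1 / (4 * M)) * Complex.normSq ((Un ψ *ᵥ φ) 1) ≤ 0 := by
      have h7 : M * Complex.normSq ((Un ψ *ᵥ φ) 0) + M * Complex.normSq ((Un ψ *ᵥ φ) 1) = M := by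
        rw [← mul_add, h2, mul_one]
      nlinarith
    by_contra h8
    have h9 : 0 < Complex.normSq ((Un ψ *ᵥ φ) 1) := lt_of_le_of_ne h5 (Ne.symm h8)
    have h10 := mul_pos (sub_pos.2 h3) h9
    linarith
  have hb0 : (Un ψ *ᵥ φ) 1 = 0 := Complex.normSq_eq_zero.1 hb
  refine ⟨(Un ψ *ᵥ φ) 0, ?_, ?_⟩
  · rw [hb, add_zero, Complex.normSq_eq_norm_sq] at h2
    nlinarith [norm_nonneg ((Un ψ *ᵥ φ) 0)]
  · have hu : Un ψ *ᵥ ((Un ψ *ᵥ φ) 0 • ψ) = Un ψ *ᵥ φ := by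
      rw [Matrix.mulVec_smul, Un_mulVec h.unit]
      ext i
      fin_cases i
      · simp
      · simp [hb0]
    have hinv : (Un ψ)ᴴ * Un ψ = 1 := (Un_isU h.unit).1
    have h11 := congrArg (fun v => (Un ψ)ᴴ *ᵥ v) hu
    simp only [Matrix.mulVec_mulVec, hinv, Matrix.one_mulVec] at h11
    exact h11.symm

theorem a6_D (ψ : V) : (Un ψ)ᴴ * !![(1 : ℂ), 0; 0, -1] * Un ψ =
      !![((bl ψ 2 : ℝ) : ℂ), (bl ψ 0 : ℂ) - Complex.I * (bl ψ 1 : ℂ);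
        (bl ψ 0 : ℂ) + Complex.I * (bl ψ 1 : ℂ), -((bl ψ 2 : ℝ) : ℂ)] := by
  have e0 : bl ψ 0 = 2 * (star (ψ 0) * ψ 1).re := rfl
  have e1 : bl ψ 1 = 2 * (star (ψ 0) * ψ 1).im := rfl
  have e2 : bl ψ 2 = Complex.normSq (ψ 0) - Complex.normSq (ψ 1) := rfl
  have f1 : ((bl ψ 0 : ℝ) : ℂ) + Complex.I * (bl ψ 1 : ℂ) = 2 * (star (ψ 0) * ψ 1) := by
    rw [e0, e1]
    apply Complex.ext <;> simp
  have f2 : ((bl ψ 0 : ℝ) : ℂ) - Complex.I * (bl ψ 1 : ℂ) = 2 * (ψ 0 * star (ψ 1)) := by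
    rw [e0, e1]
    apply Complex.ext <;> simp <;> ring
  have f3 : ((bl ψ 2 : ℝ) : ℂ) = ψ 0 * star (ψ 0) - ψ 1 * star (ψ 1) := by
    rw [e2]
    push_cast
    rw [Complex.star_def, Complex.mul_conj, Complex.mul_conj]
  rw [f1, f2, f3]
  ext i j
  fin_cases i <;> fin_cases j <;>
    simp [Un, Matrix.mul_apply, Fin.sum_univ_two, Matrix.conjTranspose_apply] <;> ring

/-- the commutator `P Pᴴ - Pᴴ P` in terms of the Bloch vector -/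
theorem Nrm.comm {P : Mat} {ψ : V} {M : ℝ} (h : Nrm P ψ M) :
    P * Pᴴ - Pᴴ * P = (((1 / (4 * M)) ^ 2 - M ^ 2 : ℝ) : ℂ) •
      !![((bl ψ 2 : ℝ) : ℂ), (bl ψ 0 : ℂ) - Complex.I * (bl ψ 1 : ℂ);
        (bl ψ 0 : ℂ) + Complex.I * (bl ψ 1 : ℂ), -((bl ψ 2 : ℝ) : ℂ)] := by
  have hU := Un_isU h.unit
  have hUU : (Un ψ)ᴴ * Un ψ = 1 := hU.1
  have hUU' : Un ψ * (Un ψ)ᴴ = 1 := mul_eq_one_comm.1 hUU
  have hinv := hU.inv_eq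
  set Q : Mat := Un ψ * P * (Un ψ)⁻¹ with hQ
  have hP : P = (Un ψ)ᴴ * Q * Un ψ := by
    rw [hQ, hinv]
    calc P = 1 * P * 1 := by simp
      _ = ((Un ψ)ᴴ * Un ψ) * P * ((Un ψ)ᴴ * Un ψ) := by rw [hUU]
      _ = (Un ψ)ᴴ * (Un ψ * P * (Un ψ)ᴴ) * Un ψ := by simp only [mul_assoc]
  have hPH : Pᴴ = (Un ψ)ᴴ * Qᴴ * Un ψ := by
    conv_lhs => rw [hP]
    simp only [Matrix.conjTranspose_mul, Matrix.conjTranspose_conjTranspose, mul_assoc]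
  have h1 : P * Pᴴ = (Un ψ)ᴴ * (Q * Qᴴ) * Un ψ := by
    rw [hPH]
    conv_lhs => rw [hP]
    calc (Un ψ)ᴴ * Q * Un ψ * ((Un ψ)ᴴ * Qᴴ * Un ψ)
        = (Un ψ)ᴴ * Q * (Un ψ * (Un ψ)ᴴ) * Qᴴ * Un ψ := by simp only [mul_assoc]
      _ = (Un ψ)ᴴ * (Q * Qᴴ) * Un ψ := by rw [hUU', mul_one]; simp only [mul_assoc]
  have h2 : Pᴴ * P = (Un ψ)ᴴ * (Qᴴ * Q) * Un ψ := by
    rw [hPH]
    conv_lhs => rw [hP]
    calc (Un ψ)ᴴ * Qᴴ * Un ψ * ((Un ψ)ᴴ * Q * Un ψ)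
        = (Un ψ)ᴴ * Qᴴ * (Un ψ * (Un ψ)ᴴ) * Q * Un ψ := by simp only [mul_assoc]
      _ = (Un ψ)ᴴ * (Qᴴ * Q) * Un ψ := by rw [hUU', mul_one]; simp only [mul_assoc]
  have hr : Q 1 0 * star (Q 1 0) = ((M ^ 2 : ℝ) : ℂ) := by
    rw [Complex.star_def, Complex.mul_conj, Complex.normSq_eq_norm_sq, h.e10]
  have hq : Q 0 1 * star (Q 0 1) = (((1 / (4 * M)) ^ 2 : ℝ) : ℂ) := by
    rw [Complex.star_def, Complex.mul_conj, Complex.normSq_eq_norm_sq, h.e01]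
  have h3 : Q * Qᴴ - Qᴴ * Q = (((1 / (4 * M)) ^ 2 - M ^ 2 : ℝ) : ℂ) • !![(1 : ℂ), 0; 0, -1] := by
    have hs2 : (starRingEnd ℂ) (1 / 2 : ℂ) = 1 / 2 := by
      apply Complex.ext <;> simp
    have e00 : Q 0 0 = 1 / 2 := h.e00
    have e11 : Q 1 1 = 1 / 2 := h.e11
    have hr' := hr
    have hq' := hq
    rw [Complex.star_def] at hr' hq'
    rw [Complex.ofReal_sub, ← hr', ← hq']
    ext i j
    fin_cases i <;> fin_cases j <;>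
      simp [Matrix.mul_apply, Fin.sum_univ_two, Matrix.conjTranspose_apply, e00, e11] <;> ring
  rw [h1, h2, ← sub_mul, ← mul_sub, h3, Matrix.mul_smul, Matrix.smul_mul, a6_D]

end HRP
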