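import Pool.Agent.HRP.A5
import Pool.Agent.HRP.A6

/-!
# HRP-A7 : every plane has a normal form; perturbation of the normal form

* `exists_nrm`: the continuous function `φ ↦ |q_P(φ)|` has a maximum `ψ` on the (compact) unit
  sphere, and `|q_P(φ)| ≤ |q_P(ψ)| |φ|²` for all `φ` by homogeneity (`norm_qP_smul`);
  `q_P(ψ) ≠ 0` by `exists_qP_ne`; apply `nrm_of_localMax`.
* `nrm_near`: let `P∞` have the normal form at `ψ∞` with `M∞ > 1/2`. For every `δ > 0` there is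
  `ε > 0` such that every plane `P'` with `nsq (P' - P∞) < ε` has a normal form `Nrm P' ψ' M'` with
  `vsq (ψ' - ψ∞) < δ`. Proof: otherwise there are planes `P'_n → P∞` without such a `ψ'`.
  Take `exists_nrm`: `Nrm P'_n ψ'_n M'_n`; a subsequence of `ψ'_n` converges to a unit vector `ψ''`,
  and (limit of `|q_{P'_n}(φ)| ≤ |q_{P'_n}(ψ'_n)| |φ|²`) `|q_{P∞}(φ)| ≤ |q_{P∞}(ψ'')|` for unit `φ`;
  so `|q_{P∞}(ψ'')| = M∞` and `ψ'' = c ψ∞`, `|c| = 1` (`Nrm.unique`). Then `c⁻¹ ψ'_n → ψ∞` and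
  `Nrm P'_n (c⁻¹ ψ'_n) M'_n` (`nrm_phase`, by `nrm_of_localMax` and homogeneity): contradiction.
-/

namespace HRP

open Matrix

theorem a7_tendsto {ι : Type*} {l : Filter ι} {X : ι → Mat} {x : ι → V} {P : Mat} {ψ : V}
    (hX : Filter.Tendsto X l (nhds P)) (hx : Filter.Tendsto x l (nhds ψ)) :
    Filter.Tendsto (fun i => ‖qP (X i) (x i)‖) l (nhds ‖qP P ψ‖) := by
  have e : ∀ i j, Filter.Tendsto (fun k => X k i j) l (nhds (P i j)) := fun i j =>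
    tendsto_pi_nhds.1 (tendsto_pi_nhds.1 hX i) j
  have f : ∀ i, Filter.Tendsto (fun k => x k i) l (nhds (ψ i)) := fun i => tendsto_pi_nhds.1 hx i
  simp only [qP_formula]
  exact ((((e 1 0).mul ((f 0).pow 2)).add (((e 1 1).sub (e 0 0)).mul ((f 0).mul (f 1)))).sub
    ((e 0 1).mul ((f 1).pow 2))).norm

theorem a7_cont (P : Mat) : Continuous fun φ : V => ‖qP P φ‖ := by
  simp only [qP_formula]
  fun_prop

theorem a7_bound {P : Mat} {K : ℝ} (hmax : ∀ φ : V, vsq φ = 1 → ‖qP P φ‖ ≤ K) (φ : V) :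
    ‖qP P φ‖ ≤ K * vsq φ := by
  rcases (vsq_nonneg φ).lt_or_eq with h | h
  · have hs : 0 < Real.sqrt (vsq φ) := Real.sqrt_pos.2 h
    have h2 : Complex.normSq (((Real.sqrt (vsq φ))⁻¹ : ℝ) : ℂ) = (vsq φ)⁻¹ := by
      rw [Complex.normSq_ofReal, ← mul_inv, Real.mul_self_sqrt h.le]
    have h3 := hmax ((((Real.sqrt (vsq φ))⁻¹ : ℝ) : ℂ) • φ) (by
      rw [vsq_smul, h2, inv_mul_cancel₀ h.ne'])
    rw [norm_qP_smul, h2, inv_mul_le_iff₀ h, mul_comm] at h3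
    exact h3
  · have h0 : φ = 0 := vsq_eq_zero.1 h.symm
    have h1 : qP P φ = 0 := by
      rw [qP_formula, h0]
      simp
    rw [h1, norm_zero, ← h, mul_zero]

theorem exists_nrm {P : Mat} (hP : IsPl P) : ∃ (ψ : V) (M : ℝ), Nrm P ψ M := by
  have hc : Continuous fun φ : V => ‖qP P φ‖ := a7_cont P
  obtain ⟨ψ, hψ, hmax⟩ := isCompact_sphere.exists_isMaxOn sphere_nonempty hc.continuousOn
  have hb := a7_bound (P := P) (K := ‖qP P ψ‖) (fun φ hφ => hmax hφ)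
  have h0 : qP P ψ ≠ 0 := by
    intro h0
    obtain ⟨φ, hφ⟩ := exists_qP_ne hP
    have h1 := hb φ
    rw [h0, norm_zero, zero_mul] at h1
    exact hφ (norm_le_zero_iff.1 h1)
  exact ⟨ψ, _, nrm_of_localMax hP hψ h0 one_pos fun φ _ => hb φ⟩

theorem nrm_phase {P : Mat} {ψ : V} {M : ℝ} (h : Nrm P ψ M) {c : ℂ} (hc : ‖c‖ = 1) :
    Nrm P (c • ψ) M := by
  have hc2 : Complex.normSq c = 1 := by
    rw [Complex.normSq_eq_norm_sq, hc, one_pow]
  have h1 : vsq (c • ψ) = 1 := by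
    rw [vsq_smul, hc2, h.unit, one_mul]
  have h2 : ‖qP P (c • ψ)‖ = M := by
    rw [norm_qP_smul, hc2, h.norm_qP, one_mul]
  have hM := h.half
  have h0 : qP P (c • ψ) ≠ 0 := by
    intro h0
    rw [h0, norm_zero] at h2
    linarith
  have h3 := nrm_of_localMax h.pl h1 h0 one_pos fun φ _ => by
    rw [h2]
    exact h.le φ
  rwa [h2] at h3

theorem nrm_near {P : Mat} {ψ : V} {M : ℝ} (h : Nrm P ψ M) (hM : 1 / 2 < M) {δ : ℝ} (hδ : 0 < δ) :
    ∃ ε : ℝ, 0 < ε ∧ ∀ P' : Mat, IsPl P' → nsq (P' - P) < ε →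
      ∃ (ψ' : V) (M' : ℝ), Nrm P' ψ' M' ∧ vsq (ψ' - ψ) < δ := by
  by_contra hcon
  push Not at hcon
  have h1 : ∀ n : ℕ, ∃ P' : Mat, IsPl P' ∧ nsq (P' - P) < 1 / ((n : ℝ) + 1) ∧
      ∀ (ψ' : V) (M' : ℝ), Nrm P' ψ' M' → δ ≤ vsq (ψ' - ψ) := fun n =>
    hcon (1 / ((n : ℝ) + 1)) (by positivity)
  choose Q hQ1 hQ2 hQ3 using h1
  choose χ K hN using fun n => exists_nrm (hQ1 n)
  obtain ⟨χ0, hχ0, g, hg, hlim⟩ := isCompact_sphere.tendsto_subseq (fun n => (hN n).unit)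
  have hQlim : Filter.Tendsto Q Filter.atTop (nhds P) := by
    rw [tendsto_nsq_sub]
    exact squeeze_zero (fun n => nsq_nonneg _) (fun n => (hQ2 n).le)
      tendsto_one_div_add_atTop_nhds_zero_nat
  have hQg : Filter.Tendsto (fun k => Q (g k)) Filter.atTop (nhds P) :=
    hQlim.comp hg.tendsto_atTop
  have hχg : Filter.Tendsto (fun k => χ (g k)) Filter.atTop (nhds χ0) := hlim
  have t1 : Filter.Tendsto (fun k => ‖qP (Q (g k)) (χ (g k))‖) Filter.atTop (nhds ‖qP P χ0‖) :=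
    a7_tendsto hQg hχg
  have t2 : Filter.Tendsto (fun k => ‖qP (Q (g k)) ψ‖) Filter.atTop (nhds ‖qP P ψ‖) :=
    a7_tendsto hQg tendsto_const_nhds
  have h2 : ‖qP P ψ‖ ≤ ‖qP P χ0‖ := by
    refine le_of_tendsto_of_tendsto' t2 t1 fun k => ?_
    have h3 := (hN (g k)).le ψ
    rw [h.unit, mul_one] at h3
    rw [(hN (g k)).norm_qP]
    exact h3
  have hχ0' : vsq χ0 = 1 := hχ0
  have h3 := h.le χ0
  rw [hχ0', mul_one] at h3
  rw [h.norm_qP] at h2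
  obtain ⟨c, hc, hcψ⟩ := h.unique hM hχ0' (le_antisymm h3 h2)
  have hc0 : c ≠ 0 := by
    intro h0
    rw [h0, norm_zero] at hc
    exact zero_ne_one hc
  have t3 : Filter.Tendsto (fun k => c⁻¹ • χ (g k)) Filter.atTop (nhds ψ) := by
    have h4 : Filter.Tendsto (fun k => c⁻¹ • χ (g k)) Filter.atTop (nhds (c⁻¹ • χ0)) :=
      hχg.const_smul c⁻¹
    rwa [hcψ, inv_smul_smul₀ hc0] at h4
  rw [tendsto_vsq_sub] at t3
  have h5 : δ ≤ 0 := by
    refine ge_of_tendsto' t3 fun k => ?_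
    refine hQ3 (g k) _ (K (g k)) (nrm_phase (hN (g k)) ?_)
    rw [norm_inv, hc, inv_one]
  linarith

end HRP
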