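import Pool.Agent.HRP.A1
import Pool.Agent.HRP.A2

/-!
# HRP-A8 : continuity estimates for `P ↦ P^g` and for conjugation

With `X = g - 1`: `P g = P + P X`, `tr (P g) = 1 + tr (P X)`, `|tr (P X)| ≤ |P| |X|`,
`P^g - P = (P X - tr (P X) P) / (1 + tr (P X))`, so for `|P| |X| ≤ 1/2`:
`|P^g - P| ≤ 2 (|P| + |P|²) |X|`.
-/

namespace HRP

open Matrix

/-- the Hilbert-Schmidt norm -/
noncomputable def a8_N (X : Mat) : ℝ := Real.sqrt (nsq X)

theorem a8_nonneg (X : Mat) : 0 ≤ a8_N X := Real.sqrt_nonneg _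

theorem a8_sq (X : Mat) : a8_N X ^ 2 = nsq X := Real.sq_sqrt (nsq_nonneg X)

theorem a8_add (X Y : Mat) : a8_N (X + Y) ≤ a8_N X + a8_N Y := sqrt_nsq_add_le X Y

theorem a8_sub (X Y : Mat) : a8_N (X - Y) ≤ a8_N X + a8_N Y := by
  rw [sub_eq_add_neg]
  refine (a8_add X (-Y)).trans (le_of_eq ?_)
  unfold a8_N
  rw [nsq_neg]

theorem a8_mul (X Y : Mat) : a8_N (X * Y) ≤ a8_N X * a8_N Y := by
  unfold a8_N
  rw [← Real.sqrt_mul (nsq_nonneg X)]
  exact Real.sqrt_le_sqrt (nsq_mul_le X Y)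

theorem a8_norm (z : ℂ) : Real.sqrt (Complex.normSq z) = ‖z‖ := by
  rw [Complex.normSq_eq_norm_sq, Real.sqrt_sq (norm_nonneg z)]

theorem a8_smul (c : ℂ) (X : Mat) : a8_N (c • X) = ‖c‖ * a8_N X := by
  unfold a8_N
  rw [nsq_smul, Real.sqrt_mul (Complex.normSq_nonneg c), a8_norm]

theorem a8_trace (X Y : Mat) : ‖(X * Y).trace‖ ≤ a8_N X * a8_N Y := by
  unfold a8_N
  rw [← a8_norm, ← Real.sqrt_mul (nsq_nonneg X)]
  exact Real.sqrt_le_sqrt (normSq_trace_mul_le X Y)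

theorem a8_lt {X : Mat} {r : ℝ} (hr : 0 < r) (h : nsq X < r ^ 2) : a8_N X < r :=
  (Real.sqrt_lt' hr).2 h

theorem a8_lt' {X : Mat} {r : ℝ} (h : a8_N X < Real.sqrt r) : nsq X < r :=
  (Real.sqrt_lt_sqrt_iff (nsq_nonneg X)).1 h

theorem a8_one : a8_N (1 : Mat) ≤ 2 := by
  unfold a8_N
  have h : nsq (1 : Mat) = 2 := by
    unfold nsq
    simp
    norm_num
  rw [h]
  exact Real.sqrt_le_sqrt (by norm_num : (2 : ℝ) ≤ 4) |>.trans (le_of_eq (by
    rw [show (4 : ℝ) = 2 ^ 2 by norm_num]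
    exact Real.sqrt_sq (by norm_num)))

/-- the estimate -/
theorem a8_mvP {P g : Mat} (hP : IsPl P) (h : a8_N P * a8_N (g - 1) ≤ 1 / 2) :
    (P * g).trace ≠ 0 ∧ a8_N (mvP P g - P) ≤ 2 * (a8_N P * (1 + a8_N P)) * a8_N (g - 1) := by
  have h1 : P * g = P + P * (g - 1) := by
    rw [mul_sub, mul_one]
    abel
  have ht : (P * g).trace = 1 + (P * (g - 1)).trace := by
    rw [h1, Matrix.trace_add, hP.1]
  have ht1 : ‖(P * (g - 1)).trace‖ ≤ 1 / 2 := (a8_trace P (g - 1)).trans h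
  have ht2 : 1 / 2 ≤ ‖(P * g).trace‖ := by
    rw [ht]
    have h2 : ‖(1 : ℂ)‖ ≤ ‖1 + (P * (g - 1)).trace‖ + ‖(P * (g - 1)).trace‖ := by
      have h3 : (1 : ℂ) = (1 + (P * (g - 1)).trace) - (P * (g - 1)).trace := by ring
      calc ‖(1 : ℂ)‖ = ‖(1 + (P * (g - 1)).trace) - (P * (g - 1)).trace‖ := by rw [← h3]
        _ ≤ _ := norm_sub_le _ _
    rw [norm_one] at h2
    linarith
  have ht0 : (P * g).trace ≠ 0 := by
    intro h0
    rw [h0, norm_zero] at ht2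
    norm_num at ht2
  refine ⟨ht0, ?_⟩
  have h2 : mvP P g - P = ((P * g).trace)⁻¹ • (P * (g - 1) - (P * (g - 1)).trace • P) := by
    unfold mvP
    have h3 : P = ((P * g).trace)⁻¹ • ((P * g).trace • P) := by
      rw [smul_smul, inv_mul_cancel₀ ht0, one_smul]
    have h4 : P * (g - 1) - (P * (g - 1)).trace • P = P * g - (P * g).trace • P := by
      rw [ht, add_smul, one_smul, h1]
      abel
    rw [h4, smul_sub, ← h3]
  rw [h2, a8_smul]
  have h5 : ‖((P * g).trace)⁻¹‖ ≤ 2 := by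
    rw [norm_inv]
    calc ‖(P * g).trace‖⁻¹ ≤ (1 / 2 : ℝ)⁻¹ := inv_anti₀ (by norm_num) ht2
      _ = 2 := by norm_num
  have h6 : a8_N (P * (g - 1) - (P * (g - 1)).trace • P) ≤
      a8_N P * (1 + a8_N P) * a8_N (g - 1) := by
    have h7 := a8_sub (P * (g - 1)) ((P * (g - 1)).trace • P)
    rw [a8_smul] at h7
    have h8 := a8_mul P (g - 1)
    have h9 := mul_le_mul_of_nonneg_right (a8_trace P (g - 1)) (a8_nonneg P)
    nlinarith
  calc ‖((P * g).trace)⁻¹‖ * a8_N (P * (g - 1) - (P * (g - 1)).trace • P) ≤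
        2 * (a8_N P * (1 + a8_N P) * a8_N (g - 1)) :=
        mul_le_mul h5 h6 (a8_nonneg _) (by norm_num)
    _ = _ := by ring

/-- `P^g` is close to `P` for `g` close to `1`, uniformly for bounded `P`. -/
theorem mvP_near (C : ℝ) {ε : ℝ} (hε : 0 < ε) :
    ∃ δ : ℝ, 0 < δ ∧ ∀ P g : Mat, IsPl P → nsq P ≤ C → nsq (g - 1) < δ →
      (P * g).trace ≠ 0 ∧ nsq (mvP P g - P) < ε := by
  obtain ⟨R, hR0, hR⟩ : ∃ R : ℝ, 0 ≤ R ∧ R = Real.sqrt C := ⟨_, Real.sqrt_nonneg _, rfl⟩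
  have hs : 0 < Real.sqrt ε := Real.sqrt_pos.2 hε
  obtain ⟨η, hη0, hη1, hη2⟩ : ∃ η : ℝ, 0 < η ∧ η ≤ 1 / (2 * (R + 1)) ∧
      η ≤ Real.sqrt ε / (2 * (R + 1) ^ 2) :=
    ⟨min (1 / (2 * (R + 1))) (Real.sqrt ε / (2 * (R + 1) ^ 2)), lt_min (by positivity)
      (by positivity), min_le_left _ _, min_le_right _ _⟩
  refine ⟨η ^ 2, by positivity, fun P g hP hC hg => ?_⟩
  have hX := a8_lt hη0 hg
  have hN : a8_N P ≤ R := by
    rw [hR]
    exact Real.sqrt_le_sqrt hC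
  have hP0 := a8_nonneg P
  have hX0 := a8_nonneg (g - 1)
  have h1 : a8_N P * a8_N (g - 1) ≤ 1 / 2 := by
    calc a8_N P * a8_N (g - 1) ≤ (R + 1) * (1 / (2 * (R + 1))) :=
          mul_le_mul (by linarith) (hX.le.trans hη1) hX0 (by positivity)
      _ = 1 / 2 := by field_simp
  obtain ⟨h2, h3⟩ := a8_mvP hP h1
  refine ⟨h2, a8_lt' (lt_of_le_of_lt h3 ?_)⟩
  have h4 : a8_N P * (1 + a8_N P) ≤ (R + 1) ^ 2 := by nlinarith
  calc 2 * (a8_N P * (1 + a8_N P)) * a8_N (g - 1) ≤ 2 * (R + 1) ^ 2 * a8_N (g - 1) :=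
        mul_le_mul_of_nonneg_right (by linarith) hX0
    _ < 2 * (R + 1) ^ 2 * (Real.sqrt ε / (2 * (R + 1) ^ 2)) :=
        mul_lt_mul_of_pos_left (hX.trans_le hη2) (by positivity)
    _ = Real.sqrt ε := by field_simp

/-- `k P^g k⁻¹` is close to `P0` if `P` is close to `P0` and `g`, `k` are close to `1`. -/
theorem conj_mvP_near (P0 : Mat) {ε : ℝ} (hε : 0 < ε) :
    ∃ δ : ℝ, 0 < δ ∧ ∀ P g k : Mat, IsPl P → nsq (P - P0) < δ → nsq (g - 1) < δ →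
      k.det = 1 → nsq (k - 1) < δ →
      (P * g).trace ≠ 0 ∧ nsq (k * mvP P g * k⁻¹ - P0) < ε := by
  have hs : 0 < Real.sqrt ε := Real.sqrt_pos.2 hε
  obtain ⟨s, hs0, hs1, hs2⟩ : ∃ s : ℝ, 0 < s ∧ s ≤ 1 ∧ s ≤ Real.sqrt ε / 3 :=
    ⟨min 1 (Real.sqrt ε / 3), lt_min one_pos (by positivity), min_le_left _ _, min_le_right _ _⟩
  obtain ⟨δ1, hδ1, h1⟩ := mvP_near ((a8_N P0 + 1) ^ 2) (ε := s ^ 2) (by positivity)
  have hP00 := a8_nonneg P0
  obtain ⟨t, ht0, ht1, ht2⟩ : ∃ t : ℝ, 0 < t ∧ t ≤ 1 ∧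
      t ≤ Real.sqrt ε / (18 * (a8_N P0 + 2)) :=
    ⟨min 1 (Real.sqrt ε / (18 * (a8_N P0 + 2))), lt_min one_pos (by positivity),
      min_le_left _ _, min_le_right _ _⟩
  refine ⟨min δ1 (min (s ^ 2) (t ^ 2)), lt_min hδ1 (lt_min (by positivity) (by positivity)),
    fun P g k hP hPP hg hk hkk => ?_⟩
  have hPP1 : a8_N (P - P0) < s :=
    a8_lt hs0 (hPP.trans_le ((min_le_right _ _).trans (min_le_left _ _)))
  have hk1 : a8_N (k - 1) < t :=
    a8_lt ht0 (hkk.trans_le ((min_le_right _ _).trans (min_le_right _ _)))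
  have hNP : a8_N P ≤ a8_N P0 + 1 := by
    have h2 := a8_add (P - P0) P0
    rw [sub_add_cancel] at h2
    linarith
  have hnP : nsq P ≤ (a8_N P0 + 1) ^ 2 := by
    rw [← a8_sq]
    exact pow_le_pow_left₀ (a8_nonneg P) hNP 2
  obtain ⟨h2, h3⟩ := h1 P g hP hnP (hg.trans_le (min_le_left _ _))
  refine ⟨h2, a8_lt' ?_⟩
  have h4 : a8_N (mvP P g - P) < s := a8_lt hs0 h3
  set Q := mvP P g with hQ
  have hkinv : k * k⁻¹ = 1 := Matrix.mul_nonsing_inv k (by rw [hk]; exact isUnit_one)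
  have h5 : k * Q * k⁻¹ - P0 = ((k - 1) * Q - Q * (k - 1)) * k⁻¹ + ((Q - P) + (P - P0)) := by
    have h6 : ((k - 1) * Q - Q * (k - 1)) * k⁻¹ = k * Q * k⁻¹ - Q * (k * k⁻¹) := by
      have h60 : (k - 1) * Q - Q * (k - 1) = k * Q - Q * k := by
        rw [sub_mul, one_mul, mul_sub, mul_one]
        abel
      rw [h60, sub_mul, mul_assoc Q k]
    rw [h6, hkinv, mul_one]
    abel
  have hNQ : a8_N Q ≤ a8_N P0 + 2 := by
    have h6 := a8_add (Q - P) P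
    rw [sub_add_cancel] at h6
    linarith
  have hNk : a8_N k⁻¹ ≤ 3 := by
    have h6 : a8_N k⁻¹ = a8_N k := by
      unfold a8_N
      rw [nsq_inv hk]
    have h7 := a8_add (k - 1) 1
    rw [sub_add_cancel] at h7
    have := a8_one
    rw [h6]
    linarith
  have h7 : a8_N (((k - 1) * Q - Q * (k - 1)) * k⁻¹) < Real.sqrt ε / 3 := by
    have h8 : a8_N ((k - 1) * Q - Q * (k - 1)) ≤ 2 * (a8_N (k - 1) * (a8_N P0 + 2)) := by
      have h9 := a8_sub ((k - 1) * Q) (Q * (k - 1))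
      have h10 := a8_mul (k - 1) Q
      have h11 := a8_mul Q (k - 1)
      have h12 := mul_le_mul_of_nonneg_left hNQ (a8_nonneg (k - 1))
      rw [mul_comm (a8_N Q)] at h11
      linarith
    calc a8_N (((k - 1) * Q - Q * (k - 1)) * k⁻¹) ≤
          a8_N ((k - 1) * Q - Q * (k - 1)) * a8_N k⁻¹ := a8_mul _ _
      _ ≤ 2 * (a8_N (k - 1) * (a8_N P0 + 2)) * 3 :=
          mul_le_mul h8 hNk (a8_nonneg _) (by
            have := a8_nonneg (k - 1)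
            positivity)
      _ = 6 * (a8_N P0 + 2) * a8_N (k - 1) := by ring
      _ < 6 * (a8_N P0 + 2) * (Real.sqrt ε / (18 * (a8_N P0 + 2))) :=
          mul_lt_mul_of_pos_left (hk1.trans_le ht2) (by positivity)
      _ = Real.sqrt ε / 3 := by
          field_simp
          norm_num
  rw [h5]
  have h8 := a8_add (((k - 1) * Q - Q * (k - 1)) * k⁻¹) ((Q - P) + (P - P0))
  have h9 := a8_add (Q - P) (P - P0)
  linarith

/-- `|q_{P'}(φ) - q_P(φ)| ≤ |P' - P| |φ|²`. -/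
theorem norm_qP_sub_le (P P' : Mat) (φ : V) :
    ‖qP P' φ - qP P φ‖ ≤ Real.sqrt (nsq (P' - P)) * vsq φ := by
  have h1 : qP P' φ - qP P φ = qP (P' - P) φ := by
    unfold qP
    rw [sub_mul, Matrix.trace_sub]
  rw [h1]
  have h2 := norm_qP_sq_le (P' - P) φ
  have h3 : nsq (P' - P) * vsq φ ^ 2 = (Real.sqrt (nsq (P' - P)) * vsq φ) ^ 2 := by
    rw [mul_pow, Real.sq_sqrt (nsq_nonneg _)]
  rw [h3] at h2
  exact (pow_le_pow_iff_left₀ (norm_nonneg _)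
    (mul_nonneg (Real.sqrt_nonneg _) (vsq_nonneg φ)) two_ne_zero).1 h2

/-- uniform continuity of `P ↦ nsq (k P k⁻¹)` for `k` in bounded sets. -/
theorem nsq_conj_near (C : ℝ) {ε : ℝ} (hε : 0 < ε) :
    ∃ δ : ℝ, 0 < δ ∧ ∀ P P' k : Mat, k.det = 1 → nsq k ≤ C → nsq P ≤ C → nsq (P' - P) < δ →
      |nsq (k * P' * k⁻¹) - nsq (k * P * k⁻¹)| < ε := by
  obtain ⟨R, hR1, hRC⟩ : ∃ R : ℝ, 1 ≤ R ∧ C ≤ R ^ 2 := by
    refine ⟨max 1 (Real.sqrt (max C 0)), le_max_left _ _, ?_⟩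
    calc C ≤ max C 0 := le_max_left _ _
      _ = Real.sqrt (max C 0) ^ 2 := (Real.sq_sqrt (le_max_right _ _)).symm
      _ ≤ _ := pow_le_pow_left₀ (Real.sqrt_nonneg _) (le_max_right _ _) 2
  have hN : ∀ X : Mat, nsq X ≤ C → a8_N X ≤ R := by
    intro X hX
    have h1 : a8_N X ^ 2 ≤ R ^ 2 := by
      rw [a8_sq]
      exact hX.trans hRC
    exact (pow_le_pow_iff_left₀ (a8_nonneg X) (by linarith) two_ne_zero).1 h1
  obtain ⟨η, hη0, hη1, hη2⟩ : ∃ η : ℝ, 0 < η ∧ η ≤ 1 ∧ η ≤ ε / (4 * R ^ 5) :=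
    ⟨min 1 (ε / (4 * R ^ 5)), lt_min one_pos (by positivity), min_le_left _ _, min_le_right _ _⟩
  refine ⟨η ^ 2, by positivity, fun P P' k hk hkC hPC hd => ?_⟩
  have hX := a8_lt hη0 hd
  have hX0 := a8_nonneg (P' - P)
  have hkR := hN k hkC
  have hPR := hN P hPC
  have hk0 := a8_nonneg k
  have hinv : a8_N k⁻¹ = a8_N k := by
    unfold a8_N
    rw [nsq_inv hk]
  have hconj : ∀ X : Mat, a8_N (k * X * k⁻¹) ≤ R ^ 2 * a8_N X := by
    intro X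
    calc a8_N (k * X * k⁻¹) ≤ a8_N (k * X) * a8_N k⁻¹ := a8_mul _ _
      _ ≤ (a8_N k * a8_N X) * a8_N k := by
          rw [hinv]
          exact mul_le_mul_of_nonneg_right (a8_mul k X) hk0
      _ = (a8_N k * a8_N k) * a8_N X := by ring
      _ ≤ (R * R) * a8_N X :=
          mul_le_mul_of_nonneg_right (mul_le_mul hkR hkR hk0 (by linarith)) (a8_nonneg X)
      _ = R ^ 2 * a8_N X := by ring
  have hB := hconj P
  have hD := hconj (P' - P)
  have hsub : k * (P' - P) * k⁻¹ = k * P' * k⁻¹ - k * P * k⁻¹ := by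
    rw [mul_sub, sub_mul]
  rw [hsub] at hD
  set A := k * P' * k⁻¹ with hAdef
  set B := k * P * k⁻¹ with hBdef
  have hA1 : a8_N A ≤ a8_N B + a8_N (A - B) := by
    have h1 := a8_add B (A - B)
    rw [add_sub_cancel] at h1
    exact h1
  have hB1 : a8_N B ≤ a8_N A + a8_N (A - B) := by
    have h1 := a8_sub A (A - B)
    rw [sub_sub_cancel] at h1
    exact h1
  rw [← a8_sq A, ← a8_sq B]
  have hA0 := a8_nonneg A
  have hB0 := a8_nonneg B
  have hD0 := a8_nonneg (A - B)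
  have hP0 := a8_nonneg P
  have hR0 : 0 < R := by linarith
  have hBR : a8_N B ≤ R ^ 3 := by
    calc a8_N B ≤ R ^ 2 * a8_N P := hB
      _ ≤ R ^ 2 * R := mul_le_mul_of_nonneg_left hPR (by positivity)
      _ = R ^ 3 := by ring
  have hDη : a8_N (A - B) ≤ R ^ 2 * η :=
    hD.trans (mul_le_mul_of_nonneg_left hX.le (by positivity))
  have hDR : a8_N (A - B) ≤ R ^ 3 := by
    refine hDη.trans ?_
    have : R ^ 2 * η ≤ R ^ 2 * R := mul_le_mul_of_nonneg_left (hη1.trans hR1) (by positivity)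
    linarith [show R ^ 3 = R ^ 2 * R by ring]
  have hfac : |a8_N A ^ 2 - a8_N B ^ 2| = |a8_N A - a8_N B| * (a8_N A + a8_N B) := by
    rw [show a8_N A ^ 2 - a8_N B ^ 2 = (a8_N A - a8_N B) * (a8_N A + a8_N B) by ring, abs_mul,
      abs_of_nonneg (by linarith : 0 ≤ a8_N A + a8_N B)]
  rw [hfac]
  have h1 : |a8_N A - a8_N B| ≤ R ^ 2 * η := by
    rw [abs_le]
    constructor <;> linarith
  have h2 : a8_N A + a8_N B ≤ 3 * R ^ 3 := by linarith
  have h3 : |a8_N A - a8_N B| * (a8_N A + a8_N B) ≤ R ^ 2 * η * (3 * R ^ 3) :=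
    mul_le_mul h1 h2 (by linarith) (by positivity)
  have h4 : R ^ 2 * η * (3 * R ^ 3) ≤ 3 / 4 * ε := by
    calc R ^ 2 * η * (3 * R ^ 3) = 3 * R ^ 5 * η := by ring
      _ ≤ 3 * R ^ 5 * (ε / (4 * R ^ 5)) := mul_le_mul_of_nonneg_left hη2 (by positivity)
      _ = 3 / 4 * ε := by field_simp
  linarith

end HRP
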