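import Pool.Agent.HRP.Defs

/-!
# HRP-B2 : the functions `FF` and `GG`; a convexity consequence

`FF m = (m - 1/(4m))²`, strictly increasing and continuous on `[1/2, ∞)` (`m ↦ m - 1/(4m)` is
increasing and `≥ 0` there); `GG c = (√c + √(c+1))/2` is the inverse: with `x = √c`,
`m - 1/(4m) = x` iff `4m² - 4xm - 1 = 0` iff `m = (x + √(x²+1))/2` (for `m > 0`).
-/

namespace HRP

open Set Filter Topology

theorem FF_nonneg (m : ℝ) : 0 ≤ FF m := by
  exact sq_nonneg _

theorem b2_nonneg {a : ℝ} (ha : 1 / 2 ≤ a) : 0 ≤ a - 1 / (4 * a) := by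
  have ha0 : 0 < a := by linarith
  have h : 1 / (4 * a) ≤ a := by
    rw [div_le_iff₀ (by positivity)]
    nlinarith
  linarith

theorem b2_pos {a : ℝ} (ha : 1 / 2 < a) : 0 < a - 1 / (4 * a) := by
  have ha0 : 0 < a := by linarith
  have h : 1 / (4 * a) < a := by
    rw [div_lt_iff₀ (by positivity)]
    nlinarith
  linarith

theorem b2_succ {m : ℝ} (hm : 0 < m) : (m - 1 / (4 * m)) ^ 2 + 1 = (m + 1 / (4 * m)) ^ 2 := by
  field_simp
  ring

theorem FF_mono {a b : ℝ} (ha : 1 / 2 ≤ a) (hab : a ≤ b) : FF a ≤ FF b := by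
  unfold FF
  have ha0 : 0 < a := by linarith
  have hb0 : 0 < b := by linarith
  have h1 : 1 / (4 * b) ≤ 1 / (4 * a) := one_div_le_one_div_of_le (by positivity) (by linarith)
  exact pow_le_pow_left₀ (b2_nonneg ha) (by linarith) 2

theorem FF_pos {m : ℝ} (hm : 1 / 2 < m) : 0 < FF m := by
  unfold FF
  exact pow_pos (b2_pos hm) 2

theorem half_lt_of_FF_pos {m : ℝ} (hm : 1 / 2 ≤ m) (h : 0 < FF m) : 1 / 2 < m := by
  rcases eq_or_lt_of_le hm with h1 | h1
  · exfalso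
    rw [← h1] at h
    unfold FF at h
    norm_num at h
  · exact h1

theorem GG_FF {m : ℝ} (hm : 1 / 2 ≤ m) : GG (FF m) = m := by
  have hm0 : 0 < m := by linarith
  unfold GG FF
  rw [b2_succ hm0, Real.sqrt_sq (b2_nonneg hm), Real.sqrt_sq (by positivity)]
  ring

theorem FF_GG {c : ℝ} (hc : 0 ≤ c) : FF (GG c) = c := by
  have hx := Real.sq_sqrt hc
  have hy := Real.sq_sqrt (show (0 : ℝ) ≤ c + 1 by linarith)
  have hx0 := Real.sqrt_nonneg c
  have hy0 : 0 < Real.sqrt (c + 1) := Real.sqrt_pos.2 (by linarith)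
  unfold FF GG
  obtain ⟨x, hxx⟩ : ∃ x, x = Real.sqrt c := ⟨_, rfl⟩
  obtain ⟨y, hyy⟩ : ∃ y, y = Real.sqrt (c + 1) := ⟨_, rfl⟩
  rw [← hxx] at hx hx0 ⊢
  rw [← hyy] at hy hy0 ⊢
  have hs : 0 < x + y := by linarith
  have h1 : 1 / (4 * ((x + y) / 2)) = (y - x) / 2 := by
    rw [div_eq_iff (by positivity)]
    nlinarith
  rw [h1, ← hx]
  ring

theorem half_le_GG {c : ℝ} (hc : 0 ≤ c) : 1 / 2 ≤ GG c := by
  unfold GG
  have h1 := Real.sqrt_nonneg c
  have h2 : 1 ≤ Real.sqrt (c + 1) := by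
    rw [Real.one_le_sqrt]
    linarith
  linarith

theorem half_lt_GG {c : ℝ} (hc : 0 < c) : 1 / 2 < GG c := by
  unfold GG
  have h1 := Real.sqrt_pos.2 hc
  have h2 : 1 ≤ Real.sqrt (c + 1) := by
    rw [Real.one_le_sqrt]
    linarith
  linarith

theorem GG_mono {a b : ℝ} (hab : a ≤ b) : GG a ≤ GG b := by
  unfold GG
  have h1 := Real.sqrt_le_sqrt hab
  have h2 := Real.sqrt_le_sqrt (show a + 1 ≤ b + 1 by linarith)
  linarith

theorem continuous_GG : Continuous GG := by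
  unfold GG
  fun_prop

theorem continuousOn_FF : ContinuousOn FF (Ici (1 / 2)) := by
  unfold FF
  intro x hx
  have hx' : (1 : ℝ) / 2 ≤ x := hx
  have hx0 : 4 * x ≠ 0 := by
    have : 0 < x := by linarith
    positivity
  apply ContinuousAt.continuousWithinAt
  exact (continuousAt_id.sub (continuousAt_const.div (continuousAt_const.mul continuousAt_id) hx0)).pow 2

/-- `1 + FF M = 1/2 + M² + 1/(16 M²)` -/
theorem one_add_FF {M : ℝ} (hM : 0 < M) : 1 + FF M = 1 / 2 + M ^ 2 + (1 / (4 * M)) ^ 2 := by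
  unfold FF
  field_simp
  ring

/-- A convex function `w` on `ℝ` with `w 0 ≤ a` and `a ≤ w r`, `a ≤ w (-r)` (`r > 0`) is `≥ a`
outside `(-r, r)`. -/
theorem convex_outside {w : ℝ → ℝ} (hw : ConvexOn ℝ univ w) {a r : ℝ} (hr : 0 < r) (h0 : w 0 ≤ a)
    (h1 : a ≤ w r) (h2 : a ≤ w (-r)) {s : ℝ} (hs : r ≤ |s|) : a ≤ w s := by
  have key : ∀ t : ℝ, t ≠ 0 → 0 < r / |t| → r / |t| ≤ 1 → a ≤ w (r / |t| * t) → a ≤ w t := by
    intro t ht h3 h4 h5
    have h6 := hw.2 (mem_univ (0 : ℝ)) (mem_univ t) (show 0 ≤ 1 - r / |t| by linarith)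
      (show 0 ≤ r / |t| from h3.le) (by ring)
    simp only [smul_eq_mul, mul_zero, zero_add] at h6
    by_contra hcon
    push Not at hcon
    have h7 : (1 - r / |t|) * w 0 ≤ (1 - r / |t|) * a := mul_le_mul_of_nonneg_left h0 (by linarith)
    have h8 : r / |t| * w t < r / |t| * a := mul_lt_mul_of_pos_left hcon h3
    nlinarith
  have hs0 : 0 < |s| := lt_of_lt_of_le hr hs
  have hs1 : s ≠ 0 := abs_pos.1 hs0
  apply key s hs1 (by positivity) ((div_le_one hs0).2 hs)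
  rcases lt_or_gt_of_ne hs1 with h3 | h3
  · have : r / |s| * s = -r := by
      rw [abs_of_neg h3]
      field_simp
    rw [this]
    exact h2
  · have : r / |s| * s = r := by
      rw [abs_of_pos h3]
      field_simp
    rw [this]
    exact h1

end HRP
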