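import Pool.Agent.HRP.E1
import Pool.Agent.HRP.A7
import Pool.Agent.HRP.A8
import Pool.Agent.HRP.B2

/-!
# HRP-E3 : lower bound (5.4), uniform version

`P0` in normal form at `ψ0`, `M0 > 1/2`, `c > 0`. There is `δ > 0`: if `P` is a plane with
`nsq (P - P0) < δ`, visible from `y` in the frame `k` in a direction `ψ` with `vsq (ψ - ψ0) < δ`,
margin `c`, then for all `g, k₁` with `nsq (g - 1), nsq (k₁ - 1) < δ`, `det = 1`: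
`nsq (k₁ P^g k₁⁻¹) - 1 ≤ vv (e (y.g)) (k₁ k)`.

Proof. `P' = k₁ P^g k₁⁻¹` is a plane close to `P0` (`conj_mvP_near`, `isPl_mvP`, `isPl_conj`), so
(`nrm_near`) `Nrm P' ψ' M'` with `ψ'` close to `ψ0`. `φ = k₁⁻¹ ψ'` is close to `ψ0`, hence
`vsq (φ - ψ) < c` (choose `δ` small with respect to `c`; `vsq ψ0 = 1`). By `qP_conj`
`M' = |q_{P'}(ψ')| = |q_{P^g}(φ)| ≤ e (y.g) (k⁻¹ φ) = e (y.g) ((k₁ k)⁻¹ ψ') ≤ mx (e (y.g)) (k₁ k)`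
(`EFun.le_mx`, `vsq ψ' = 1`). `nsq P' - 1 = FF M' ≤ FF (mx …) = vv …` (`Nrm.nsq_eq`, `FF_mono`,
`1/2 ≤ M'`).
-/

namespace HRP

open Matrix

variable {E : Type*}

/-- for `det k = 1` the distance of `k⁻¹` to `1` is that of `k` -/
theorem e3_inv {k : Mat} (hk : k.det = 1) : nsq (k⁻¹ - 1) = nsq (k - 1) := by
  have h : k⁻¹ = !![k 1 1, -k 0 1; -k 1 0, k 0 0] := by
    rw [Matrix.inv_def, hk, Ring.inverse_one, one_smul, Matrix.adjugate_fin_two]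
  rw [h]
  unfold nsq
  simp only [Matrix.sub_apply, Matrix.of_apply, Matrix.cons_val', Matrix.cons_val_zero, Matrix.cons_val_one,
    Matrix.cons_val_fin_one, Matrix.one_apply_eq, Matrix.one_apply_ne (show (0 : Fin 2) ≠ 1 by decide),
    Matrix.one_apply_ne (show (1 : Fin 2) ≠ 0 by decide), sub_zero, Complex.normSq_neg]
  ring

theorem e3_near {c : ℝ} (hc : 0 < c) {k₁ : Mat} {ψ ψ' ψ0 : V} (hk₁ : k₁.det = 1) (h1 : nsq (k₁ - 1) < c / 16)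
    (h2 : vsq (ψ' - ψ0) < c / 16) (h3 : vsq (ψ - ψ0) < c / 16) (h4 : vsq ψ' = 1) :
    vsq (k₁⁻¹ *ᵥ ψ' - ψ) < c := by
  have e : k₁⁻¹ *ᵥ ψ' - ψ = ((k₁⁻¹ - 1) *ᵥ ψ' + (ψ' - ψ0)) + -(ψ - ψ0) := by
    rw [Matrix.sub_mulVec, Matrix.one_mulVec]
    abel
  have a1 := sqrt_vsq_add_le ((k₁⁻¹ - 1) *ᵥ ψ' + (ψ' - ψ0)) (-(ψ - ψ0))
  have a2 := sqrt_vsq_add_le ((k₁⁻¹ - 1) *ᵥ ψ') (ψ' - ψ0)
  rw [vsq_neg] at a1
  have b0 : vsq ((k₁⁻¹ - 1) *ᵥ ψ') ≤ nsq (k₁ - 1) := by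
    have := vsq_mulVec_le (k₁⁻¹ - 1) ψ'
    rwa [h4, mul_one, e3_inv hk₁] at this
  have hs : ∀ x : ℝ, x < c / 16 → Real.sqrt x ≤ Real.sqrt c / 4 := by
    intro x hx
    have h5 : Real.sqrt c / 4 = Real.sqrt (c / 16) := by
      rw [Real.sqrt_div hc.le]
      congr 1
      rw [show (16 : ℝ) = 4 ^ 2 by norm_num, Real.sqrt_sq (by norm_num)]
    rw [h5]
    exact Real.sqrt_le_sqrt hx.le
  have b1 := hs _ (lt_of_le_of_lt b0 h1)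
  have b2 := hs _ h2
  have b3 := hs _ h3
  rw [← e] at a1
  have hsc : 0 < Real.sqrt c := Real.sqrt_pos.2 hc
  have b4 : Real.sqrt (vsq (k₁⁻¹ *ᵥ ψ' - ψ)) < Real.sqrt c := by linarith
  exact (Real.sqrt_lt_sqrt_iff (vsq_nonneg _)).1 b4

theorem ESys.lower (S : ESys E) {P0 : Mat} {ψ0 : V} {M0 : ℝ} (h : Nrm P0 ψ0 M0) (hM : 1 / 2 < M0)
    {c : ℝ} (hc : 0 < c) :
    ∃ δ : ℝ, 0 < δ ∧ ∀ (y : E) (k P : Mat) (ψ : V), k.det = 1 → IsPl P → nsq (P - P0) < δ →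
      vsq (ψ - ψ0) < δ → S.Vis y k P ψ c → ∀ g k₁ : Mat, g.det = 1 → k₁.det = 1 →
      nsq (g - 1) < δ → nsq (k₁ - 1) < δ →
      nsq (k₁ * mvP P g * k₁⁻¹) - 1 ≤ vv (S.e (S.mv y (k⁻¹ * g * k))) (k₁ * k) := by
  have hc16 : 0 < c / 16 := by positivity
  obtain ⟨ε1, hε1, hn⟩ := nrm_near h hM hc16
  obtain ⟨δ1, hδ1, hm⟩ := conj_mvP_near P0 hε1
  refine ⟨min δ1 (c / 16), lt_min hδ1 hc16, ?_⟩
  intro y k P ψ hk hP hPP hψ hvis g k₁ hg hk₁ hgn hkn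
  rw [lt_min_iff] at hPP hψ hgn hkn
  obtain ⟨htr, hnear⟩ := hm P g k₁ hP hPP.1 hgn.1 hk₁ hkn.1
  have hpl : IsPl (k₁ * mvP P g * k₁⁻¹) := isPl_conj (isPl_mvP hP htr) k₁ hk₁
  obtain ⟨ψ', M', hN, hψ'⟩ := hn _ hpl hnear
  have hφ := e3_near hc hk₁ hkn.2 hψ' hψ.2 hN.unit
  have hunit : IsUnit k₁.det := by
    rw [hk₁]
    exact isUnit_one
  have hback : k₁ *ᵥ (k₁⁻¹ *ᵥ ψ') = ψ' := by
    rw [Matrix.mulVec_mulVec, Matrix.mul_nonsing_inv k₁ hunit, Matrix.one_mulVec]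
  have hq : ‖qP (mvP P g) (k₁⁻¹ *ᵥ ψ')‖ = M' := by
    have h1 := qP_conj (mvP P g) k₁ hk₁ (k₁⁻¹ *ᵥ ψ')
    rw [hback] at h1
    rw [← h1, hN.norm_qP]
  have hv := hvis g (k₁⁻¹ *ᵥ ψ') hg (lt_trans hgn.2 (by linarith)) hφ
  rw [hq] at hv
  have hdet : (k₁ * k).det = 1 := by rw [Matrix.det_mul, hk₁, hk, mul_one]
  have hmx := (S.efun (S.mv y (k⁻¹ * g * k))).le_mx hdet ψ'
  rw [hN.unit, mul_one] at hmx
  have hrw : (k₁ * k)⁻¹ *ᵥ ψ' = k⁻¹ *ᵥ (k₁⁻¹ *ᵥ ψ') := by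
    rw [Matrix.mulVec_mulVec, Matrix.mul_inv_rev]
  rw [hrw] at hmx
  have hM' : M' ≤ mx (S.e (S.mv y (k⁻¹ * g * k))) (k₁ * k) := hv.trans hmx
  have hfin := FF_mono hN.half hM'
  rw [hN.nsq_eq]
  unfold vv
  linarith

end HRP
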