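import Pool.Agent.HRP.E2
import Pool.Agent.HRP.E3
import Pool.Agent.HRP.A9
import Pool.Agent.HRP.B1

/-!
# HRP-E4 : convexity of `v` along geodesics (5.5)

`w s = vv (S.e y) (Dg s * k)`, `e y` not identically zero.
* continuous: `EFun.continuous_mx_Dg`, `mx ≥ 1/2` (`half_le_mx`), `continuousOn_FF`.
* `Sup2 w`: let `w s₀ > 0`, `k' = Dg s₀ * k`, `m = mx (e y) k'`, `m > 1/2` (`half_lt_of_FF_pos`).
  `exists_contact`: `Nrm P ψ m`, `Vis y k' P ψ c`. `ESys.lower` with `P0 = P`, `ψ0 = ψ`, `g = 1`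
  (`mvP_one`, `mv_one`), `k₁ = Dg t`, `t = s - s₀` small (`continuous_Dg`, `Dg_zero`):
  `nsq (Dg t P (Dg t)⁻¹) - 1 ≤ vv (e y) (Dg t * k') = w s` (`Dg_add`), and by `nsq_Dg_conj` the left
  side is `A - 1 + B e^{2t} + C e^{-2t}`, `B = |P01|²`, `C = |P10|²`, `A = |P00|² + |P11|²`,
  `w s₀ = FF m = nsq P - 1 = A + B + C - 1` (`Nrm.nsq_eq`) `≤ 2 (B + C)` (`plane_ineq`).
-/

namespace HRP

open Matrix Set

variable {E : Type*}

theorem e4_det {k : Mat} (hk : k.det = 1) (s : ℝ) : (Dg s * k).det = 1 := by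
  rw [Matrix.det_mul, det_Dg, hk, mul_one]

theorem ESys.continuous_vv (S : ESys E) {y : E} (hy : ∃ ψ, S.e y ψ ≠ 0) {k : Mat}
    (hk : k.det = 1) : Continuous fun s : ℝ => vv (S.e y) (Dg s * k) := by
  have h1 : Continuous fun s : ℝ => mx (S.e y) (Dg s * k) := (S.efun y).continuous_mx_Dg hk
  exact continuousOn_FF.comp_continuous h1 fun s => S.half_le_mx hy (e4_det hk s)

theorem ESys.sup2_vv (S : ESys E) {y : E} (hy : ∃ ψ, S.e y ψ ≠ 0) {k : Mat}
    (hk : k.det = 1) : Sup2 fun s : ℝ => vv (S.e y) (Dg s * k) := by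
  intro s₀ h0
  have hk' : (Dg s₀ * k).det = 1 := e4_det hk s₀
  have hm := S.half_le_mx hy hk'
  have hm' : 1 / 2 < mx (S.e y) (Dg s₀ * k) := half_lt_of_FF_pos hm h0
  obtain ⟨P, ψ, c, hc, hN, hV⟩ := S.exists_contact hk' (by linarith)
  obtain ⟨δ, hδ, hlow⟩ := S.lower hN hm' hc
  have hw : vv (S.e y) (Dg s₀ * k) = nsq P - 1 := by
    rw [hN.nsq_eq]
    show FF _ = _
    ring
  have hnsq : nsq P = Complex.normSq (P 0 0) + Complex.normSq (P 0 1) + Complex.normSq (P 1 0) +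
    Complex.normSq (P 1 1) := rfl
  have hpl := plane_ineq hN.pl
  refine ⟨Complex.normSq (P 0 1), Complex.normSq (P 1 0), Complex.normSq_nonneg _,
    Complex.normSq_nonneg _, ?_, ?_⟩
  · show vv (S.e y) (Dg s₀ * k) ≤ _
    rw [hw, hnsq]
    linarith
  · have hcont : Continuous fun s : ℝ => nsq (Dg (s - s₀) - 1) :=
      continuous_nsq.comp ((continuous_Dg.comp (continuous_id.sub continuous_const)).sub
        continuous_const)
    have hz : nsq (Dg (s₀ - s₀) - 1) < δ := by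
      rw [sub_self, Dg_zero, sub_self]
      have : nsq (0 : Mat) = 0 := by simp [nsq]
      rw [this]
      exact hδ
    have hev := hcont.continuousAt.eventually_lt continuousAt_const hz
    filter_upwards [hev] with s hs
    have hPP : nsq (P - P) < δ := by
      rw [sub_self]
      have : nsq (0 : Mat) = 0 := by simp [nsq]
      rw [this]
      exact hδ
    have hψψ : vsq (ψ - ψ) < δ := by
      rw [sub_self]
      have : vsq (0 : V) = 0 := by simp [vsq]
      rw [this]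
      exact hδ
    have h11 : nsq ((1 : Mat) - 1) < δ := by
      rw [sub_self]
      have : nsq (0 : Mat) = 0 := by simp [nsq]
      rw [this]
      exact hδ
    have key := hlow y (Dg s₀ * k) P ψ hk' hN.pl hPP hψψ hV 1 (Dg (s - s₀)) Matrix.det_one
      (det_Dg _) h11 hs
    have hinv : (Dg s₀ * k)⁻¹ * 1 * (Dg s₀ * k) = 1 := by
      rw [mul_one, Matrix.nonsing_inv_mul _ (by rw [hk']; exact isUnit_one)]
    have hmul : Dg (s - s₀) * (Dg s₀ * k) = Dg s * k := by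
      rw [← Matrix.mul_assoc, ← Dg_add, sub_add_cancel]
    rw [hinv, S.mv_one, mvP_one hN.pl, hmul, nsq_Dg_conj] at key
    show vv (S.e y) (Dg s₀ * k) + _ * _ + _ * _ ≤ _
    rw [hw, hnsq]
    refine le_trans (le_of_eq ?_) key
    ring

theorem ESys.convexOn_vv (S : ESys E) {y : E} (hy : ∃ ψ, S.e y ψ ≠ 0) {k : Mat}
    (hk : k.det = 1) : ConvexOn ℝ univ fun s : ℝ => vv (S.e y) (Dg s * k) :=
  convexOn_of_Sup2 (S.continuous_vv hy hk) (fun _ => FF_nonneg _) (S.sup2_vv hy hk)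

theorem ESys.exp_bound_vv (S : ESys E) {y : E} (hy : ∃ ψ, S.e y ψ ≠ 0) {k : Mat}
    (hk : k.det = 1) {L s : ℝ} (h1 : 0 ≤ s) (h2 : s ≤ L) :
    vv (S.e y) (Dg s * k) ≤
      vv (S.e y) k * Real.exp (-s) + vv (S.e y) (Dg L * k) * Real.exp (s - L) := by
  have h := exp_bound (S.continuous_vv hy hk) (fun _ => FF_nonneg _) (S.sup2_vv hy hk) h1 h2
  have h0 : Dg 0 * k = k := by rw [Dg_zero, one_mul]
  simp only [h0] at h
  exact h

end HRP
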