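import Pool.Agent.HRP.Defs

/-!
# HRP-A1 : elementary identities for `nil`, `qP`, planes

Proof: everything is an identity between `2 × 2` matrices; expand the entries (`Matrix.det_fin_two`,
`Matrix.trace_fin_two`, `Matrix.inv_def`/`Matrix.adjugate_fin_two`, `ext i j; fin_cases i <;>
fin_cases j`, `simp [Matrix.mul_apply, Fin.sum_univ_two]`, `ring`/`linear_combination`).
-/

namespace HRP

open Matrix

theorem a1_inv (k : Mat) (hk : k.det = 1) : k⁻¹ = !![k 1 1, -k 0 1; -k 1 0, k 0 0] := by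
  rw [Matrix.inv_def, hk, Ring.inverse_one, one_smul, Matrix.adjugate_fin_two]

theorem a1_trace_conj (P k : Mat) (hk : k.det = 1) : (k * P * k⁻¹).trace = P.trace := by
  have hk1 : k⁻¹ * k = 1 := Matrix.nonsing_inv_mul k (by rw [hk]; exact isUnit_one)
  rw [Matrix.trace_mul_comm, ← Matrix.mul_assoc, hk1, Matrix.one_mul]

theorem qP_formula (P : Mat) (ψ : V) :
    qP P ψ = P 1 0 * ψ 0 ^ 2 + (P 1 1 - P 0 0) * (ψ 0 * ψ 1) - P 0 1 * ψ 1 ^ 2 := by
  simp only [qP, nil, Matrix.trace_fin_two, Matrix.mul_apply, Fin.sum_univ_two, Matrix.of_apply,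
    Matrix.cons_val', Matrix.cons_val_zero, Matrix.cons_val_one, Matrix.cons_val_fin_one]
  ring

theorem nil_smul (c : ℂ) (ψ : V) : nil (c • ψ) = c ^ 2 • nil ψ := by
  ext i j
  fin_cases i <;> fin_cases j <;> simp [nil] <;> ring

theorem nil_conj (k : Mat) (hk : k.det = 1) (ψ : V) : k * nil ψ * k⁻¹ = nil (k *ᵥ ψ) := by
  rw [a1_inv k hk]
  ext i j
  fin_cases i <;> fin_cases j <;>
    simp [nil, Matrix.mul_apply, Fin.sum_univ_two, Matrix.mulVec, dotProduct] <;> ring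

theorem nil_mul_nil (ψ : V) : nil ψ * nil ψ = 0 := by
  ext i j
  fin_cases i <;> fin_cases j <;> simp [nil, Matrix.mul_apply, Fin.sum_univ_two] <;> ring

theorem det_one_add_nil (z : ℂ) (ψ : V) : (1 + z • nil ψ).det = 1 := by
  rw [Matrix.det_fin_two]
  simp [nil]
  ring

theorem qP_smul (P : Mat) (c : ℂ) (ψ : V) : qP P (c • ψ) = c ^ 2 * qP P ψ := by
  rw [qP_formula, qP_formula]
  simp only [Pi.smul_apply, smul_eq_mul]
  ring

theorem norm_qP_smul (P : Mat) (c : ℂ) (ψ : V) : ‖qP P (c • ψ)‖ = Complex.normSq c * ‖qP P ψ‖ := by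
  rw [qP_smul, norm_mul, norm_pow, Complex.normSq_eq_norm_sq]

theorem qP_conj (P k : Mat) (hk : k.det = 1) (ψ : V) : qP (k * P * k⁻¹) (k *ᵥ ψ) = qP P ψ := by
  have hk1 : k⁻¹ * k = 1 := Matrix.nonsing_inv_mul k (by rw [hk]; exact isUnit_one)
  rw [qP, ← nil_conj k hk ψ, qP]
  have h1 : k * P * k⁻¹ * (k * nil ψ * k⁻¹) = k * (P * nil ψ) * k⁻¹ := by
    calc k * P * k⁻¹ * (k * nil ψ * k⁻¹) = k * P * (k⁻¹ * k) * nil ψ * k⁻¹ := by
          simp only [Matrix.mul_assoc]
      _ = k * (P * nil ψ) * k⁻¹ := by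
          rw [hk1, Matrix.mul_one]
          simp only [Matrix.mul_assoc]
  rw [h1, a1_trace_conj _ k hk]

theorem isPl_conj {P : Mat} (hP : IsPl P) (k : Mat) (hk : k.det = 1) : IsPl (k * P * k⁻¹) := by
  refine ⟨?_, ?_⟩
  · rw [a1_trace_conj _ k hk, hP.1]
  · rw [Matrix.det_mul, Matrix.det_mul, hP.2]
    ring

theorem isPl_mvP {P g : Mat} (hP : IsPl P) (h : (P * g).trace ≠ 0) : IsPl (mvP P g) := by
  refine ⟨?_, ?_⟩
  · rw [mvP, Matrix.trace_smul, smul_eq_mul, inv_mul_cancel₀ h]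
  · rw [mvP, Matrix.det_smul, Matrix.det_mul, hP.2]
    ring

theorem mvP_one {P : Mat} (hP : IsPl P) : mvP P 1 = P := by
  rw [mvP, Matrix.mul_one, hP.1, inv_one, one_smul]

theorem mvP_conj (P g k : Mat) (hk : k.det = 1) :
    k * mvP P g * k⁻¹ = mvP (k * P * k⁻¹) (k * g * k⁻¹) := by
  have hk1 : k⁻¹ * k = 1 := Matrix.nonsing_inv_mul k (by rw [hk]; exact isUnit_one)
  have h1 : k * P * k⁻¹ * (k * g * k⁻¹) = k * (P * g) * k⁻¹ := by
    calc k * P * k⁻¹ * (k * g * k⁻¹) = k * P * (k⁻¹ * k) * g * k⁻¹ := by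
          simp only [Matrix.mul_assoc]
      _ = k * (P * g) * k⁻¹ := by
          rw [hk1, Matrix.mul_one]
          simp only [Matrix.mul_assoc]
  rw [mvP, mvP, h1, a1_trace_conj _ k hk, Matrix.mul_smul, Matrix.smul_mul]

theorem mvP_mvP {P g g' : Mat} (h : (P * g).trace ≠ 0) : mvP (mvP P g) g' = mvP P (g * g') := by
  have h1 : mvP P g * g' = ((P * g).trace)⁻¹ • (P * (g * g')) := by
    rw [mvP, Matrix.smul_mul, Matrix.mul_assoc]
  rw [mvP, h1, Matrix.trace_smul, smul_eq_mul, smul_smul, mvP]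
  congr 1
  rw [mul_inv, inv_inv]
  field_simp

/-- `tr (P^g Q^g) = 1 - (1 - tr (P Q)) / (tr (P g) tr (Q g))` for `det g = 1`.
Proof: for rank one matrices `P = a c^T`, `Q = b d^T` this is the multiplicativity of `2 × 2`
determinants; as an identity in the entries: with `det P = det Q = 0`,
`tr (P g) tr (Q g) - tr (P g Q g) = (tr P tr Q - tr (P Q)) det g`. -/
theorem trace_mvP_mul {P Q g : Mat} (hP : IsPl P) (hQ : IsPl Q) (hg : g.det = 1)
    (h1 : (P * g).trace ≠ 0) (h2 : (Q * g).trace ≠ 0) :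
    (mvP P g * mvP Q g).trace = 1 - (1 - (P * Q).trace) / ((P * g).trace * (Q * g).trace) := by
  have h3 : (P * g).trace * (Q * g).trace - (P * g * (Q * g)).trace
      = P.trace * Q.trace - (P * Q).trace := by
    have hg' := hg
    rw [Matrix.det_fin_two] at hg'
    simp only [Matrix.trace_fin_two, Matrix.mul_apply, Fin.sum_univ_two]
    linear_combination ((P 0 0 + P 1 1) * (Q 0 0 + Q 1 1) - (P 0 0 * Q 0 0 + P 0 1 * Q 1 0
      + (P 1 0 * Q 0 1 + P 1 1 * Q 1 1))) * hg'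
  rw [hP.1, hQ.1] at h3
  have h4 : (mvP P g * mvP Q g).trace
      = (P * g * (Q * g)).trace / ((P * g).trace * (Q * g).trace) := by
    rw [mvP, mvP, Matrix.smul_mul, Matrix.mul_smul, smul_smul, Matrix.trace_smul, smul_eq_mul]
    field_simp
  rw [h4]
  have h5 : (P * g).trace * (Q * g).trace ≠ 0 := mul_ne_zero h1 h2
  rw [eq_sub_iff_add_eq, ← add_div, div_eq_one_iff_eq h5]
  linear_combination -h3

/-- some null direction is transverse to the plane `P` -/
theorem exists_qP_ne {P : Mat} (hP : IsPl P) : ∃ ψ : V, qP P ψ ≠ 0 := by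
  by_contra hcon
  push Not at hcon
  have h1 := hcon ![1, 0]
  have h2 := hcon ![0, 1]
  have h3 := hcon ![1, 1]
  rw [qP_formula] at h1 h2 h3
  simp only [Matrix.cons_val_zero, Matrix.cons_val_one] at h1 h2 h3
  have h10 : P 1 0 = 0 := by linear_combination h1
  have h01 : P 0 1 = 0 := by linear_combination -h2
  have h11 : P 1 1 = P 0 0 := by linear_combination h3 - h1 - h2
  have ht := hP.1
  have hd := hP.2
  rw [Matrix.trace_fin_two] at ht
  rw [Matrix.det_fin_two] at hd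
  rw [h11] at ht hd
  rw [h10, h01] at hd
  have h00 : P 0 0 = 0 := by
    have : P 0 0 * P 0 0 = 0 := by linear_combination hd
    exact mul_self_eq_zero.mp this
  rw [h00] at ht
  norm_num at ht

end HRP
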