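import Pool.Agent.HRP.A3
import Pool.Agent.HRP.A2

/-!
# HRP-A4 : Cartan decomposition of `SL(2,ℂ)`

Proof. `H = kᴴ k` is Hermitian and positive definite. It has an eigenvector over `ℂ`
(`Module.End.exists_eigenvalue`, or the quadratic formula, or `Matrix.IsHermitian` spectral
theorem); let `ψ` be a unit eigenvector, `u₂ = Un ψ` (`IsU` by `Un_isU`, `u₂ ψ = e₁`). Then
`H' = u₂ H u₂⁻¹` is Hermitian, `H' e₁ = λ e₁`, so `H' = diag (λ, μ)`, `λ, μ > 0` real, `λ μ = det H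
= 1`. Put `s = log λ`: `H' = (Dg s)²`. Put `u₁ = k u₂⁻¹ (Dg s)⁻¹`:
`u₁ᴴ u₁ = (Dg s)⁻¹ u₂ H u₂⁻¹ (Dg s)⁻¹ = 1`, `det u₁ = 1`, `k = u₁ (Dg s) u₂`.
-/

namespace HRP

open Matrix

theorem a4_Dg_conj (s : ℝ) : (Dg s)ᴴ = Dg s := by
  ext i j
  fin_cases i <;> fin_cases j <;>
    simp [Dg, Matrix.conjTranspose_apply, -Complex.ofReal_exp, Complex.conj_ofReal]

/-- a unit eigenvector -/
theorem a4_eigvec (H : Mat) : ∃ (ψ : V) (μ : ℂ), vsq ψ = 1 ∧ H *ᵥ ψ = μ • ψ := by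
  obtain ⟨μ, hμ⟩ := Module.End.exists_eigenvalue (Matrix.toLin' H)
  obtain ⟨v, hv⟩ := hμ.exists_hasEigenvector
  have h1 : H *ᵥ v = μ • v := by
    have := hv.apply_eq_smul
    rwa [Matrix.toLin'_apply] at this
  have hv0 : v ≠ 0 := hv.2
  have hq : 0 < vsq v := lt_of_le_of_ne (vsq_nonneg v) fun h => hv0 (vsq_eq_zero.1 h.symm)
  have hs : 0 < Real.sqrt (vsq v) := Real.sqrt_pos.2 hq
  refine ⟨(((Real.sqrt (vsq v))⁻¹ : ℝ) : ℂ) • v, μ, ?_, ?_⟩
  · rw [vsq_smul, Complex.normSq_ofReal]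
    have h2 : Real.sqrt (vsq v) * Real.sqrt (vsq v) = vsq v := Real.mul_self_sqrt hq.le
    field_simp
    nlinarith
  · rw [Matrix.mulVec_smul, h1, smul_comm]

theorem cartan {k : Mat} (hk : k.det = 1) :
    ∃ (u₁ u₂ : Mat) (s : ℝ), IsU u₁ ∧ IsU u₂ ∧ k = u₁ * Dg s * u₂ := by
  obtain ⟨ψ, μ, hψ, hH⟩ := a4_eigvec (kᴴ * k)
  have hu := Un_isU hψ
  have hmv := Un_mulVec hψ
  set u := Un ψ with hudef
  have huu : uᴴ * u = 1 := hu.1
  have huu' : u * uᴴ = 1 := mul_eq_one_comm.1 huu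
  have hdetu : (uᴴ).det = 1 := by
    rw [Matrix.det_conjTranspose, hu.2, star_one]
  set w : Mat := k * uᴴ with hw
  have hdetw : w.det = 1 := by
    rw [hw, Matrix.det_mul, hk, hdetu, one_mul]
  have hkw : k = w * u := by
    rw [hw, Matrix.mul_assoc, huu, Matrix.mul_one]
  have hback : uᴴ *ᵥ ![1, 0] = ψ := by
    rw [← hmv, Matrix.mulVec_mulVec, huu, Matrix.one_mulVec]
  -- the matrix `W = wᴴ w`
  have hW : (wᴴ * w) *ᵥ ![1, 0] = μ • ![1, 0] := by
    have h1 : wᴴ * w = u * (kᴴ * k) * uᴴ := by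
      rw [hw, Matrix.conjTranspose_mul, Matrix.conjTranspose_conjTranspose]
      simp only [Matrix.mul_assoc]
    rw [h1, ← Matrix.mulVec_mulVec, hback, ← Matrix.mulVec_mulVec, hH, Matrix.mulVec_smul, hmv]
  have hW10 : (wᴴ * w) 1 0 = 0 := by
    have := congrFun hW 1
    simpa [Matrix.mulVec, dotProduct, Fin.sum_univ_two] using this
  have hWh : (wᴴ * w)ᴴ = wᴴ * w := by
    rw [Matrix.conjTranspose_mul, Matrix.conjTranspose_conjTranspose]
  have hW01 : (wᴴ * w) 0 1 = 0 := by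
    have := congrFun (congrFun hWh 0) 1
    rw [Matrix.conjTranspose_apply, hW10, star_zero] at this
    exact this.symm
  set t : ℝ := Complex.normSq (w 0 0) + Complex.normSq (w 1 0) with ht
  have hW00 : (wᴴ * w) 0 0 = (t : ℂ) := by
    rw [Matrix.mul_apply, Fin.sum_univ_two, Matrix.conjTranspose_apply, Matrix.conjTranspose_apply,
      ht, Complex.ofReal_add, Complex.normSq_eq_conj_mul_self, Complex.normSq_eq_conj_mul_self]
    rfl
  have hdetW : (wᴴ * w).det = 1 := by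
    rw [Matrix.det_mul, Matrix.det_conjTranspose, hdetw, star_one, one_mul]
  have hprod : (t : ℂ) * (wᴴ * w) 1 1 = 1 := by
    rw [Matrix.det_fin_two, hW00, hW01, hW10] at hdetW
    linear_combination hdetW
  have ht0 : t ≠ 0 := by
    intro h
    rw [h, Complex.ofReal_zero, zero_mul] at hprod
    exact zero_ne_one hprod
  have htpos : 0 < t := lt_of_le_of_ne
    (by rw [ht]; exact add_nonneg (Complex.normSq_nonneg _) (Complex.normSq_nonneg _)) (Ne.symm ht0)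
  have hW11 : (wᴴ * w) 1 1 = ((t⁻¹ : ℝ) : ℂ) := by
    have h1 : (t : ℂ) ≠ 0 := by exact_mod_cast ht0
    rw [Complex.ofReal_inv]
    field_simp
    linear_combination hprod
  set s : ℝ := Real.log t with hs
  have he : Real.exp s = t := Real.exp_log htpos
  have hDD : wᴴ * w = Dg s * Dg s := by
    have e1 : Real.exp (s / 2) * Real.exp (s / 2) = t := by
      rw [← Real.exp_add, add_halves, he]
    have e2 : Real.exp (-(s / 2)) * Real.exp (-(s / 2)) = t⁻¹ := by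
      rw [← Real.exp_add, ← neg_add, add_halves, Real.exp_neg, he]
    have f1 : (Real.exp (s / 2) : ℂ) * (Real.exp (s / 2) : ℂ) = (t : ℂ) := by
      rw [← Complex.ofReal_mul, e1]
    have f2 : (Real.exp (-(s / 2)) : ℂ) * (Real.exp (-(s / 2)) : ℂ) = ((t⁻¹ : ℝ) : ℂ) := by
      rw [← Complex.ofReal_mul, e2]
    ext i j
    fin_cases i <;> fin_cases j
    · show (wᴴ * w) 0 0 = _
      rw [hW00, ← f1]
      simp [Dg, Matrix.mul_apply, Fin.sum_univ_two, -Complex.ofReal_exp]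
    · show (wᴴ * w) 0 1 = _
      rw [hW01]
      simp [Dg, Matrix.mul_apply, Fin.sum_univ_two, -Complex.ofReal_exp]
    · show (wᴴ * w) 1 0 = _
      rw [hW10]
      simp [Dg, Matrix.mul_apply, Fin.sum_univ_two, -Complex.ofReal_exp]
    · show (wᴴ * w) 1 1 = _
      rw [hW11, ← f2]
      simp [Dg, Matrix.mul_apply, Fin.sum_univ_two, -Complex.ofReal_exp]
  have hD1 : Dg (-s) * Dg s = 1 := by
    rw [← Dg_add, neg_add_cancel, Dg_zero]
  have hD2 : Dg s * Dg (-s) = 1 := by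
    rw [← Dg_add, add_neg_cancel, Dg_zero]
  refine ⟨w * Dg (-s), u, s, ⟨?_, ?_⟩, hu, ?_⟩
  · rw [Matrix.conjTranspose_mul, a4_Dg_conj]
    calc Dg (-s) * wᴴ * (w * Dg (-s)) = Dg (-s) * (wᴴ * w) * Dg (-s) := by
          simp only [Matrix.mul_assoc]
      _ = (Dg (-s) * Dg s) * (Dg s * Dg (-s)) := by
          rw [hDD]
          simp only [Matrix.mul_assoc]
      _ = 1 := by rw [hD1, hD2, one_mul]
  · rw [Matrix.det_mul, hdetw, det_Dg, one_mul]
  · rw [Matrix.mul_assoc w, hD1, Matrix.mul_one]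
    exact hkw

end HRP
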