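import Pool.Agent.HRP.A1
import Pool.Agent.HRP.A2
import Pool.Agent.HRP.A3

/-!
# HRP-A5 : a local maximum of `|q_P(φ)| / |φ|²` has the normal form

Statement `nrm_of_localMax`: `P` a plane, `ψ` a unit vector, `q_P(ψ) ≠ 0`, and
`|q_P(φ)| ≤ |q_P(ψ)| |φ|²` for all `φ` near `ψ`; then `Nrm P ψ |q_P(ψ)|`.

Proof. Let `Q = U P U⁻¹`, `U = Un ψ` (unitary, `U ψ = e₁`); `Q` is a plane (`isPl_conj`),
`q_P(φ) = q_Q(U φ)` (`qP_conj`). For small `z ∈ ℂ` apply the hypothesis with `φ = U⁻¹ (1, z)`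
(`vsq (φ - ψ) = |z|²`, `vsq φ = 1 + |z|²`), and `qP_formula`:
`|r + (Q11 - Q00) z - Q01 z²| ≤ |r| (1 + |z|²)`, `r = Q 1 0 = q_P(ψ) ≠ 0`. Put
`α = (Q11 - Q00)/r`, `β = -Q01/r`: `|1 + α z + β z²| ≤ 1 + |z|²` for `|z| < δ`.
(1) `α = 0`: otherwise `z = t ᾱ/|α|`, `t > 0` small: `1 + |α| t - |β| t² ≤ 1 + t²`, so
`|α| ≤ (1 + |β|) t` for all small `t`. (2) `|β| ≤ 1`: if `β ≠ 0` choose `z² = t² β̄/|β|` (a square
root exists in `ℂ`): `1 + |β| t² ≤ 1 + t²`. So `Q11 = Q00`, trace `1` gives `1/2, 1/2`, and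
`det Q = 0` gives `Q01 Q10 = 1/4`, `|Q10| = |r|`, `|Q01| = 1/(4|r|)`, and `|Q01| ≤ |r|` gives
`|r|² ≥ 1/4`, `|r| ≥ 1/2`.
-/

namespace HRP

open Matrix

theorem a5_ab {α β : ℂ} {δ : ℝ} (hδ : 0 < δ)
    (h : ∀ z : ℂ, Complex.normSq z < δ → ‖1 + α * z + β * z ^ 2‖ ≤ 1 + Complex.normSq z) :
    α = 0 ∧ ‖β‖ ≤ 1 := by
  have hα : α = 0 := by
    by_contra hne
    have hα0 : 0 < ‖α‖ := norm_pos_iff.2 hne
    have hβ0 : 0 ≤ ‖β‖ := norm_nonneg _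
    have hsq : 0 < Real.sqrt δ := Real.sqrt_pos.2 hδ
    set t : ℝ := min (Real.sqrt δ / 2) (‖α‖ / (2 * (1 + ‖β‖))) with ht
    have ht0 : 0 < t := by
      rw [ht]
      refine lt_min (by linarith) (by positivity)
    have ht1 : t ≤ Real.sqrt δ / 2 := min_le_left _ _
    have ht2 : t ≤ ‖α‖ / (2 * (1 + ‖β‖)) := min_le_right _ _
    have ht3 : t ^ 2 < δ := by
      have h1 : t ^ 2 ≤ (Real.sqrt δ / 2) ^ 2 := pow_le_pow_left₀ ht0.le ht1 2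
      have h2 : (Real.sqrt δ / 2) ^ 2 = δ / 4 := by
        rw [div_pow, Real.sq_sqrt hδ.le]
        norm_num
      rw [h2] at h1
      linarith
    set z : ℂ := (t : ℂ) * (star α / (‖α‖ : ℂ)) with hz
    have hαc : ((‖α‖ : ℝ) : ℂ) ≠ 0 := by exact_mod_cast hα0.ne'
    have hzn : ‖z‖ = t := by
      rw [hz, norm_mul, norm_div, norm_star, Complex.norm_real, Complex.norm_real, norm_norm,
        div_self hα0.ne', mul_one, Real.norm_of_nonneg ht0.le]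
    have hzs : Complex.normSq z = t ^ 2 := by
      rw [Complex.normSq_eq_norm_sq, hzn]
    have hαz : α * z = ((t * ‖α‖ : ℝ) : ℂ) := by
      have h1 : α * star α = ((‖α‖ ^ 2 : ℝ) : ℂ) := by
        have := Complex.mul_conj α
        rw [Complex.normSq_eq_norm_sq] at this
        exact this
      have h2 : α * z = (t : ℂ) * (α * star α) / (‖α‖ : ℂ) := by
        rw [hz]
        ring
      rw [h2, h1, div_eq_iff hαc]
      push_cast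
      ring
    have h1 := h z (by rw [hzs]; exact ht3)
    rw [hzs, hαz] at h1
    have h2 : 1 + t * ‖α‖ - ‖β‖ * t ^ 2 ≤ ‖1 + ((t * ‖α‖ : ℝ) : ℂ) + β * z ^ 2‖ := by
      have h3 : ‖(1 + ((t * ‖α‖ : ℝ) : ℂ))‖ = 1 + t * ‖α‖ := by
        have h4 : (1 + ((t * ‖α‖ : ℝ) : ℂ)) = ((1 + t * ‖α‖ : ℝ) : ℂ) := by
          push_cast
          ring
        rw [h4, Complex.norm_real, Real.norm_of_nonneg (by positivity)]
      have h5 : ‖β * z ^ 2‖ = ‖β‖ * t ^ 2 := by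
        rw [norm_mul, norm_pow, hzn]
      have h6 := norm_sub_le (1 + ((t * ‖α‖ : ℝ) : ℂ) + β * z ^ 2) (β * z ^ 2)
      rw [add_sub_cancel_right, h3, h5] at h6
      linarith
    have h7 : t * ‖α‖ ≤ t * ((1 + ‖β‖) * t) := by nlinarith
    have h8 : ‖α‖ ≤ (1 + ‖β‖) * t := le_of_mul_le_mul_left h7 ht0
    have h9 : (1 + ‖β‖) * t ≤ ‖α‖ / 2 := by
      calc (1 + ‖β‖) * t ≤ (1 + ‖β‖) * (‖α‖ / (2 * (1 + ‖β‖))) :=
            mul_le_mul_of_nonneg_left ht2 (by positivity)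
        _ = ‖α‖ / 2 := by
            field_simp
    linarith
  refine ⟨hα, ?_⟩
  by_cases hβ : β = 0
  · rw [hβ, norm_zero]
    exact zero_le_one
  have hβ0 : 0 < ‖β‖ := norm_pos_iff.2 hβ
  have hβc : ((‖β‖ : ℝ) : ℂ) ≠ 0 := by exact_mod_cast hβ0.ne'
  obtain ⟨w, hw⟩ := IsAlgClosed.exists_pow_nat_eq (star β / (‖β‖ : ℂ)) (by norm_num : 0 < 2)
  have hwn : ‖w‖ = 1 := by
    have h1 : ‖w‖ ^ 2 = 1 := by
      rw [← norm_pow, hw, norm_div, norm_star, Complex.norm_real, norm_norm, div_self hβ0.ne']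
    have h2 := norm_nonneg w
    nlinarith
  have hsq : 0 < Real.sqrt δ := Real.sqrt_pos.2 hδ
  set t : ℝ := Real.sqrt δ / 2 with ht
  have ht0 : 0 < t := by linarith
  have ht3 : t ^ 2 < δ := by
    have h2 : (Real.sqrt δ / 2) ^ 2 = δ / 4 := by
      rw [div_pow, Real.sq_sqrt hδ.le]
      norm_num
    rw [ht, h2]
    linarith
  have hzn : ‖(t : ℂ) * w‖ = t := by
    rw [norm_mul, hwn, mul_one, Complex.norm_real, Real.norm_of_nonneg ht0.le]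
  have hzs : Complex.normSq ((t : ℂ) * w) = t ^ 2 := by
    rw [Complex.normSq_eq_norm_sq, hzn]
  have h1 := h ((t : ℂ) * w) (by rw [hzs]; exact ht3)
  rw [hzs, hα, zero_mul, add_zero] at h1
  have h2 : β * ((t : ℂ) * w) ^ 2 = ((t ^ 2 * ‖β‖ : ℝ) : ℂ) := by
    have h3 : β * star β = ((‖β‖ ^ 2 : ℝ) : ℂ) := by
      have := Complex.mul_conj β
      rw [Complex.normSq_eq_norm_sq] at this
      exact this
    have h4 : β * ((t : ℂ) * w) ^ 2 = (t : ℂ) ^ 2 * (β * star β) / (‖β‖ : ℂ) := by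
      rw [mul_pow, hw]
      ring
    rw [h4, h3, div_eq_iff hβc]
    push_cast
    ring
  rw [h2] at h1
  have h5 : ‖(1 + ((t ^ 2 * ‖β‖ : ℝ) : ℂ))‖ = 1 + t ^ 2 * ‖β‖ := by
    have h4 : (1 + ((t ^ 2 * ‖β‖ : ℝ) : ℂ)) = ((1 + t ^ 2 * ‖β‖ : ℝ) : ℂ) := by
      push_cast
      ring
    rw [h4, Complex.norm_real, Real.norm_of_nonneg (by positivity)]
  rw [h5] at h1
  have h6 : t ^ 2 * ‖β‖ ≤ t ^ 2 * 1 := by linarith
  exact le_of_mul_le_mul_left h6 (by positivity)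

theorem nrm_of_localMax {P : Mat} (hP : IsPl P) {ψ : V} (hψ : vsq ψ = 1) (h0 : qP P ψ ≠ 0)
    {δ : ℝ} (hδ : 0 < δ)
    (h : ∀ φ : V, vsq (φ - ψ) < δ → ‖qP P φ‖ ≤ ‖qP P ψ‖ * vsq φ) :
    Nrm P ψ ‖qP P ψ‖ := by
  have hU := Un_isU hψ
  have hdet : (Un ψ).det = 1 := hU.2
  set U : Mat := Un ψ with hUdef
  set Q : Mat := U * P * U⁻¹ with hQ
  have hunit : IsUnit U.det := by
    rw [hdet]
    exact isUnit_one
  have hUU : U * U⁻¹ = 1 := Matrix.mul_nonsing_inv U hunit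
  have hUU' : U⁻¹ * U = 1 := Matrix.nonsing_inv_mul U hunit
  have hplQ : IsPl Q := isPl_conj hP U hdet
  have hr : qP P ψ = Q 1 0 := by
    rw [← qP_conj P U hdet ψ, Un_mulVec hψ, qP_formula]
    simp [hQ]
  have hφ : ∀ z : ℂ, qP P (U⁻¹ *ᵥ ![1, z]) = Q 1 0 + (Q 1 1 - Q 0 0) * z - Q 0 1 * z ^ 2 := by
    intro z
    rw [← qP_conj P U hdet (U⁻¹ *ᵥ ![1, z]), Matrix.mulVec_mulVec, hUU, Matrix.one_mulVec,
      qP_formula]
    simp [hQ]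
  have hψ' : U⁻¹ *ᵥ ![1, 0] = ψ := by
    rw [← Un_mulVec hψ, Matrix.mulVec_mulVec, ← hUdef, hUU', Matrix.one_mulVec]
  have hvs : ∀ z : ℂ, vsq (U⁻¹ *ᵥ ![1, z]) = 1 + Complex.normSq z := by
    intro z
    rw [hU.inv.vsq_mulVec]
    simp [vsq]
  have hvd : ∀ z : ℂ, vsq (U⁻¹ *ᵥ ![1, z] - ψ) = Complex.normSq z := by
    intro z
    conv_lhs => rw [← hψ']
    rw [← Matrix.mulVec_sub, hU.inv.vsq_mulVec]
    simp [vsq]
  set r : ℂ := Q 1 0 with hrdef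
  rw [hr] at h0 h ⊢
  have hr0 : 0 < ‖r‖ := norm_pos_iff.2 h0
  have key := a5_ab (α := (Q 1 1 - Q 0 0) / r) (β := -(Q 0 1) / r) hδ (by
    intro z hz
    have h1 := h (U⁻¹ *ᵥ ![1, z]) (by rw [hvd]; exact hz)
    rw [hφ, hvs] at h1
    have h2 : r + (Q 1 1 - Q 0 0) * z - Q 0 1 * z ^ 2 =
        r * (1 + (Q 1 1 - Q 0 0) / r * z + -(Q 0 1) / r * z ^ 2) := by
      field_simp
      ring
    rw [h2, norm_mul] at h1
    exact le_of_mul_le_mul_left h1 hr0)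
  obtain ⟨k1, k2⟩ := key
  have hdiag : Q 1 1 = Q 0 0 := by
    have := (div_eq_zero_iff.1 k1).resolve_right h0
    exact sub_eq_zero.1 this
  have htr : Q 0 0 + Q 1 1 = 1 := by
    have := hplQ.1
    rw [Matrix.trace_fin_two] at this
    exact this
  have hdQ : Q 0 0 * Q 1 1 - Q 0 1 * Q 1 0 = 0 := by
    have := hplQ.2
    rw [Matrix.det_fin_two] at this
    exact this
  have h00 : Q 0 0 = 1 / 2 := by
    rw [hdiag] at htr
    linear_combination htr / 2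
  have h11 : Q 1 1 = 1 / 2 := by rw [hdiag, h00]
  have hprod : Q 0 1 * r = 1 / 4 := by
    rw [h00, h11, ← hrdef] at hdQ
    linear_combination -hdQ
  have hn : ‖Q 0 1‖ * ‖r‖ = 1 / 4 := by
    rw [← norm_mul, hprod]
    norm_num
  have h01 : ‖Q 0 1‖ = 1 / (4 * ‖r‖) := by
    rw [eq_div_iff (by positivity)]
    linarith
  have hle : ‖Q 0 1‖ ≤ ‖r‖ := by
    rw [norm_div, norm_neg, div_le_one hr0] at k2
    exact k2
  have hhalf : 1 / 2 ≤ ‖r‖ := by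
    have h1 : 1 / 4 ≤ ‖r‖ * ‖r‖ := by
      rw [← hn]
      exact mul_le_mul_of_nonneg_right hle hr0.le
    nlinarith
  exact ⟨hP, hψ, hhalf, h00, h11, rfl, h01⟩

end HRP
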