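import Mathlib

/-!
# HRP-C1 : matrices with the same Gram matrix differ by a unitary matrix

`A, B : Matrix (Fin n) (Fin m) ℂ` with `Aᴴ A = Bᴴ B`: there is a unitary `U` (`n × n`) with
`U A = B`. Proof: `‖A x‖ = ‖B x‖` for all `x` (Euclidean norms), so `A x ↦ B x` is a well defined
linear isometry from the range of `A` (a subspace of `EuclideanSpace ℂ (Fin n)`) to
`EuclideanSpace ℂ (Fin n)`; extend it to a linear isometry of the whole space
(`LinearIsometry.extend`), take its matrix (`LinearMap.toMatrix'`/`Matrix.toEuclideanLin`); an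
isometry of a finite dimensional space is unitary.
-/

namespace HRP

open Matrix

theorem exists_unitary_of_gram_eq {n m : ℕ} (A B : Matrix (Fin n) (Fin m) ℂ)
    (h : Aᴴ * A = Bᴴ * B) : ∃ U : Matrix (Fin n) (Fin n) ℂ, Uᴴ * U = 1 ∧ U * A = B := by
  classical
  -- the linear maps
  let a := Matrix.toEuclideanLin A
  let b := Matrix.toEuclideanLin B
  have hab : ∀ x y, inner ℂ (a x) (a y) = inner ℂ (b x) (b y) := by
    intro x y
    rw [← LinearMap.adjoint_inner_right a, ← LinearMap.adjoint_inner_right b]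
    congr 1
    have ha : LinearMap.adjoint a = Matrix.toEuclideanLin Aᴴ := (Matrix.toEuclideanLin_conjTranspose_eq_adjoint A).symm
    have hb : LinearMap.adjoint b = Matrix.toEuclideanLin Bᴴ := (Matrix.toEuclideanLin_conjTranspose_eq_adjoint B).symm
    rw [ha, hb]
    simp only [a, b, Matrix.toLpLin_apply, Matrix.mulVec_mulVec, h]
  have hnorm : ∀ x, ‖a x‖ = ‖b x‖ := by
    intro x
    have h1 := hab x x
    rw [inner_self_eq_norm_sq_to_K, inner_self_eq_norm_sq_to_K] at h1
    have h2 : ‖a x‖ ^ 2 = ‖b x‖ ^ 2 := by exact_mod_cast h1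
    exact (sq_eq_sq₀ (norm_nonneg _) (norm_nonneg _)).1 h2
  have hker : LinearMap.ker a ≤ LinearMap.ker b := by
    intro x hx
    rw [LinearMap.mem_ker] at hx ⊢
    have := hnorm x
    rw [hx, norm_zero] at this
    exact norm_eq_zero.1 this.symm
  let L0 : LinearMap.range a →ₗ[ℂ] EuclideanSpace ℂ (Fin n) :=
    ((LinearMap.ker a).liftQ b hker).comp (a.quotKerEquivRange.symm : LinearMap.range a →ₗ[ℂ] _)
  have hL0 : ∀ x, L0 ⟨a x, LinearMap.mem_range_self a x⟩ = b x := by
    intro x
    have h1 : a.quotKerEquivRange.symm ⟨a x, LinearMap.mem_range_self a x⟩ = (LinearMap.ker a).mkQ x := by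
      rw [LinearEquiv.symm_apply_eq]
      apply Subtype.ext
      rfl
    show ((LinearMap.ker a).liftQ b hker) (a.quotKerEquivRange.symm ⟨a x, LinearMap.mem_range_self a x⟩) = b x
    rw [h1]
    rfl
  let L : LinearMap.range a →ₗᵢ[ℂ] EuclideanSpace ℂ (Fin n) :=
    { L0 with
      norm_map' := by
        rintro ⟨y, x, rfl⟩
        show ‖L0 ⟨a x, _⟩‖ = ‖a x‖
        rw [hL0, hnorm] }
  let M := L.extend
  have hM : ∀ x, M (a x) = b x := by
    intro x
    have h1 := L.extend_apply ⟨a x, LinearMap.mem_range_self a x⟩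
    exact h1.trans (hL0 x)
  let U : Matrix (Fin n) (Fin n) ℂ := Matrix.toEuclideanLin.symm M.toLinearMap
  have hU : Matrix.toEuclideanLin U = M.toLinearMap := Matrix.toEuclideanLin.apply_symm_apply _
  refine ⟨U, ?_, ?_⟩
  · apply Matrix.toEuclideanLin.injective
    apply LinearMap.ext
    intro x
    apply ext_inner_left ℂ
    intro y
    have h1 : Matrix.toEuclideanLin (Uᴴ * U) x = Matrix.toEuclideanLin Uᴴ (Matrix.toEuclideanLin U x) := by
      simp only [Matrix.toLpLin_apply, Matrix.mulVec_mulVec]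
    rw [h1, Matrix.toEuclideanLin_conjTranspose_eq_adjoint, LinearMap.adjoint_inner_right, hU]
    have h2 : Matrix.toEuclideanLin (1 : Matrix (Fin n) (Fin n) ℂ) x = x := by
      simp only [Matrix.toLpLin_apply, Matrix.one_mulVec]
    rw [h2]
    exact M.inner_map_map y x
  · apply Matrix.toEuclideanLin.injective
    apply LinearMap.ext
    intro x
    have h1 : Matrix.toEuclideanLin (U * A) x = Matrix.toEuclideanLin U (Matrix.toEuclideanLin A x) := by
      simp only [Matrix.toLpLin_apply, Matrix.mulVec_mulVec]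
    rw [h1, hU]
    exact hM x

end HRP
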