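import Pool.Agent.HRP.A1
import Pool.Agent.HRP.A2
import Pool.Agent.HRP.C1

/-!
# HRP-C2 : the unitary matrix of a minimal configuration; the Cauchy-Schwarz inequality

Write `N i = P i - 1/2`, `w i = √(μ i)`.

* `exists_unitary_min`: if `∑ μ i (P i P iᴴ - P iᴴ P i) = 0` there is a unitary `U` with
  `∑ j, U i j w j N j = w i N iᴴ` for all `i`. Proof: apply `exists_unitary_of_gram_eq` with
  `m = 4`, `A i (a,b) = w i (N i) a b`, `B i (a,b) = w i (N iᴴ) a b` (index the four entries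
  `(0,0), (0,1), (1,0), (1,1)` by `Fin 4`). With `N i = [[x, y], [z, -x]]` (trace `0`):
  the Gram matrices agree because (a) `P P* - P* P = N N* - N* N`, (b) its `(0,0)` entry gives
  `∑ μ |y|² = ∑ μ |z|²`, (c) its `(0,1)` entry is `2 (x z̄ - x̄ y)` after summation: indeed
  `(N N*)₀₁ = x z̄ - y x̄`, `(N* N)₀₁ = x̄ y - z̄ x`, so `∑ μ x̄ y = ∑ μ z̄ x`; the remaining Gram
  entries `∑ μ conj(A_ab) A_cd` versus `∑ μ conj(B_ab) B_cd`, `B_ab = conj(N_ba)`, agree trivially.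
* `trace_sum_le`: for every unitary `U`, `k` with `det k = 1` and planes `Q i`:
  `‖∑ i j, U i j w i w j (tr (Q i Q j) - 1/2)‖ ≤ ∑ μ i (nsq (k (Q i) k⁻¹)) - 1/2 ∑ μ i`.
  Proof: `M i = k (Q i) k⁻¹ - 1/2`, `tr (M i M j) = tr (Q i Q j) - 1/2`,
  `nsq (M i) = nsq (k (Q i) k⁻¹) - 1/2` (`nsq_sub_half`). The sum is
  `∑ i, tr (w i M i R i)`, `R i = ∑ j, U i j w j M j`; `|tr (X Y)| ≤ |X| |Y|`; Cauchy-Schwarz:
  `≤ (∑ μ i |M i|²)^{1/2} (∑ |R i|²)^{1/2}` and `∑ |R i|² = ∑ μ i |M i|²` as `U` is unitary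
  (entrywise).
* `sum_eq_S`: for the `U` of the first item,
  `∑ i j, U i j w i w j (tr (P i P j) - 1/2) = ∑ μ i nsq (P i) - 1/2 ∑ μ i` (real number): it is
  `∑ i, w i tr (N i (∑ j, U i j w j N j)) = ∑ i, μ i tr (N i N iᴴ) = ∑ μ i |N i|²`.
-/

namespace HRP

open Matrix

variable {n : ℕ}

/-- the bilinear sum `∑ U i j w i w j (tr (Q i Q j) - 1/2)`. -/
noncomputable def TS (U : Matrix (Fin n) (Fin n) ℂ) (μ : Fin n → ℝ) (Q : Fin n → Mat) : ℂ :=
  ∑ i, ∑ j, U i j * ((Real.sqrt (μ i) * Real.sqrt (μ j) : ℝ) : ℂ) * ((Q i * Q j).trace - 1 / 2)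

theorem c2_unit {U : Matrix (Fin n) (Fin n) ℂ} (hU : Uᴴ * U = 1) (v : Fin n → ℂ) :
    ∑ i, Complex.normSq (∑ j, U i j * v j) = ∑ j, Complex.normSq (v j) := by
  have h1 : star (U *ᵥ v) ⬝ᵥ (U *ᵥ v) = star v ⬝ᵥ v := by
    rw [Matrix.star_mulVec, Matrix.dotProduct_mulVec, Matrix.vecMul_vecMul, hU, Matrix.vecMul_one]
  have h2 : ∀ u : Fin n → ℂ, star u ⬝ᵥ u = ((∑ i, Complex.normSq (u i) : ℝ) : ℂ) := by
    intro u
    rw [dotProduct, Complex.ofReal_sum]
    refine Finset.sum_congr rfl fun i _ => ?_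
    rw [Pi.star_apply, Complex.star_def, Complex.normSq_eq_conj_mul_self]
  rw [h2, h2] at h1
  have h3 : ∑ i, Complex.normSq ((U *ᵥ v) i) = ∑ i, Complex.normSq (v i) := by exact_mod_cast h1
  exact h3

theorem c2_trace {P Q : Mat} (hP : P.trace = 1) (hQ : Q.trace = 1) :
    (P * Q).trace - 1 / 2 =
      ((P - (1 / 2 : ℂ) • (1 : Mat)) * (Q - (1 / 2 : ℂ) • (1 : Mat))).trace := by
  rw [sub_mul, mul_sub, mul_sub, Matrix.mul_smul, Matrix.smul_mul, Matrix.mul_one, Matrix.one_mul,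
    Matrix.smul_mul, Matrix.one_mul, Matrix.trace_sub, Matrix.trace_sub, Matrix.trace_sub,
    Matrix.trace_smul, Matrix.trace_smul, Matrix.trace_smul, Matrix.trace_smul, hP, hQ,
    Matrix.trace_one]
  simp

theorem c2_TS (U : Matrix (Fin n) (Fin n) ℂ) (μ : Fin n → ℝ) {Q N : Fin n → Mat}
    (h : ∀ i j, (Q i * Q j).trace - 1 / 2 = (N i * N j).trace) :
    TS U μ Q = ∑ i, (((Real.sqrt (μ i) : ℂ) • N i) *
      ∑ j, (U i j * (Real.sqrt (μ j) : ℂ)) • N j).trace := by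
  unfold TS
  refine Finset.sum_congr rfl fun i _ => ?_
  rw [Finset.mul_sum, Matrix.trace_sum]
  refine Finset.sum_congr rfl fun j _ => ?_
  rw [h i j, Matrix.mul_smul, Matrix.smul_mul, Matrix.trace_smul, Matrix.trace_smul, smul_eq_mul,
    smul_eq_mul]
  push_cast
  ring

theorem exists_unitary_min {μ : Fin n → ℝ} (hμ : ∀ i, 0 ≤ μ i) {P : Fin n → Mat}
    (hP : ∀ i, IsPl (P i)) (hmin : ∑ i, (μ i : ℂ) • (P i * (P i)ᴴ - (P i)ᴴ * P i) = 0) :
    ∃ U : Matrix (Fin n) (Fin n) ℂ, Uᴴ * U = 1 ∧ ∀ i,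
      ∑ j, (U i j * (Real.sqrt (μ j) : ℂ)) • (P j - (1 / 2 : ℂ) • (1 : Mat)) =
        (Real.sqrt (μ i) : ℂ) • (P i - (1 / 2 : ℂ) • (1 : Mat))ᴴ := by
  have hw : ∀ i, (Real.sqrt (μ i) : ℂ) * (Real.sqrt (μ i) : ℂ) = (μ i : ℂ) := by
    intro i
    rw [← Complex.ofReal_mul, Real.mul_self_sqrt (hμ i)]
  have h11 : ∀ i, P i 1 1 = 1 - P i 0 0 := by
    intro i
    have := (hP i).1
    rw [Matrix.trace_fin_two] at this
    linear_combination this
  -- the two entries of the minimality condition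
  have hv : ∑ i, (μ i : ℂ) * (P i 0 1 * star (P i 0 1) - P i 1 0 * star (P i 1 0)) = 0 := by
    have h1 := congrFun (congrFun hmin 0) 0
    rw [Matrix.sum_apply] at h1
    refine Eq.trans (Finset.sum_congr rfl fun i _ => ?_) h1
    simp [Matrix.mul_apply, Fin.sum_univ_two, Matrix.conjTranspose_apply]
    left
    ring
  have h3 : star (1 / 2 : ℂ) = 1 / 2 := by
    have h4 : (1 / 2 : ℂ) = ((1 / 2 : ℝ) : ℂ) := by push_cast; rfl
    rw [h4]
    exact Complex.conj_ofReal _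
  have hs : ∀ i, star (P i 0 0 - 1 / 2) = star (P i 0 0) - 1 / 2 := by
    intro i
    rw [star_sub, h3]
  have hu : ∑ i, (μ i : ℂ) * ((P i 0 0 - 1 / 2) * star (P i 1 0) -
      (star (P i 0 0) - 1 / 2) * P i 0 1) = 0 := by
    have h1 := congrFun (congrFun hmin 0) 1
    rw [Matrix.sum_apply] at h1
    have h2 : ∑ i, (2 : ℂ) * ((μ i : ℂ) * ((P i 0 0 - 1 / 2) * star (P i 1 0) -
        (star (P i 0 0) - 1 / 2) * P i 0 1)) = 0 := by
      refine Eq.trans (Finset.sum_congr rfl fun i _ => ?_) h1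
      simp only [Matrix.smul_apply, Matrix.sub_apply, Matrix.mul_apply, Fin.sum_univ_two,
        Matrix.conjTranspose_apply, h11 i, smul_eq_mul, star_sub, star_one]
      ring
    rw [← Finset.mul_sum] at h2
    exact (mul_eq_zero.1 h2).resolve_left (by norm_num)
  have hu' : ∑ i, (μ i : ℂ) * ((star (P i 0 0) - 1 / 2) * P i 1 0 -
      (P i 0 0 - 1 / 2) * star (P i 0 1)) = 0 := by
    have h1 := congrArg star hu
    rw [star_zero, star_sum] at h1
    refine Eq.trans (Finset.sum_congr rfl fun i _ => ?_) h1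
    have h5 : star (μ i : ℂ) = (μ i : ℂ) := Complex.conj_ofReal _
    simp only [star_mul', star_sub, star_star, h3, h5]
  -- the vectors
  set av : Fin n → Fin 4 → ℂ := fun i =>
    ![P i 0 0 - 1 / 2, P i 0 1, P i 1 0, -(P i 0 0 - 1 / 2)] with hav
  set bv : Fin n → Fin 4 → ℂ := fun i =>
    ![star (P i 0 0) - 1 / 2, star (P i 1 0), star (P i 0 1), -(star (P i 0 0) - 1 / 2)] with hbv
  have hD : ∀ k l : Fin 4, ∃ α β γ : ℂ, ∀ i, star (av i k) * av i l - star (bv i k) * bv i l =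
      α * ((P i 0 0 - 1 / 2) * star (P i 1 0) - (star (P i 0 0) - 1 / 2) * P i 0 1) +
      β * ((star (P i 0 0) - 1 / 2) * P i 1 0 - (P i 0 0 - 1 / 2) * star (P i 0 1)) +
      γ * (P i 0 1 * star (P i 0 1) - P i 1 0 * star (P i 1 0)) := by
    intro k l
    fin_cases k <;> fin_cases l <;>
      simp only [hav, hbv, Fin.zero_eta, Fin.mk_one, Fin.reduceFinMk, Matrix.cons_val_zero,
        Matrix.cons_val_one, Matrix.cons_val, star_star, star_neg, star_sub, h3] <;>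
      first
        | (refine ⟨0, 0, 0, fun i => ?_⟩; ring1)
        | (refine ⟨1, 0, 0, fun i => ?_⟩; ring1)
        | (refine ⟨-1, 0, 0, fun i => ?_⟩; ring1)
        | (refine ⟨0, 1, 0, fun i => ?_⟩; ring1)
        | (refine ⟨0, -1, 0, fun i => ?_⟩; ring1)
        | (refine ⟨0, 0, 1, fun i => ?_⟩; ring1)
        | (refine ⟨0, 0, -1, fun i => ?_⟩; ring1)
  have hG : ∀ k l : Fin 4, ∑ i, (μ i : ℂ) * (star (av i k) * av i l) =
      ∑ i, (μ i : ℂ) * (star (bv i k) * bv i l) := by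
    intro k l
    obtain ⟨α, β, γ, h⟩ := hD k l
    rw [← sub_eq_zero, ← Finset.sum_sub_distrib]
    have h1 : ∀ i, (μ i : ℂ) * (star (av i k) * av i l) - (μ i : ℂ) * (star (bv i k) * bv i l) =
        α * ((μ i : ℂ) * ((P i 0 0 - 1 / 2) * star (P i 1 0) - (star (P i 0 0) - 1 / 2) * P i 0 1)) +
        β * ((μ i : ℂ) * ((star (P i 0 0) - 1 / 2) * P i 1 0 - (P i 0 0 - 1 / 2) * star (P i 0 1))) +
        γ * ((μ i : ℂ) * (P i 0 1 * star (P i 0 1) - P i 1 0 * star (P i 1 0))) := by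
      intro i
      rw [← mul_sub, h i]
      ring
    rw [Finset.sum_congr rfl fun i _ => h1 i, Finset.sum_add_distrib, Finset.sum_add_distrib,
      ← Finset.mul_sum, ← Finset.mul_sum, ← Finset.mul_sum, hu, hu', hv]
    ring
  have hstar : ∀ i, star (Real.sqrt (μ i) : ℂ) = (Real.sqrt (μ i) : ℂ) :=
    fun i => Complex.conj_ofReal _
  obtain ⟨U, hU, hUA⟩ := exists_unitary_of_gram_eq
    (Matrix.of fun i k => (Real.sqrt (μ i) : ℂ) * av i k)
    (Matrix.of fun i k => (Real.sqrt (μ i) : ℂ) * bv i k) (by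
      ext k l
      rw [Matrix.mul_apply, Matrix.mul_apply]
      refine Eq.trans ?_ ((hG k l).trans ?_)
      · refine Finset.sum_congr rfl fun i _ => ?_
        rw [Matrix.conjTranspose_apply, Matrix.of_apply, Matrix.of_apply, star_mul', hstar, ← hw i]
        ring
      · refine Finset.sum_congr rfl fun i _ => ?_
        rw [Matrix.conjTranspose_apply, Matrix.of_apply, Matrix.of_apply, star_mul', hstar, ← hw i]
        ring)
  refine ⟨U, hU, fun i => ?_⟩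
  have hk : ∀ k : Fin 4, ∑ j, U i j * ((Real.sqrt (μ j) : ℂ) * av j k) =
      (Real.sqrt (μ i) : ℂ) * bv i k := by
    intro k
    have h1 := congrFun (congrFun hUA i) k
    rw [Matrix.mul_apply] at h1
    exact h1
  have hN : ∀ j, P j - (1 / 2 : ℂ) • (1 : Mat) = !![av j 0, av j 1; av j 2, av j 3] := by
    intro j
    ext a b
    fin_cases a <;> fin_cases b <;> simp [hav, h11 j]
    ring
  have hNs : (P i - (1 / 2 : ℂ) • (1 : Mat))ᴴ = !![bv i 0, bv i 1; bv i 2, bv i 3] := by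
    rw [hN i]
    ext a b
    fin_cases a <;> fin_cases b <;> simp [hav, hbv]
  rw [hNs]
  ext a b
  rw [Matrix.sum_apply]
  fin_cases a <;> fin_cases b
  · refine Eq.trans (Finset.sum_congr rfl fun j _ => ?_) (hk 0)
    rw [hN j]
    simp
    ring
  · refine Eq.trans (Finset.sum_congr rfl fun j _ => ?_) (hk 1)
    rw [hN j]
    simp
    ring
  · refine Eq.trans (Finset.sum_congr rfl fun j _ => ?_) (hk 2)
    rw [hN j]
    simp
    ring
  · refine Eq.trans (Finset.sum_congr rfl fun j _ => ?_) (hk 3)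
    rw [hN j]
    simp
    ring

theorem c2_nsq (X : Mat) : (X * Xᴴ).trace = ((nsq X : ℝ) : ℂ) := by
  rw [Matrix.trace_fin_two]
  simp only [Matrix.mul_apply, Fin.sum_univ_two, Matrix.conjTranspose_apply, nsq]
  push_cast
  simp only [Complex.star_def, ← Complex.mul_conj]
  ring

theorem TS_eq_of_min {μ : Fin n → ℝ} (hμ : ∀ i, 0 ≤ μ i) {P : Fin n → Mat}
    (hP : ∀ i, IsPl (P i)) {U : Matrix (Fin n) (Fin n) ℂ}
    (hU : ∀ i, ∑ j, (U i j * (Real.sqrt (μ j) : ℂ)) • (P j - (1 / 2 : ℂ) • (1 : Mat)) =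
        (Real.sqrt (μ i) : ℂ) • (P i - (1 / 2 : ℂ) • (1 : Mat))ᴴ) :
    TS U μ P = ((∑ i, μ i * nsq (P i) - 1 / 2 * ∑ i, μ i : ℝ) : ℂ) := by
  rw [c2_TS U μ (N := fun i => P i - (1 / 2 : ℂ) • (1 : Mat))
    (fun i j => c2_trace (hP i).1 (hP j).1)]
  have h1 : ∀ i, (((Real.sqrt (μ i) : ℂ) • (P i - (1 / 2 : ℂ) • (1 : Mat))) *
      ∑ j, (U i j * (Real.sqrt (μ j) : ℂ)) • (P j - (1 / 2 : ℂ) • (1 : Mat))).trace =
      ((μ i * nsq (P i) - 1 / 2 * μ i : ℝ) : ℂ) := by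
    intro i
    rw [hU i, Matrix.mul_smul, Matrix.smul_mul, Matrix.trace_smul, Matrix.trace_smul, c2_nsq,
      nsq_sub_half (hP i), smul_eq_mul, smul_eq_mul, ← mul_assoc, ← Complex.ofReal_mul,
      Real.mul_self_sqrt (hμ i), ← Complex.ofReal_mul]
    congr 1
    ring
  rw [Finset.sum_congr rfl fun i _ => h1 i, ← Complex.ofReal_sum, Finset.sum_sub_distrib,
    Finset.mul_sum]

theorem norm_TS_le {μ : Fin n → ℝ} (hμ : ∀ i, 0 ≤ μ i) {Q : Fin n → Mat}
    (hQ : ∀ i, IsPl (Q i)) {U : Matrix (Fin n) (Fin n) ℂ} (hU : Uᴴ * U = 1)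
    {k : Mat} (hk : k.det = 1) :
    ‖TS U μ Q‖ ≤ ∑ i, μ i * nsq (k * Q i * k⁻¹) - 1 / 2 * ∑ i, μ i := by
  have hkk : k⁻¹ * k = 1 := Matrix.nonsing_inv_mul k (by rw [hk]; exact isUnit_one)
  have hpl : ∀ i, IsPl (k * Q i * k⁻¹) := fun i => isPl_conj (hQ i) k hk
  set M : Fin n → Mat := fun i => k * Q i * k⁻¹ - (1 / 2 : ℂ) • (1 : Mat) with hM
  have htr : ∀ i j, (Q i * Q j).trace - 1 / 2 = (M i * M j).trace := by
    intro i j
    rw [hM, ← c2_trace (hpl i).1 (hpl j).1]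
    congr 1
    have e1 : k * Q i * k⁻¹ * (k * Q j * k⁻¹) = k * (Q i * Q j) * k⁻¹ := by
      calc k * Q i * k⁻¹ * (k * Q j * k⁻¹) = k * Q i * (k⁻¹ * k) * Q j * k⁻¹ := by
            simp only [Matrix.mul_assoc]
        _ = k * (Q i * Q j) * k⁻¹ := by
            rw [hkk, Matrix.mul_one, Matrix.mul_assoc k]
    rw [e1, Matrix.trace_mul_comm (k * (Q i * Q j)) k⁻¹, ← Matrix.mul_assoc, hkk, Matrix.one_mul]
  set R : Fin n → Mat := fun i => ∑ j, (U i j * (Real.sqrt (μ j) : ℂ)) • M j with hR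
  rw [c2_TS U μ htr]
  have h1 : ∀ i, ‖(((Real.sqrt (μ i) : ℂ) • M i) * R i).trace‖ ≤
      Real.sqrt (nsq ((Real.sqrt (μ i) : ℂ) • M i)) * Real.sqrt (nsq (R i)) := by
    intro i
    have h2 := normSq_trace_mul_le ((Real.sqrt (μ i) : ℂ) • M i) (R i)
    rw [← Real.sqrt_mul (nsq_nonneg _)]
    apply Real.le_sqrt_of_sq_le
    rw [← Complex.normSq_eq_norm_sq]
    exact h2
  have hA : ∀ i, nsq ((Real.sqrt (μ i) : ℂ) • M i) = μ i * nsq (M i) := by
    intro i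
    rw [nsq_smul, Complex.normSq_ofReal, Real.mul_self_sqrt (hμ i)]
  have hB : ∑ i, nsq (R i) = ∑ i, μ i * nsq (M i) := by
    have hent : ∀ (i : Fin n) (a b : Fin 2), R i a b = ∑ j, U i j * ((Real.sqrt (μ j) : ℂ) * M j a b) := by
      intro i a b
      rw [hR]
      simp only [Matrix.sum_apply, Matrix.smul_apply, smul_eq_mul]
      refine Finset.sum_congr rfl fun j _ => ?_
      ring
    have hab : ∀ a b : Fin 2, ∑ i, Complex.normSq (R i a b) =
        ∑ j, μ j * Complex.normSq (M j a b) := by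
      intro a b
      simp only [hent]
      rw [c2_unit hU]
      refine Finset.sum_congr rfl fun j _ => ?_
      rw [Complex.normSq_mul, Complex.normSq_ofReal, Real.mul_self_sqrt (hμ j)]
    unfold nsq
    simp only [mul_add, Finset.sum_add_distrib, hab]
  have h3 : ‖∑ i, (((Real.sqrt (μ i) : ℂ) • M i) * R i).trace‖ ≤
      ∑ i, Real.sqrt (μ i * nsq (M i)) * Real.sqrt (nsq (R i)) := by
    refine (norm_sum_le _ _).trans (Finset.sum_le_sum fun i _ => ?_)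
    have := h1 i
    rw [hA i] at this
    exact this
  have h4 : ∑ i, Real.sqrt (μ i * nsq (M i)) * Real.sqrt (nsq (R i)) ≤
      Real.sqrt (∑ i, μ i * nsq (M i)) * Real.sqrt (∑ i, nsq (R i)) := by
    exact Real.sum_sqrt_mul_sqrt_le _ (fun i => mul_nonneg (hμ i) (nsq_nonneg _))
      (fun i => nsq_nonneg _)
  have h5 : 0 ≤ ∑ i, μ i * nsq (M i) :=
    Finset.sum_nonneg fun i _ => mul_nonneg (hμ i) (nsq_nonneg _)
  rw [hB, Real.mul_self_sqrt h5] at h4
  refine (h3.trans h4).trans (le_of_eq ?_)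
  rw [Finset.mul_sum, ← Finset.sum_sub_distrib]
  refine Finset.sum_congr rfl fun i _ => ?_
  rw [hM, nsq_sub_half (hpl i)]
  ring

end HRP
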