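import Mathlib

/-!
# HRP-C3 : a matrix `M` with `‖tr (V M)‖ ≤ tr M` for all unitary `V` is Hermitian

Statement: `M : Matrix (Fin n) (Fin n) ℂ`, `S : ℝ`, `tr M = S` and `‖tr (V M)‖ ≤ S` for all unitary
`V`. Then `Mᴴ = M`.
Proof. Let `H` be Hermitian. The matrix `V_ε = (1 + i ε H)(1 - i ε H)⁻¹` (Cayley transform,
`ε` real) is unitary, and `V_ε = 1 + 2 i ε H + O(ε²)`; (or `V_ε = exp (i ε H)`). So
`Re tr (V_ε M) = S + ε Re (2 i tr (H M)) + O(ε²) ≤ S` for all small real `ε` of both signs, hence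
`Im tr (H M) = 0` for all Hermitian `H`. With `H = E_ab + E_ba`: `M_ba + M_ab` is real, with
`H = i (E_ab - E_ba)`: `i (M_ba - M_ab)` is real; so `M_ba = conj M_ab`.
A simpler choice which avoids inverses: it is enough to use unitary matrices in the planes
`(a, b)`: for `a ≠ b` the rotation `V` acting on the coordinates `a, b` by
`[[cos θ, -ζ sin θ], [ζ̄ sin θ, cos θ]]`, `|ζ| = 1`, and for `a = b` the diagonal matrix with
`e^{iθ}` at `a`; differentiate at `θ = 0`.
-/

namespace HRP

open Matrix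

theorem c3_unitary {n : ℕ} {K P : Matrix (Fin n) (Fin n) ℂ} (hK : Kᴴ = -K) (hP : Pᴴ = P)
    (hPP : P * P = P) (hKK : K * K = -P) (hPK : P * K = K) (hKP : K * P = K) {c s : ℝ}
    (hcs : c ^ 2 + s ^ 2 = 1) :
    (1 - ((1 - c : ℝ) : ℂ) • P + (s : ℂ) • K)ᴴ * (1 - ((1 - c : ℝ) : ℂ) • P + (s : ℂ) • K) = 1 := by
  have h1 : (1 - ((1 - c : ℝ) : ℂ) • P + (s : ℂ) • K)ᴴ =
      1 - ((1 - c : ℝ) : ℂ) • P - (s : ℂ) • K := by
    rw [Matrix.conjTranspose_add, Matrix.conjTranspose_sub, Matrix.conjTranspose_one,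
      Matrix.conjTranspose_smul, Matrix.conjTranspose_smul, hK, hP]
    have e1 : star ((1 - c : ℝ) : ℂ) = ((1 - c : ℝ) : ℂ) := Complex.conj_ofReal _
    have e2 : star (s : ℂ) = (s : ℂ) := Complex.conj_ofReal _
    rw [e1, e2, smul_neg, sub_eq_add_neg (1 - ((1 - c : ℝ) : ℂ) • P)]
  rw [h1]
  have h2 : (1 - ((1 - c : ℝ) : ℂ) • P - (s : ℂ) • K) * (1 - ((1 - c : ℝ) : ℂ) • P + (s : ℂ) • K) =
      1 - (2 * ((1 - c : ℝ) : ℂ)) • P + (((1 - c : ℝ) : ℂ) * ((1 - c : ℝ) : ℂ)) • (P * P) +
        (((1 - c : ℝ) : ℂ) * (s : ℂ)) • (K * P) - (((1 - c : ℝ) : ℂ) * (s : ℂ)) • (P * K) -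
        ((s : ℂ) * (s : ℂ)) • (K * K) := by
    simp only [sub_mul, mul_add, mul_sub, one_mul, mul_one, smul_mul_assoc, mul_smul_comm]
    module
  rw [h2, hPP, hKK, hPK, hKP]
  have h3 : ((1 - c : ℝ) : ℂ) * ((1 - c : ℝ) : ℂ) + (s : ℂ) * (s : ℂ) = 2 * ((1 - c : ℝ) : ℂ) := by
    have : (1 - c) * (1 - c) + s * s = 2 * (1 - c) := by nlinarith
    exact_mod_cast this
  have h4 : 1 - (2 * ((1 - c : ℝ) : ℂ)) • P + (((1 - c : ℝ) : ℂ) * ((1 - c : ℝ) : ℂ)) • P +
        (((1 - c : ℝ) : ℂ) * (s : ℂ)) • K - (((1 - c : ℝ) : ℂ) * (s : ℂ)) • K -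
        ((s : ℂ) * (s : ℂ)) • (-P) =
      1 + (((1 - c : ℝ) : ℂ) * ((1 - c : ℝ) : ℂ) + (s : ℂ) * (s : ℂ) - 2 * ((1 - c : ℝ) : ℂ)) • P := by
    module
  rw [h4, h3, sub_self, zero_smul, add_zero]

theorem c3_re {n : ℕ} {M : Matrix (Fin n) (Fin n) ℂ} {S : ℝ}
    (h0 : M.trace = (S : ℂ))
    (h : ∀ V : Matrix (Fin n) (Fin n) ℂ, Vᴴ * V = 1 → ‖(V * M).trace‖ ≤ S)
    {K P : Matrix (Fin n) (Fin n) ℂ} (hK : Kᴴ = -K) (hP : Pᴴ = P)
    (hPP : P * P = P) (hKK : K * K = -P) (hPK : P * K = K) (hKP : K * P = K) :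
    ((K * M).trace).re = 0 := by
  set x := ((P * M).trace).re with hx
  set y := ((K * M).trace).re with hy
  have key : ∀ t : ℝ, t * y ≤ t ^ 2 * x := by
    intro t
    have ht : 0 < 1 + t ^ 2 := by positivity
    have hcs : ((1 - t ^ 2) / (1 + t ^ 2)) ^ 2 + (2 * t / (1 + t ^ 2)) ^ 2 = 1 := by
      field_simp
      ring
    have h1 := h _ (c3_unitary hK hP hPP hKK hPK hKP hcs)
    have h2 := (Complex.re_le_norm _).trans h1
    rw [Matrix.add_mul, Matrix.sub_mul, Matrix.one_mul, Matrix.smul_mul, Matrix.smul_mul,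
      Matrix.trace_add, Matrix.trace_sub, Matrix.trace_smul, Matrix.trace_smul, h0, smul_eq_mul,
      smul_eq_mul, Complex.add_re, Complex.sub_re, Complex.re_ofReal_mul, Complex.re_ofReal_mul,
      Complex.ofReal_re, ← hx, ← hy] at h2
    have h3 : -((1 - (1 - t ^ 2) / (1 + t ^ 2)) * x) + 2 * t / (1 + t ^ 2) * y ≤ 0 := by linarith
    have h4 : (1 + t ^ 2) * (-((1 - (1 - t ^ 2) / (1 + t ^ 2)) * x) + 2 * t / (1 + t ^ 2) * y) ≤ 0 :=
      mul_nonpos_of_nonneg_of_nonpos ht.le h3
    have h5 : (1 + t ^ 2) * (-((1 - (1 - t ^ 2) / (1 + t ^ 2)) * x) + 2 * t / (1 + t ^ 2) * y) =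
        2 * (t * y - t ^ 2 * x) := by
      field_simp
      ring
    rw [h5] at h4
    linarith
  by_contra hne
  have hy2 : 0 < y ^ 2 := by positivity
  have hc : 0 < |x| + 1 := by positivity
  have h1 := key (y / (|x| + 1))
  have h2 : y / (|x| + 1) * y * (|x| + 1) ^ 2 ≤ (y / (|x| + 1)) ^ 2 * x * (|x| + 1) ^ 2 :=
    mul_le_mul_of_nonneg_right h1 (by positivity)
  have h3 : y / (|x| + 1) * y * (|x| + 1) ^ 2 = y ^ 2 * (|x| + 1) := by
    field_simp
  have h4 : (y / (|x| + 1)) ^ 2 * x * (|x| + 1) ^ 2 = y ^ 2 * x := by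
    field_simp
  rw [h3, h4] at h2
  have h5 : |x| + 1 ≤ x := le_of_mul_le_mul_left h2 hy2
  have h6 := le_abs_self x
  linarith

theorem isHermitian_of_norm_trace_le {n : ℕ} {M : Matrix (Fin n) (Fin n) ℂ} {S : ℝ}
    (h0 : M.trace = (S : ℂ))
    (h : ∀ V : Matrix (Fin n) (Fin n) ℂ, Vᴴ * V = 1 → ‖(V * M).trace‖ ≤ S) :
    M.IsHermitian := by
  have tr1 : ∀ (a b : Fin n) (z : ℂ), (Matrix.single a b z * M).trace = z * M b a := by
    intro a b z
    rw [Matrix.trace]
    simp only [Matrix.diag_apply, Matrix.mul_apply, Matrix.single_apply]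
    rw [Finset.sum_eq_single a]
    · rw [Finset.sum_eq_single b]
      · simp
      · intro c _ hc
        simp [Ne.symm hc]
      · simp
    · intro c _ hc
      apply Finset.sum_eq_zero
      intro x _
      simp [Ne.symm hc]
    · simp
  have diag : ∀ a : Fin n, (M a a).im = 0 := by
    intro a
    have h1 := c3_re h0 h (K := Matrix.single a a Complex.I) (P := Matrix.single a a 1)
      (by rw [Matrix.conjTranspose_single]; ext i j; simp [Matrix.single_apply]; split_ifs <;> simp)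
      (by rw [Matrix.conjTranspose_single, star_one])
      (by rw [Matrix.single_mul_single_same, mul_one])
      (by rw [Matrix.single_mul_single_same, Complex.I_mul_I]; ext i j; simp [Matrix.single_apply]; split_ifs <;> simp)
      (by rw [Matrix.single_mul_single_same, one_mul])
      (by rw [Matrix.single_mul_single_same, mul_one])
    rw [tr1] at h1
    simpa using h1
  have off : ∀ a b : Fin n, a ≠ b → star (M b a) = M a b := by
    intro a b hab
    have hba : b ≠ a := hab.symm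
    have hPP : ((Matrix.single a a (1 : ℂ) + Matrix.single b b 1) *
        (Matrix.single a a (1 : ℂ) + Matrix.single b b 1)) =
        Matrix.single a a (1 : ℂ) + Matrix.single b b 1 := by
      simp [add_mul, mul_add, Matrix.single_mul_single_same, hab, hba]
    have h1 := c3_re h0 h (K := Matrix.single b a (1 : ℂ) - Matrix.single a b 1)
      (P := Matrix.single a a 1 + Matrix.single b b 1)
      (by simp [Matrix.conjTranspose_single, Matrix.conjTranspose_sub])
      (by simp [Matrix.conjTranspose_single, Matrix.conjTranspose_add])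
      hPP
      (by simp [sub_mul, mul_sub, Matrix.single_mul_single_same, hab, hba]; abel)
      (by simp [add_mul, mul_sub, Matrix.single_mul_single_same, hab, hba]; try abel)
      (by simp [sub_mul, mul_add, Matrix.single_mul_single_same, hab, hba]; try abel)
    have h2 := c3_re h0 h (K := Matrix.single b a Complex.I + Matrix.single a b Complex.I)
      (P := Matrix.single a a 1 + Matrix.single b b 1)
      (by
        simp only [Matrix.conjTranspose_add, Matrix.conjTranspose_single, Complex.star_def, Complex.conj_I]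
        ext i j
        simp [Matrix.single_apply]
        split_ifs <;> simp)
      (by simp [Matrix.conjTranspose_single, Matrix.conjTranspose_add])
      hPP
      (by
        simp only [add_mul, mul_add, Matrix.single_mul_single_same, Complex.I_mul_I]
        simp [hab, hba]
        ext i j
        simp [Matrix.single_apply]
        split_ifs <;> simp)
      (by simp [add_mul, mul_add, Matrix.single_mul_single_same, hab, hba]; try abel)
      (by simp [add_mul, mul_add, Matrix.single_mul_single_same, hab, hba]; try abel)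
    rw [Matrix.sub_mul, Matrix.trace_sub, tr1, tr1] at h1
    rw [Matrix.add_mul, Matrix.trace_add, tr1, tr1] at h2
    simp at h1 h2
    apply Complex.ext
    · simp
      linarith
    · simp
      linarith
  ext i j
  rw [Matrix.conjTranspose_apply]
  by_cases hij : i = j
  · subst hij
    apply Complex.ext
    · simp
    · simp [diag i]
  · exact off i j hij

end HRP
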