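import Mathlib
import Pool.Agent.HRP.C3

/-!
# HRP-C4 : maximum principle

Statement: `T : ℂ → Matrix (Fin n) (Fin n) ℂ` with entries holomorphic on the disc `|z| < ρ`,
`U₀` unitary, `S ≥ 0`, `‖∑ i j, U i j T(z) i j‖ ≤ S` for all unitary `U` and `|z| < ρ`, and
`∑ i j, U₀ i j T(0) i j = S`. Then `T z = T 0` for all `|z| < ρ`.

Proof. (1) `F z = ∑ i j, U₀ i j T(z) i j` is holomorphic on the disc, `‖F‖ ≤ S = F 0`: maximum
modulus principle: `F z = S` on the disc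
(`Complex.eqOn_of_isPreconnected_of_isMaxOn_norm`). (2) `M z = T(z)ᵀ U₀`, i.e.
`M_jk = ∑ i, T_ij U₀_ik`: `tr (V (M z)) = ∑ i j, (U₀ V)_ij T_ij`, and `U₀ V` is unitary; so
`‖tr (V M)‖ ≤ S` for all unitary `V` and `tr M = F = S`: `M z` is Hermitian
(`isHermitian_of_norm_trace_le`). (3) A holomorphic function on a disc with real values is
constant; apply it to `M_jk + M_kj` and `i (M_jk - M_kj)`: `M z = M 0`. (4) `U₀` is invertible:
`T z = T 0`.
-/

namespace HRP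

open Matrix Set

/-- a real valued holomorphic function on a disc is constant. -/
theorem eq_of_real_valued {f : ℂ → ℂ} {ρ : ℝ} (hf : DifferentiableOn ℂ f (Metric.ball 0 ρ))
    (hr : ∀ z ∈ Metric.ball (0 : ℂ) ρ, (f z).im = 0) {z : ℂ} (hz : z ∈ Metric.ball (0 : ℂ) ρ) :
    f z = f 0 := by
  have hρ : 0 < ρ := Metric.pos_of_mem_ball hz
  have h0 : (0 : ℂ) ∈ Metric.ball (0 : ℂ) ρ := Metric.mem_ball_self hρ
  have han : AnalyticOnNhd ℂ f (Metric.ball 0 ρ) := hf.analyticOnNhd Metric.isOpen_ball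
  rcases han.is_constant_or_isOpen (convex_ball (0 : ℂ) ρ).isPreconnected with ⟨w, hw⟩ | hopen
  · rw [hw z hz, hw 0 h0]
  · exfalso
    have h1 := hopen (Metric.ball 0 ρ) subset_rfl Metric.isOpen_ball
    obtain ⟨ε, hε, h2⟩ := Metric.isOpen_iff.1 h1 (f 0) ⟨0, h0, rfl⟩
    have h3 : f 0 + ((ε / 2 : ℝ) : ℂ) * Complex.I ∈ Metric.ball (f 0) ε := by
      rw [Metric.mem_ball, dist_eq_norm, add_sub_cancel_left, norm_mul, Complex.norm_I, mul_one,
        Complex.norm_real, Real.norm_eq_abs, abs_of_pos (by linarith)]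
      linarith
    obtain ⟨w, hw, hw2⟩ := h2 h3
    have h4 := hr w hw
    have h5 := hr 0 h0
    rw [hw2, Complex.add_im, h5, Complex.mul_im, Complex.I_re, Complex.I_im, Complex.ofReal_re] at h4
    simp at h4
    linarith

theorem eq_of_unitary_bound {n : ℕ} {T : ℂ → Matrix (Fin n) (Fin n) ℂ} {ρ S : ℝ}
    (hT : ∀ i j, DifferentiableOn ℂ (fun z => T z i j) (Metric.ball 0 ρ))
    {U₀ : Matrix (Fin n) (Fin n) ℂ} (hU₀ : U₀ᴴ * U₀ = 1)
    (h : ∀ z ∈ Metric.ball (0 : ℂ) ρ, ∀ U : Matrix (Fin n) (Fin n) ℂ, Uᴴ * U = 1 →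
      ‖∑ i, ∑ j, U i j * T z i j‖ ≤ S)
    (h0 : ∑ i, ∑ j, U₀ i j * T 0 i j = (S : ℂ)) {z : ℂ} (hz : z ∈ Metric.ball (0 : ℂ) ρ) :
    T z = T 0 := by
  have hρ : 0 < ρ := Metric.pos_of_mem_ball hz
  have h00 : (0 : ℂ) ∈ Metric.ball (0 : ℂ) ρ := Metric.mem_ball_self hρ
  have hS : 0 ≤ S := (norm_nonneg _).trans (h 0 h00 U₀ hU₀)
  -- (1)
  have hF : ∀ w ∈ Metric.ball (0 : ℂ) ρ, ∑ i, ∑ j, U₀ i j * T w i j = (S : ℂ) := by
    have hd : DifferentiableOn ℂ (fun w => ∑ i, ∑ j, U₀ i j * T w i j) (Metric.ball 0 ρ) := by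
      refine DifferentiableOn.fun_sum fun i _ => DifferentiableOn.fun_sum fun j _ => ?_
      exact (hT i j).const_mul _
    have hmax : IsMaxOn (norm ∘ fun w => ∑ i, ∑ j, U₀ i j * T w i j) (Metric.ball 0 ρ) 0 := by
      intro w hw
      have h1 := h w hw U₀ hU₀
      show ‖∑ i, ∑ j, U₀ i j * T w i j‖ ≤ ‖∑ i, ∑ j, U₀ i j * T 0 i j‖
      rw [h0, Complex.norm_real, Real.norm_eq_abs, abs_of_nonneg hS]
      exact h1
    have h2 := Complex.eqOn_of_isPreconnected_of_isMaxOn_norm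
      (convex_ball (0 : ℂ) ρ).isPreconnected Metric.isOpen_ball hd h00 hmax
    intro w hw
    have h3 := h2 hw
    simp only [Function.const_apply] at h3
    rw [h3, h0]
  -- (2)
  have htr : ∀ (w : ℂ) (V : Matrix (Fin n) (Fin n) ℂ), (V * ((T w)ᵀ * U₀)).trace =
      ∑ i, ∑ j, (U₀ * V) i j * T w i j := by
    intro w V
    rw [← Matrix.mul_assoc, Matrix.trace_mul_comm, ← Matrix.mul_assoc, Matrix.trace]
    refine Finset.sum_congr rfl fun i _ => ?_
    rw [Matrix.diag_apply, Matrix.mul_apply]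
    rfl
  have hH : ∀ w ∈ Metric.ball (0 : ℂ) ρ, ((T w)ᵀ * U₀).IsHermitian := by
    intro w hw
    refine isHermitian_of_norm_trace_le (S := S) ?_ ?_
    · have h1 := htr w 1
      rw [Matrix.one_mul, Matrix.mul_one] at h1
      rw [h1, hF w hw]
    · intro V hV
      rw [htr w V]
      refine h w hw _ ?_
      rw [Matrix.conjTranspose_mul, Matrix.mul_assoc, ← Matrix.mul_assoc U₀ᴴ, hU₀, Matrix.one_mul, hV]
  -- (3)
  have hdM : ∀ j k, DifferentiableOn ℂ (fun w => ((T w)ᵀ * U₀) j k) (Metric.ball 0 ρ) := by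
    intro j k
    simp only [Matrix.mul_apply, Matrix.transpose_apply]
    refine DifferentiableOn.fun_sum fun i _ => ?_
    exact (hT i j).mul_const _
  have hM : (T z)ᵀ * U₀ = (T 0)ᵀ * U₀ := by
    ext j k
    have hs : ∀ w ∈ Metric.ball (0 : ℂ) ρ, star (((T w)ᵀ * U₀) k j) = ((T w)ᵀ * U₀) j k :=
      fun w hw => (hH w hw).apply j k
    have h1 : ((T z)ᵀ * U₀) j k + ((T z)ᵀ * U₀) k j = ((T 0)ᵀ * U₀) j k + ((T 0)ᵀ * U₀) k j := by
      refine eq_of_real_valued (f := fun w => ((T w)ᵀ * U₀) j k + ((T w)ᵀ * U₀) k j)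
        ((hdM j k).add (hdM k j)) ?_ hz
      intro w hw
      show (((T w)ᵀ * U₀) j k + ((T w)ᵀ * U₀) k j).im = 0
      rw [← hs w hw]
      simp
    have h2 : Complex.I * (((T z)ᵀ * U₀) j k - ((T z)ᵀ * U₀) k j) =
        Complex.I * (((T 0)ᵀ * U₀) j k - ((T 0)ᵀ * U₀) k j) := by
      refine eq_of_real_valued (f := fun w => Complex.I * (((T w)ᵀ * U₀) j k - ((T w)ᵀ * U₀) k j))
        (((hdM j k).sub (hdM k j)).const_mul _) ?_ hz
      intro w hw
      show (Complex.I * (((T w)ᵀ * U₀) j k - ((T w)ᵀ * U₀) k j)).im = 0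
      rw [← hs w hw]
      simp
    have h3 := mul_left_cancel₀ Complex.I_ne_zero h2
    linear_combination (h1 + h3) / 2
  -- (4)
  have hU1 : U₀ * U₀ᴴ = 1 := mul_eq_one_comm.1 hU₀
  have h5 : (T z)ᵀ * U₀ * U₀ᴴ = (T 0)ᵀ * U₀ * U₀ᴴ := by rw [hM]
  rw [Matrix.mul_assoc, Matrix.mul_assoc, hU1, Matrix.mul_one, Matrix.mul_one] at h5
  exact Matrix.transpose_injective h5

end HRP
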