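import Pool.Agent.HRP.A1
import Pool.Agent.HRP.A2

/-!
# HRP-C5a : two lemmas for Lemma E

* `norm_unitary_sum_le`: Cauchy-Schwarz: `∑ i, w i (∑ j, U i j w j)`, the vector `U w` has the same
  Euclidean norm as `w`.
* `exists_trace_ne`: let `t = 1 - tr (P Q) ≠ 0`. By `exists_qP_ne` there is `φ` with
  `p = q_P(φ) ≠ 0`; let `q = q_Q(φ)`. If for all small `z ≠ 0` `t / ((1 + z p)(1 + z q)) = t` then
  `(1 + z p)(1 + z q) = 1`, `p + q + z p q = 0` for all small `z ≠ 0`; two different values of `z`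
  give `p q = 0` and `p + q = 0`, so `p = 0`: contradiction. (Careful with division by zero: for
  small `z` the denominators are not zero; or: if the denominator is `0` then the left side is
  `0 ≠ t`.)
-/

namespace HRP

open Matrix

variable {n : ℕ}

/-- a unitary matrix preserves the square norm -/
theorem c5a_norm {U : Matrix (Fin n) (Fin n) ℂ} (hU : Uᴴ * U = 1) (x : Fin n → ℂ) :
    ∑ i, ‖(U *ᵥ x) i‖ ^ 2 = ∑ i, ‖x i‖ ^ 2 := by
  have key : ∀ y : Fin n → ℂ, ((∑ i, ‖y i‖ ^ 2 : ℝ) : ℂ) = star y ⬝ᵥ y := by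
    intro y
    rw [dotProduct]
    push_cast
    refine Finset.sum_congr rfl fun i _ => ?_
    rw [Pi.star_apply, ← Complex.conj_mul']
    rfl
  have h : ((∑ i, ‖(U *ᵥ x) i‖ ^ 2 : ℝ) : ℂ) = ((∑ i, ‖x i‖ ^ 2 : ℝ) : ℂ) := by
    rw [key, key, Matrix.star_mulVec, ← Matrix.dotProduct_mulVec, Matrix.mulVec_mulVec, hU,
      Matrix.one_mulVec]
  exact_mod_cast h

/-- Cauchy-Schwarz for unitary matrices: `‖∑ U i j w i w j‖ ≤ ∑ w i²`. -/
theorem norm_unitary_sum_le {U : Matrix (Fin n) (Fin n) ℂ} (hU : Uᴴ * U = 1) (w : Fin n → ℝ) :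
    ‖∑ i, ∑ j, U i j * ((w i * w j : ℝ) : ℂ)‖ ≤ ∑ i, w i ^ 2 := by
  set x : Fin n → ℂ := fun i => (w i : ℂ) with hx
  have h1 := c5a_norm hU x
  have h2 : ∑ i, ‖x i‖ ^ 2 = ∑ i, w i ^ 2 := by
    refine Finset.sum_congr rfl fun i _ => ?_
    rw [hx]
    simp only [Complex.norm_real, Real.norm_eq_abs, sq_abs]
  have h3 : ∀ i, ∑ j, U i j * ((w i * w j : ℝ) : ℂ) = (w i : ℂ) * (U *ᵥ x) i := by
    intro i
    rw [Matrix.mulVec, dotProduct, Finset.mul_sum]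
    refine Finset.sum_congr rfl fun j _ => ?_
    rw [hx]
    push_cast
    ring
  calc ‖∑ i, ∑ j, U i j * ((w i * w j : ℝ) : ℂ)‖ = ‖∑ i, (w i : ℂ) * (U *ᵥ x) i‖ := by
        rw [Finset.sum_congr rfl fun i _ => h3 i]
    _ ≤ ∑ i, ‖(w i : ℂ) * (U *ᵥ x) i‖ := norm_sum_le _ _
    _ ≤ ∑ i, (w i ^ 2 + ‖(U *ᵥ x) i‖ ^ 2) / 2 := by
        refine Finset.sum_le_sum fun i _ => ?_
        rw [norm_mul, Complex.norm_real, Real.norm_eq_abs]
        have h4 := sq_abs (w i)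
        nlinarith [sq_nonneg (|w i| - ‖(U *ᵥ x) i‖)]
    _ = ∑ i, w i ^ 2 := by
        rw [← Finset.sum_div, Finset.sum_add_distrib, h1, h2]
        ring

/-- non constancy: if `tr (P Q) ≠ 1` then there are `φ` and arbitrarily small `z` with
`(1 - tr (P Q)) / ((1 + z q_P(φ)) (1 + z q_Q(φ))) ≠ 1 - tr (P Q)`. -/
theorem exists_trace_ne {P Q : Mat} (hP : IsPl P) (hQ : IsPl Q) (h : (P * Q).trace ≠ 1) :
    ∃ φ : V, ∀ ρ : ℝ, 0 < ρ → ∃ z : ℂ, ‖z‖ < ρ ∧
      (1 - (P * Q).trace) / ((1 + z * qP P φ) * (1 + z * qP Q φ)) ≠ 1 - (P * Q).trace := by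
  obtain ⟨φ, hφ⟩ := exists_qP_ne hP
  refine ⟨φ, fun ρ hρ => ?_⟩
  by_contra hcon
  push Not at hcon
  set t : ℂ := 1 - (P * Q).trace with ht
  set p : ℂ := qP P φ with hp
  set q : ℂ := qP Q φ with hq
  have ht0 : t ≠ 0 := by
    rw [ht]
    exact sub_ne_zero.mpr (Ne.symm h)
  have key : ∀ z : ℂ, ‖z‖ < ρ → z ≠ 0 → p + q + z * (p * q) = 0 := by
    intro z hz hz0
    have h1 := hcon z hz
    have hD : (1 + z * p) * (1 + z * q) ≠ 0 := by
      intro h0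
      rw [h0, div_zero] at h1
      exact ht0 h1.symm
    rw [div_eq_iff hD] at h1
    have h2 : t * (((1 + z * p) * (1 + z * q)) - 1) = 0 := by linear_combination -h1
    have h3 : (1 + z * p) * (1 + z * q) - 1 = 0 := by
      rcases mul_eq_zero.mp h2 with h4 | h4
      · exact absurd h4 ht0
      · exact h4
    have h4 : z * (p + q + z * (p * q)) = 0 := by linear_combination h3
    rcases mul_eq_zero.mp h4 with h5 | h5
    · exact absurd h5 hz0
    · exact h5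
  have e1 : ‖((ρ / 2 : ℝ) : ℂ)‖ < ρ := by
    rw [Complex.norm_real, Real.norm_eq_abs, abs_of_pos (by linarith)]
    linarith
  have e2 : ‖((ρ / 3 : ℝ) : ℂ)‖ < ρ := by
    rw [Complex.norm_real, Real.norm_eq_abs, abs_of_pos (by linarith)]
    linarith
  have n1 : ((ρ / 2 : ℝ) : ℂ) ≠ 0 := by exact_mod_cast (by linarith : (0 : ℝ) < ρ / 2).ne'
  have n2 : ((ρ / 3 : ℝ) : ℂ) ≠ 0 := by exact_mod_cast (by linarith : (0 : ℝ) < ρ / 3).ne'
  have n3 : (ρ : ℂ) ≠ 0 := by exact_mod_cast hρ.ne'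
  have k1 := key _ e1 n1
  have k2 := key _ e2 n2
  push_cast at k1 k2
  have k3 : (ρ : ℂ) * (p * q) = 0 := by linear_combination 6 * k1 - 6 * k2
  have k4 : p * q = 0 := by
    rcases mul_eq_zero.mp k3 with h5 | h5
    · exact absurd h5 n3
    · exact h5
  have k5 : q = 0 := by
    rcases mul_eq_zero.mp k4 with h5 | h5
    · exact absurd h5 hφ
    · exact h5
  rw [k5] at k1
  apply hφ
  linear_combination k1

end HRP
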