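import Pool.Agent.HRP.C2
import Pool.Agent.HRP.C4
import Pool.Agent.HRP.C5a

/-!
# HRP-C5 : Lemma E

`P i` planes, `μ i ≥ 0`, `∑ μ i = 1`, minimal (`∑ μ i (P i P iᴴ - P iᴴ P i) = 0`) and
`c = ∑ μ i nsq (P i) - 1 > 0`. For every `ρ > 0` there are `g`, `det g = 1`, `nsq (g - 1) < ρ`,
`tr (P i g) ≠ 0` for all `i`, and a unitary `U` with `‖TS U μ (P^g)‖ > 1/2 + c`.

Proof. `S = 1/2 + c = ∑ μ i nsq (P i) - 1/2`. Suppose not. Let `φ : V` be arbitrary,
`g_z = 1 + z n(φ)` (`det = 1`, `det_one_add_nil`), `tr (P i g_z) = 1 + z q_{P i}(φ)`. For `|z| < ρ'`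
(small, depending on `φ`) `nsq (g_z - 1) = |z|² |φ|⁴ < ρ`, `1 + z q_{P i}(φ) ≠ 0`. Put
`T z i j = w i w j (tr (P i^{g_z} P j^{g_z}) - 1/2)`, `w i = √(μ i)`; by `trace_mvP_mul`
`T z i j = w i w j (1/2 - (1 - tr (P i P j)) / ((1 + z q_i)(1 + z q_j)))` on this disc (take this
formula as the definition of `T`: it is visibly holomorphic). With `U₀` of
`exists_unitary_min` and `TS_eq_of_min` (`T 0`): `∑ U₀ i j T 0 i j = S`; by the
assumption `‖∑ U i j T z i j‖ ≤ S` for all unitary `U`. `eq_of_unitary_bound`: `T z = T 0`. So for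
`i, j` with `μ i, μ j > 0`: `(1 - tr (P i P j)) / ((1 + z q_i)(1 + z q_j)) = 1 - tr (P i P j)` for all
small `z` and all `φ`, so `tr (P i P j) = 1` by `exists_trace_ne`. Hence
`S = ∑ U₀ i j w i w j (1/2)` (if `μ i = 0` or `μ j = 0` the terms vanish),
`|S| ≤ 1/2 ∑ μ i = 1/2` (`norm_unitary_sum_le`), i.e. `c ≤ 0`: contradiction.
-/

namespace HRP

open Matrix

variable {n : ℕ}

/-- the holomorphic family of Lemma E -/
noncomputable def c5_T (μ : Fin n → ℝ) (P : Fin n → Mat) (φ : V) (z : ℂ) :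
    Matrix (Fin n) (Fin n) ℂ := fun i j =>
  ((Real.sqrt (μ i) * Real.sqrt (μ j) : ℝ) : ℂ) *
    (1 / 2 - (1 - (P i * P j).trace) / ((1 + z * qP (P i) φ) * (1 + z * qP (P j) φ)))

theorem c5_trace {P : Mat} (hP : IsPl P) (φ : V) (z : ℂ) :
    (P * (1 + z • nil φ)).trace = 1 + z * qP P φ := by
  rw [Matrix.mul_add, Matrix.mul_one, Matrix.trace_add, hP.1, Matrix.mul_smul, Matrix.trace_smul,
    smul_eq_mul, qP]

theorem c5_TS {μ : Fin n → ℝ} {P : Fin n → Mat} (hP : ∀ i, IsPl (P i)) (φ : V) (z : ℂ)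
    (hz : ∀ i, 1 + z * qP (P i) φ ≠ 0) (U : Matrix (Fin n) (Fin n) ℂ) :
    ∑ i, ∑ j, U i j * c5_T μ P φ z i j = TS U μ (fun i => mvP (P i) (1 + z • nil φ)) := by
  rw [TS]
  refine Finset.sum_congr rfl (fun i _ => Finset.sum_congr rfl (fun j _ => ?_))
  show U i j * c5_T μ P φ z i j = U i j * ((Real.sqrt (μ i) * Real.sqrt (μ j) : ℝ) : ℂ) *
    ((mvP (P i) (1 + z • nil φ) * mvP (P j) (1 + z • nil φ)).trace - 1 / 2)
  rw [trace_mvP_mul (hP i) (hP j) (det_one_add_nil z φ) (by rw [c5_trace (hP i)]; exact hz i)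
    (by rw [c5_trace (hP j)]; exact hz j), c5_trace (hP i), c5_trace (hP j), c5_T]
  ring

theorem c5_TS0 {μ : Fin n → ℝ} {P : Fin n → Mat} (φ : V) (U : Matrix (Fin n) (Fin n) ℂ) :
    ∑ i, ∑ j, U i j * c5_T μ P φ 0 i j = TS U μ P := by
  rw [TS]
  refine Finset.sum_congr rfl (fun i _ => Finset.sum_congr rfl (fun j _ => ?_))
  rw [c5_T]
  simp only [zero_mul, add_zero, mul_one, div_one]
  ring

theorem c5_radius {P : Fin n → Mat} (φ : V) {ρ : ℝ} (hρ : 0 < ρ) :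
    ∃ r : ℝ, 0 < r ∧ ∀ z ∈ Metric.ball (0 : ℂ) r,
      nsq ((1 + z • nil φ) - 1) < ρ ∧ ∀ i, 1 + z * qP (P i) φ ≠ 0 := by
  have h1 : ∀ᶠ z in nhds (0 : ℂ), nsq ((1 + z • nil φ) - 1) < ρ := by
    have hc : Continuous (fun z : ℂ => Complex.normSq z * nsq (nil φ)) :=
      Complex.continuous_normSq.mul continuous_const
    have h0 : (fun z : ℂ => Complex.normSq z * nsq (nil φ)) 0 < ρ := by
      show Complex.normSq 0 * nsq (nil φ) < ρ
      rw [map_zero, zero_mul]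
      exact hρ
    filter_upwards [hc.continuousAt.eventually_lt continuousAt_const h0] with z hz
    rw [add_sub_cancel_left, nsq_smul]
    exact hz
  have h2 : ∀ᶠ z in nhds (0 : ℂ), ∀ i, 1 + z * qP (P i) φ ≠ 0 := by
    rw [Filter.eventually_all]
    intro i
    have hc : Continuous (fun z : ℂ => 1 + z * qP (P i) φ) := by fun_prop
    have h0 : (fun z : ℂ => 1 + z * qP (P i) φ) 0 ≠ 0 := by
      show 1 + 0 * qP (P i) φ ≠ 0
      rw [zero_mul, add_zero]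
      exact one_ne_zero
    exact hc.continuousAt.eventually_ne h0
  obtain ⟨r, hr, h⟩ := Metric.eventually_nhds_iff_ball.1 (h1.and h2)
  exact ⟨r, hr, h⟩

theorem lemmaE {μ : Fin n → ℝ} (hμ : ∀ i, 0 ≤ μ i) (hμ1 : ∑ i, μ i = 1) {P : Fin n → Mat}
    (hP : ∀ i, IsPl (P i)) (hmin : ∑ i, (μ i : ℂ) • (P i * (P i)ᴴ - (P i)ᴴ * P i) = 0)
    {c : ℝ} (hc : 0 < c) (hS : ∑ i, μ i * nsq (P i) = 1 + c) {ρ : ℝ} (hρ : 0 < ρ) :
    ∃ g : Mat, g.det = 1 ∧ nsq (g - 1) < ρ ∧ (∀ i, (P i * g).trace ≠ 0) ∧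
      ∃ U : Matrix (Fin n) (Fin n) ℂ, Uᴴ * U = 1 ∧
        1 / 2 + c < ‖TS U μ (fun i => mvP (P i) g)‖ := by
  by_contra hcon
  push Not at hcon
  obtain ⟨U₀, hU₀, hmin₀⟩ := exists_unitary_min hμ hP hmin
  have hTS : TS U₀ μ P = ((1 / 2 + c : ℝ) : ℂ) := by
    rw [TS_eq_of_min hμ hP hmin₀, hS, hμ1]
    congr 1
    ring
  -- constancy of the family
  have hconst : ∀ φ : V, ∃ r : ℝ, 0 < r ∧ ∀ z ∈ Metric.ball (0 : ℂ) r,
      c5_T μ P φ z = c5_T μ P φ 0 := by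
    intro φ
    obtain ⟨r, hr, hball⟩ := c5_radius (P := P) φ hρ
    refine ⟨r, hr, fun z hz => ?_⟩
    refine eq_of_unitary_bound (ρ := r) (S := 1 / 2 + c) ?_ hU₀ ?_ ?_ hz
    · intro i j
      have h1 : ∀ z ∈ Metric.ball (0 : ℂ) r,
          (1 + z * qP (P i) φ) * (1 + z * qP (P j) φ) ≠ 0 := fun z hz =>
        mul_ne_zero ((hball z hz).2 i) ((hball z hz).2 j)
      have h2 : DifferentiableOn ℂ (fun z : ℂ => (1 + z * qP (P i) φ) * (1 + z * qP (P j) φ))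
          (Metric.ball 0 r) := by
        fun_prop
      have h3 : DifferentiableOn ℂ (fun z : ℂ => (1 - (P i * P j).trace) /
          ((1 + z * qP (P i) φ) * (1 + z * qP (P j) φ))) (Metric.ball 0 r) :=
        (differentiableOn_const _).div h2 h1
      exact ((differentiableOn_const (1 / 2 : ℂ)).sub h3).const_mul _
    · intro z hz U hU
      rw [c5_TS hP φ z (hball z hz).2 U]
      refine hcon (1 + z • nil φ) (det_one_add_nil z φ) (hball z hz).1 (fun i => ?_) U hU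
      rw [c5_trace (hP i)]
      exact (hball z hz).2 i
    · rw [c5_TS0, hTS]
  -- all traces are one
  have htr : ∀ i j, Real.sqrt (μ i) * Real.sqrt (μ j) ≠ 0 → (P i * P j).trace = 1 := by
    intro i j hw
    by_contra hne
    obtain ⟨φ, hφ⟩ := exists_trace_ne (hP i) (hP j) hne
    obtain ⟨r, hr, hT⟩ := hconst φ
    obtain ⟨z, hz, hzne⟩ := hφ r hr
    have h1 := congrFun (congrFun (hT z (by rwa [mem_ball_zero_iff])) i) j
    rw [c5_T, c5_T] at h1
    have hw' : ((Real.sqrt (μ i) * Real.sqrt (μ j) : ℝ) : ℂ) ≠ 0 := by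
      exact_mod_cast hw
    have h2 := mul_left_cancel₀ hw' h1
    simp only [zero_mul, add_zero, mul_one, div_one] at h2
    apply hzne
    linear_combination -h2
  have hsum : TS U₀ μ P = (∑ i, ∑ j, U₀ i j * ((Real.sqrt (μ i) * Real.sqrt (μ j) : ℝ) : ℂ)) *
      (1 / 2) := by
    rw [TS, Finset.sum_mul]
    refine Finset.sum_congr rfl (fun i _ => ?_)
    rw [Finset.sum_mul]
    refine Finset.sum_congr rfl (fun j _ => ?_)
    by_cases hw : Real.sqrt (μ i) * Real.sqrt (μ j) = 0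
    · rw [hw, Complex.ofReal_zero, mul_zero, zero_mul, zero_mul]
    · rw [htr i j hw]
      norm_num
  have hnorm : ‖TS U₀ μ P‖ ≤ 1 / 2 := by
    rw [hsum, norm_mul]
    have h1 := norm_unitary_sum_le hU₀ (fun i => Real.sqrt (μ i))
    have h2 : ∑ i, (fun i => Real.sqrt (μ i)) i ^ 2 = 1 := by
      rw [← hμ1]
      exact Finset.sum_congr rfl (fun i _ => Real.sq_sqrt (hμ i))
    rw [h2] at h1
    have h3 : ‖(1 / 2 : ℂ)‖ = 1 / 2 := by norm_num
    rw [h3]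
    linarith
  rw [hTS, Complex.norm_real, Real.norm_eq_abs, abs_of_nonneg (by linarith)] at hnorm
  linarith

end HRP
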