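import Pool.Agent.HRP.C5
import Pool.Agent.HRP.A8

/-!
# HRP-C6 : Lemma E, robust form

For sequences `P' m i → P i` of planes and weights `μ' m i → μ i` (`m → ∞`), with the `g` of
`lemmaE` there is `η > 0` such that for all large `m` and all `k` with `det k = 1`:
`c + η ≤ ∑ μ' m i nsq (k (P' m i)^g k⁻¹) - 1`.
Proof: `‖TS U (μ' m) ((P' m)^g)‖ → ‖TS U μ (P^g)‖ > 1/2 + c` (continuity: `tr (P i g) ≠ 0`, `√`
continuous), and `norm_TS_le` with `∑ i, μ' m i = 1`.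
-/

namespace HRP

open Matrix Filter Topology

variable {n : ℕ}

theorem c6_mvP_tendsto {P' : ℕ → Mat} {P g : Mat} (h : Tendsto P' atTop (𝓝 P))
    (hg : (P * g).trace ≠ 0) : Tendsto (fun m => mvP (P' m) g) atTop (𝓝 (mvP P g)) := by
  have hm : Tendsto (fun m => P' m * g) atTop (𝓝 (P * g)) := h.mul tendsto_const_nhds
  have ht : Tendsto (fun m => (P' m * g).trace) atTop (𝓝 (P * g).trace) :=
    ((continuous_id.matrix_trace).tendsto (P * g)).comp hm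
  exact (ht.inv₀ hg).smul hm

theorem c6_TS_tendsto {U : Matrix (Fin n) (Fin n) ℂ} {μ' : ℕ → Fin n → ℝ} {μ : Fin n → ℝ}
    {Q' : ℕ → Fin n → Mat} {Q : Fin n → Mat}
    (h1 : ∀ i, Tendsto (fun m => μ' m i) atTop (𝓝 (μ i)))
    (h2 : ∀ i, Tendsto (fun m => Q' m i) atTop (𝓝 (Q i))) :
    Tendsto (fun m => TS U (μ' m) (Q' m)) atTop (𝓝 (TS U μ Q)) := by
  unfold TS
  refine tendsto_finsetSum _ fun i _ => tendsto_finsetSum _ fun j _ => ?_
  have e1 : Tendsto (fun m => ((Real.sqrt (μ' m i) * Real.sqrt (μ' m j) : ℝ) : ℂ)) atTop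
      (𝓝 ((Real.sqrt (μ i) * Real.sqrt (μ j) : ℝ) : ℂ)) :=
    (Complex.continuous_ofReal.tendsto _).comp
      (((Real.continuous_sqrt.tendsto _).comp (h1 i)).mul
        ((Real.continuous_sqrt.tendsto _).comp (h1 j)))
  have e2 : Tendsto (fun m => (Q' m i * Q' m j).trace) atTop (𝓝 (Q i * Q j).trace) :=
    ((continuous_id.matrix_trace).tendsto (Q i * Q j)).comp ((h2 i).mul (h2 j))
  exact (tendsto_const_nhds.mul e1).mul (e2.sub tendsto_const_nhds)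

theorem lemmaE_robust {μ : Fin n → ℝ} (hμ : ∀ i, 0 ≤ μ i) (hμ1 : ∑ i, μ i = 1) {P : Fin n → Mat}
    (hP : ∀ i, IsPl (P i)) (hmin : ∑ i, (μ i : ℂ) • (P i * (P i)ᴴ - (P i)ᴴ * P i) = 0)
    {c : ℝ} (hc : 0 < c) (hS : ∑ i, μ i * nsq (P i) = 1 + c)
    {μ' : ℕ → Fin n → ℝ} (hμ' : ∀ m i, 0 ≤ μ' m i) (hμ'1 : ∀ m, ∑ i, μ' m i = 1)
    {P' : ℕ → Fin n → Mat} (hP' : ∀ m i, IsPl (P' m i))
    (h1 : ∀ i, Tendsto (fun m => μ' m i) atTop (𝓝 (μ i)))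
    (h2 : ∀ i, Tendsto (fun m => P' m i) atTop (𝓝 (P i))) {ρ : ℝ} (hρ : 0 < ρ) :
    ∃ g : Mat, g.det = 1 ∧ nsq (g - 1) < ρ ∧ ∃ η : ℝ, 0 < η ∧ ∀ᶠ m in atTop, ∀ k : Mat,
      k.det = 1 → c + η ≤ ∑ i, μ' m i * nsq (k * mvP (P' m i) g * k⁻¹) - 1 := by
  obtain ⟨g, hg, hgρ, htr, U, hU, hlt⟩ := lemmaE hμ hμ1 hP hmin hc hS hρ
  refine ⟨g, hg, hgρ, (‖TS U μ (fun i => mvP (P i) g)‖ - (1 / 2 + c)) / 2, by linarith, ?_⟩
  have hQ : ∀ i, Tendsto (fun m => mvP (P' m i) g) atTop (𝓝 (mvP (P i) g)) :=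
    fun i => c6_mvP_tendsto (h2 i) (htr i)
  have hT := (c6_TS_tendsto (U := U) (Q' := fun m i => mvP (P' m i) g)
    (Q := fun i => mvP (P i) g) h1 hQ).norm
  have ev1 : ∀ᶠ m in atTop, 1 / 2 + c + (‖TS U μ (fun i => mvP (P i) g)‖ - (1 / 2 + c)) / 2
      < ‖TS U (μ' m) (fun i => mvP (P' m i) g)‖ := hT.eventually_const_lt (by linarith)
  have ev2 : ∀ᶠ m in atTop, ∀ i, (P' m i * g).trace ≠ 0 := by
    rw [Filter.eventually_all]
    intro i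
    have hm : Tendsto (fun m => P' m i * g) atTop (𝓝 (P i * g)) := (h2 i).mul tendsto_const_nhds
    have ht : Tendsto (fun m => (P' m i * g).trace) atTop (𝓝 (P i * g).trace) :=
      ((continuous_id.matrix_trace).tendsto (P i * g)).comp hm
    exact ht.eventually_ne (htr i)
  filter_upwards [ev1, ev2] with m hm1 hm2 k hk
  have hle := norm_TS_le (hμ' m) (Q := fun i => mvP (P' m i) g)
    (fun i => isPl_mvP (hP' m i) (hm2 i)) hU hk
  rw [hμ'1 m] at hle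
  linarith

end HRP
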