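import Pool.Agent.HRP.A3
import Pool.Agent.HRP.A8
import Pool.Agent.HRP.A9

/-!
# HRP-C7 : growth of a minimal configuration (6.1)

`P i` planes, `μ i ≥ 0`, `∑ μ i = 1`, `∑ μ i (P i P iᴴ - P iᴴ P i) = 0`, `∑ μ i nsq (P i) = 1 + c`.
For every special unitary `u` and real `s`:
`∑ μ i nsq (u⁻¹ Dg s u (P i) (u⁻¹ Dg s u)⁻¹) ≥ 1 + c + (c/2) (cosh 2s - 1)`.

Proof. `Q i = u (P i) u⁻¹`; `nsq (u⁻¹ Dg s u P (u⁻¹ Dg s u)⁻¹) = nsq (Dg s Q (Dg s)⁻¹)
= |Q00|² + |Q11|² + e^{2s} |Q01|² + e^{-2s} |Q10|²` (`IsU.nsq_conj`, `nsq_Dg_conj`). The `(0,0)` entry of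
`∑ μ i (Q i Q iᴴ - Q iᴴ Q i) = u (∑ …) u⁻¹ = 0` is `∑ μ i (|Q01|² - |Q10|²) = 0`; put
`b = ∑ μ i |Q01|² = ∑ μ i |Q10|²`, `a = ∑ μ i (|Q00|² + |Q11|²)`: `a + 2b = 1 + c`, the sum is
`a + 2 b cosh 2s = 1 + c + 2b (cosh 2s - 1)`, and `a ≤ 1 + 2b` (`plane_ineq`), so `4b ≥ c`.

`growth_robust`: for sequences `P' m i → P i`, `μ' m i → μ i`, `r > 0`: there is `η > 0` and `δ > 0`
such that for all large `m`, all `g` with `nsq (g - 1) < δ`, all special unitary `u`, and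
`s = r` or `s = -r`: `c + η ≤ ∑ μ' m i nsq (u⁻¹ Dg s u (P' m i)^g (u⁻¹ Dg s u)⁻¹) - 1`. Proof: `mvP_near`,
`nsq_conj_near` (`nsq (u⁻¹ Dg s u) = e^s + e^{-s}`), `η = (c/4)(cosh 2r - 1)`.
-/

namespace HRP

open Matrix Filter Topology

variable {n : ℕ}

/-- invertibility of a special unitary matrix -/
theorem c7_det_unit {u : Mat} (hu : IsU u) : IsUnit u.det := by
  rw [hu.2]
  exact isUnit_one

theorem c7_inv {u : Mat} (hu : IsU u) (s : ℝ) : (u⁻¹ * Dg s * u)⁻¹ = u⁻¹ * (Dg s)⁻¹ * u := by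
  rw [Matrix.mul_inv_rev, Matrix.mul_inv_rev, Matrix.nonsing_inv_nonsing_inv u (c7_det_unit hu),
    Matrix.mul_assoc]

theorem c7_det {u : Mat} (hu : IsU u) (s : ℝ) : (u⁻¹ * Dg s * u).det = 1 := by
  rw [Matrix.det_mul, Matrix.det_mul, det_Dg, mul_one, ← Matrix.det_mul,
    Matrix.nonsing_inv_mul u (c7_det_unit hu), Matrix.det_one]

theorem c7_nsq {u : Mat} (hu : IsU u) (s : ℝ) (P : Mat) :
    nsq ((u⁻¹ * Dg s * u) * P * (u⁻¹ * Dg s * u)⁻¹) =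
      nsq (Dg s * (u * P * u⁻¹) * (Dg s)⁻¹) := by
  rw [c7_inv hu s]
  have h1 : (u⁻¹ * Dg s * u) * P * (u⁻¹ * (Dg s)⁻¹ * u) =
      u⁻¹ * (Dg s * (u * P * u⁻¹) * (Dg s)⁻¹) * (u⁻¹)⁻¹ := by
    rw [Matrix.nonsing_inv_nonsing_inv u (c7_det_unit hu)]
    simp only [Matrix.mul_assoc]
  rw [h1, hu.inv.nsq_conj]

/-- the diagonal entry of the commutator -/
theorem c7_entry (Q : Mat) : (Q * Qᴴ - Qᴴ * Q) 0 0 =
    ((Complex.normSq (Q 0 1) - Complex.normSq (Q 1 0) : ℝ) : ℂ) := by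
  rw [Matrix.sub_apply, Matrix.mul_apply, Matrix.mul_apply, Fin.sum_univ_two, Fin.sum_univ_two]
  simp only [Matrix.conjTranspose_apply]
  push_cast
  rw [Complex.normSq_eq_conj_mul_self, Complex.normSq_eq_conj_mul_self]
  simp only [Complex.star_def]
  ring

theorem c7_comm {u : Mat} (hu : IsU u) (P : Mat) :
    (u * P * u⁻¹) * (u * P * u⁻¹)ᴴ - (u * P * u⁻¹)ᴴ * (u * P * u⁻¹) =
      u * (P * Pᴴ - Pᴴ * P) * u⁻¹ := by
  rw [hu.inv_eq, Matrix.conjTranspose_mul, Matrix.conjTranspose_mul, Matrix.conjTranspose_conjTranspose]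
  have h1 : uᴴ * u = 1 := hu.1
  have e1 : u * P * uᴴ * (u * (Pᴴ * uᴴ)) = u * (P * Pᴴ) * uᴴ := by
    calc u * P * uᴴ * (u * (Pᴴ * uᴴ)) = u * P * (uᴴ * u) * (Pᴴ * uᴴ) := by
          simp only [Matrix.mul_assoc]
      _ = u * (P * Pᴴ) * uᴴ := by
          rw [h1, Matrix.mul_one]
          simp only [Matrix.mul_assoc]
  have e2 : u * (Pᴴ * uᴴ) * (u * P * uᴴ) = u * (Pᴴ * P) * uᴴ := by
    calc u * (Pᴴ * uᴴ) * (u * P * uᴴ) = u * Pᴴ * (uᴴ * u) * (P * uᴴ) := by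
          simp only [Matrix.mul_assoc]
      _ = u * (Pᴴ * P) * uᴴ := by
          rw [h1, Matrix.mul_one]
          simp only [Matrix.mul_assoc]
  rw [e1, e2, Matrix.mul_sub, Matrix.sub_mul]

theorem c7_sum_zero {μ : Fin n → ℝ} {P : Fin n → Mat}
    (hmin : ∑ i, (μ i : ℂ) • (P i * (P i)ᴴ - (P i)ᴴ * P i) = 0) {u : Mat} (hu : IsU u) :
    ∑ i, μ i * (Complex.normSq ((u * P i * u⁻¹) 0 1) - Complex.normSq ((u * P i * u⁻¹) 1 0)) = 0 := by
  have h1 : ∑ i, (μ i : ℂ) • ((u * P i * u⁻¹) * (u * P i * u⁻¹)ᴴ -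
      (u * P i * u⁻¹)ᴴ * (u * P i * u⁻¹)) = 0 := by
    have h2 : ∀ i, (μ i : ℂ) • ((u * P i * u⁻¹) * (u * P i * u⁻¹)ᴴ -
        (u * P i * u⁻¹)ᴴ * (u * P i * u⁻¹)) =
        u * ((μ i : ℂ) • (P i * (P i)ᴴ - (P i)ᴴ * P i)) * u⁻¹ := by
      intro i
      rw [c7_comm hu, Matrix.mul_smul, Matrix.smul_mul]
    rw [Finset.sum_congr rfl fun i _ => h2 i, ← Finset.sum_mul, ← Finset.mul_sum, hmin,
      Matrix.mul_zero, Matrix.zero_mul]
  have h3 := congrFun (congrFun h1 0) 0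
  rw [Matrix.sum_apply, Matrix.zero_apply] at h3
  have h4 : ((∑ i, μ i * (Complex.normSq ((u * P i * u⁻¹) 0 1) -
      Complex.normSq ((u * P i * u⁻¹) 1 0)) : ℝ) : ℂ) = 0 := by
    rw [← h3]
    push_cast
    refine Finset.sum_congr rfl fun i _ => ?_
    rw [Matrix.smul_apply, c7_entry, smul_eq_mul]
    push_cast
    ring
  exact_mod_cast h4

theorem c7_nsq_add_lt {X Y : Mat} {δ : ℝ} (hδ : 0 < δ) (hX : nsq X < δ / 4) (hY : nsq Y < δ / 4) :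
    nsq (X + Y) < δ := by
  have h1 := sqrt_nsq_add_le X Y
  have h2 : Real.sqrt (nsq X) < Real.sqrt (δ / 4) := Real.sqrt_lt_sqrt (nsq_nonneg X) hX
  have h3 : Real.sqrt (nsq Y) < Real.sqrt (δ / 4) := Real.sqrt_lt_sqrt (nsq_nonneg Y) hY
  have h4 : Real.sqrt (δ / 4) * 2 = Real.sqrt δ := by
    have : δ = (δ / 4) * 2 ^ 2 := by ring
    conv_rhs => rw [this]
    rw [Real.sqrt_mul (by positivity), Real.sqrt_sq (by norm_num)]
  have h5 : Real.sqrt (nsq (X + Y)) < Real.sqrt δ := by linarith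
  exact (Real.sqrt_lt_sqrt_iff (nsq_nonneg _)).1 h5

theorem c7_nsq_Dg (s : ℝ) : nsq (Dg s) = Real.exp s + Real.exp (-s) := by
  unfold nsq Dg
  simp only [Matrix.of_apply, Matrix.cons_val', Matrix.cons_val_zero, Matrix.cons_val_one,
    Matrix.cons_val_fin_one, Complex.normSq_ofReal, Complex.normSq_zero]
  rw [← Real.exp_add, ← Real.exp_add]
  ring_nf

theorem c7_nsq_K {u : Mat} (hu : IsU u) (s : ℝ) :
    nsq (u⁻¹ * Dg s * u) ≤ 2 * Real.exp |s| := by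
  have h1 : nsq (u⁻¹ * Dg s * u) = nsq (Dg s) := by
    rw [hu.nsq_mul_right, hu.inv.nsq_mul]
  rw [h1, c7_nsq_Dg]
  have h2 : Real.exp s ≤ Real.exp |s| := Real.exp_le_exp.2 (le_abs_self s)
  have h3 : Real.exp (-s) ≤ Real.exp |s| := Real.exp_le_exp.2 (neg_le_abs s)
  linarith

theorem growth {μ : Fin n → ℝ} (hμ : ∀ i, 0 ≤ μ i) (hμ1 : ∑ i, μ i = 1) {P : Fin n → Mat}
    (hP : ∀ i, IsPl (P i)) (hmin : ∑ i, (μ i : ℂ) • (P i * (P i)ᴴ - (P i)ᴴ * P i) = 0)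
    {c : ℝ} (hS : ∑ i, μ i * nsq (P i) = 1 + c) {u : Mat} (hu : IsU u) (s : ℝ) :
    1 + c + c / 2 * (Real.cosh (2 * s) - 1) ≤
      ∑ i, μ i * nsq ((u⁻¹ * Dg s * u) * P i * (u⁻¹ * Dg s * u)⁻¹) := by
  have hQ : ∀ i, nsq ((u⁻¹ * Dg s * u) * P i * (u⁻¹ * Dg s * u)⁻¹) =
      Complex.normSq ((u * P i * u⁻¹) 0 0) + Complex.normSq ((u * P i * u⁻¹) 1 1) +
        Real.exp (2 * s) * Complex.normSq ((u * P i * u⁻¹) 0 1) +
        Real.exp (-(2 * s)) * Complex.normSq ((u * P i * u⁻¹) 1 0) := by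
    intro i
    rw [c7_nsq hu, nsq_Dg_conj]
  have hS' : ∑ i, μ i * (Complex.normSq ((u * P i * u⁻¹) 0 0) + Complex.normSq ((u * P i * u⁻¹) 1 1) +
      Complex.normSq ((u * P i * u⁻¹) 0 1) + Complex.normSq ((u * P i * u⁻¹) 1 0)) = 1 + c := by
    rw [← hS]
    refine Finset.sum_congr rfl fun i _ => ?_
    rw [← hu.nsq_conj (P i)]
    unfold nsq
    ring
  have hpl : ∑ i, μ i * (Complex.normSq ((u * P i * u⁻¹) 0 0) + Complex.normSq ((u * P i * u⁻¹) 1 1)) ≤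
      ∑ i, μ i * (1 + Complex.normSq ((u * P i * u⁻¹) 0 1) + Complex.normSq ((u * P i * u⁻¹) 1 0)) := by
    refine Finset.sum_le_sum fun i _ => ?_
    exact mul_le_mul_of_nonneg_left (plane_ineq (isPl_conj (hP i) u hu.2)) (hμ i)
  have hz := c7_sum_zero hmin hu
  rw [Finset.sum_congr rfl fun i _ => by rw [hQ i]]
  simp only [mul_add, mul_sub, Finset.sum_add_distrib, Finset.sum_sub_distrib, mul_one, hμ1] at hS' hpl hz ⊢
  have e1 : ∑ i, μ i * (Real.exp (2 * s) * Complex.normSq ((u * P i * u⁻¹) 0 1)) =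
      Real.exp (2 * s) * ∑ i, μ i * Complex.normSq ((u * P i * u⁻¹) 0 1) := by
    rw [Finset.mul_sum]
    exact Finset.sum_congr rfl fun i _ => by ring
  have e2 : ∑ i, μ i * (Real.exp (-(2 * s)) * Complex.normSq ((u * P i * u⁻¹) 1 0)) =
      Real.exp (-(2 * s)) * ∑ i, μ i * Complex.normSq ((u * P i * u⁻¹) 1 0) := by
    rw [Finset.mul_sum]
    exact Finset.sum_congr rfl fun i _ => by ring
  rw [e1, e2, Real.cosh_eq]
  generalize ∑ i, μ i * Complex.normSq ((u * P i * u⁻¹) 0 0) = a0 at *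
  generalize ∑ i, μ i * Complex.normSq ((u * P i * u⁻¹) 1 1) = a1 at *
  generalize ∑ i, μ i * Complex.normSq ((u * P i * u⁻¹) 0 1) = b0 at *
  generalize ∑ i, μ i * Complex.normSq ((u * P i * u⁻¹) 1 0) = b1 at *
  have hb : b1 = b0 := by linarith
  subst hb
  have hc4 : c ≤ 4 * b1 := by linarith
  have hcosh : (0 : ℝ) ≤ (Real.exp (2 * s) + Real.exp (-(2 * s))) / 2 - 1 := by
    rw [← Real.cosh_eq]
    linarith [Real.one_le_cosh (2 * s)]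
  have h6 := mul_le_mul_of_nonneg_right hc4 hcosh
  linarith

theorem growth_robust {μ : Fin n → ℝ} (hμ : ∀ i, 0 ≤ μ i) (hμ1 : ∑ i, μ i = 1) {P : Fin n → Mat}
    (hP : ∀ i, IsPl (P i)) (hmin : ∑ i, (μ i : ℂ) • (P i * (P i)ᴴ - (P i)ᴴ * P i) = 0)
    {c : ℝ} (hc : 0 < c) (hS : ∑ i, μ i * nsq (P i) = 1 + c)
    {μ' : ℕ → Fin n → ℝ} (hμ' : ∀ m i, 0 ≤ μ' m i) (hμ'1 : ∀ m, ∑ i, μ' m i = 1)
    {P' : ℕ → Fin n → Mat} (hP' : ∀ m i, IsPl (P' m i))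
    (h1 : ∀ i, Tendsto (fun m => μ' m i) atTop (𝓝 (μ i)))
    (h2 : ∀ i, Tendsto (fun m => P' m i) atTop (𝓝 (P i))) {r : ℝ} (hr : 0 < r) :
    ∃ η : ℝ, 0 < η ∧ ∃ δ : ℝ, 0 < δ ∧ ∀ᶠ m in atTop, ∀ g u : Mat, nsq (g - 1) < δ → IsU u →
      ∀ s : ℝ, |s| = r →
      c + η ≤ ∑ i, μ' m i *
        nsq ((u⁻¹ * Dg s * u) * mvP (P' m i) g * (u⁻¹ * Dg s * u)⁻¹) - 1 := by
  -- the constants
  have hcosh : 0 < Real.cosh (2 * r) - 1 := by
    have : 1 < Real.cosh (2 * r) := Real.one_lt_cosh.2 (by positivity)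
    linarith
  obtain ⟨η, hη⟩ : ∃ η : ℝ, η = c / 4 * (Real.cosh (2 * r) - 1) := ⟨_, rfl⟩
  have hη0 : 0 < η := by
    rw [hη]
    positivity
  obtain ⟨C, hC1, hC2, hC3⟩ : ∃ C : ℝ, 2 * Real.exp r ≤ C ∧ (∀ i, nsq (P i) + 1 ≤ C) ∧ 0 < C := by
    refine ⟨2 * Real.exp r + ∑ i, (nsq (P i) + 1), ?_, ?_, ?_⟩
    · have : 0 ≤ ∑ i, (nsq (P i) + 1) := Finset.sum_nonneg fun i _ => by
        have := nsq_nonneg (P i)
        linarith
      linarith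
    · intro i
      have h3 : nsq (P i) + 1 ≤ ∑ i, (nsq (P i) + 1) :=
        Finset.single_le_sum (f := fun i => nsq (P i) + 1) (fun i _ => by
          have := nsq_nonneg (P i)
          show 0 ≤ nsq (P i) + 1
          linarith) (Finset.mem_univ i)
      have := Real.exp_pos r
      linarith
    · have h3 : 0 ≤ ∑ i, (nsq (P i) + 1) := Finset.sum_nonneg fun i _ => by
        have := nsq_nonneg (P i)
        linarith
      have := Real.exp_pos r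
      linarith
  obtain ⟨δ1, hδ1, hnear⟩ := nsq_conj_near C (ε := η / 2) (by positivity)
  obtain ⟨δ, hδ, hmv⟩ := mvP_near C (ε := δ1 / 4) (by positivity)
  refine ⟨η, hη0, δ, hδ, ?_⟩
  -- eventual closeness
  have ev1 : ∀ᶠ m in atTop, ∀ i, nsq (P' m i - P i) < δ1 / 4 := by
    rw [Filter.eventually_all]
    intro i
    exact (tendsto_nsq_sub.1 (h2 i)).eventually_lt_const (by positivity)
  have ev2 : ∀ᶠ m in atTop, ∀ i, nsq (P' m i) ≤ C := by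
    rw [Filter.eventually_all]
    intro i
    have h3 : Tendsto (fun m => nsq (P' m i)) atTop (𝓝 (nsq (P i))) :=
      (continuous_nsq.tendsto (P i)).comp (h2 i)
    have h4 : nsq (P i) < C := by linarith [hC2 i]
    exact (h3.eventually_lt_const h4).mono fun m hm => hm.le
  have ev3 : ∀ᶠ m in atTop, ∑ i, |μ' m i - μ i| * C ^ 3 < η / 2 := by
    have h3 : Tendsto (fun m => ∑ i, |μ' m i - μ i| * C ^ 3) atTop (𝓝 (∑ _i : Fin n, 0 * C ^ 3)) := by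
      refine tendsto_finsetSum _ fun i _ => ?_
      refine Tendsto.mul_const _ ?_
      have h4 := ((h1 i).sub_const (μ i)).abs
      rwa [sub_self, abs_zero] at h4
    have h5 : ∑ _i : Fin n, 0 * C ^ 3 = 0 := by simp
    rw [h5] at h3
    exact h3.eventually_lt_const (by positivity)
  filter_upwards [ev1, ev2, ev3] with m hm1 hm2 hm3
  intro g u hg hu s hs
  obtain ⟨K, hK⟩ : ∃ K : Mat, K = u⁻¹ * Dg s * u := ⟨_, rfl⟩
  have hKdet : K.det = 1 := by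
    rw [hK]
    exact c7_det hu s
  have hKC : nsq K ≤ C := by
    rw [hK]
    refine (c7_nsq_K hu s).trans ?_
    rw [hs]
    exact hC1
  have hgr := growth hμ hμ1 hP hmin hS hu s
  rw [← hK] at hgr ⊢
  have hcs : Real.cosh (2 * s) = Real.cosh (2 * r) := by
    rw [← Real.cosh_abs (2 * s), abs_mul, hs, abs_of_pos (by norm_num : (0 : ℝ) < 2)]
  rw [hcs] at hgr
  have hS1 : ∀ i, nsq (K * P i * K⁻¹) ≤ C ^ 3 := by
    intro i
    calc nsq (K * P i * K⁻¹) ≤ nsq (K * P i) * nsq K⁻¹ := nsq_mul_le _ _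
      _ ≤ (nsq K * nsq (P i)) * nsq K⁻¹ :=
          mul_le_mul_of_nonneg_right (nsq_mul_le _ _) (nsq_nonneg _)
      _ = (nsq K * nsq (P i)) * nsq K := by rw [nsq_inv hKdet]
      _ ≤ (C * C) * C := by
          have hPi : nsq (P i) ≤ C := by linarith [hC2 i]
          have h5 : nsq K * nsq (P i) ≤ C * C := mul_le_mul hKC hPi (nsq_nonneg _) hC3.le
          exact mul_le_mul h5 hKC (nsq_nonneg _) (by positivity)
      _ = C ^ 3 := by ring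
  have hS2 : ∀ i, nsq (K * P i * K⁻¹) - η / 2 ≤ nsq (K * mvP (P' m i) g * K⁻¹) := by
    intro i
    have h3 := (hmv (P' m i) g (hP' m i) (hm2 i) hg).2
    have h4 : nsq (mvP (P' m i) g - P i) < δ1 := by
      have h5 : mvP (P' m i) g - P i = (mvP (P' m i) g - P' m i) + (P' m i - P i) := by abel
      rw [h5]
      exact c7_nsq_add_lt hδ1 h3 (hm1 i)
    have h6 := hnear (P i) (mvP (P' m i) g) K hKdet hKC (by linarith [hC2 i]) h4
    have h7 := (abs_lt.1 h6).1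
    linarith
  have hA : ∑ i, μ' m i * (nsq (K * P i * K⁻¹) - η / 2) ≤
      ∑ i, μ' m i * nsq (K * mvP (P' m i) g * K⁻¹) :=
    Finset.sum_le_sum fun i _ => mul_le_mul_of_nonneg_left (hS2 i) (hμ' m i)
  have hB : ∑ i, μ' m i * (nsq (K * P i * K⁻¹) - η / 2) =
      ∑ i, μ' m i * nsq (K * P i * K⁻¹) - η / 2 := by
    simp only [mul_sub, Finset.sum_sub_distrib]
    rw [← Finset.sum_mul, hμ'1 m, one_mul]
  have hD : ∑ i, μ i * nsq (K * P i * K⁻¹) - ∑ i, μ' m i * nsq (K * P i * K⁻¹) ≤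
      ∑ i, |μ' m i - μ i| * C ^ 3 := by
    rw [← Finset.sum_sub_distrib]
    refine Finset.sum_le_sum fun i _ => ?_
    calc μ i * nsq (K * P i * K⁻¹) - μ' m i * nsq (K * P i * K⁻¹)
        = -(μ' m i - μ i) * nsq (K * P i * K⁻¹) := by ring
      _ ≤ |μ' m i - μ i| * nsq (K * P i * K⁻¹) :=
          mul_le_mul_of_nonneg_right (neg_le_abs _) (nsq_nonneg _)
      _ ≤ |μ' m i - μ i| * C ^ 3 := mul_le_mul_of_nonneg_left (hS1 i) (abs_nonneg _)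
  have hfin : c / 2 * (Real.cosh (2 * r) - 1) = 2 * η := by
    rw [hη]
    ring
  linarith

end HRP
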