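import Mathlib

/-!
# HRP-D1 : separation and Caratheodory in `ℝ³`

* `exists_small_convex`: `A` a nonempty subset of `ℝ³` such that for every unit vector `x` there is
  `b ∈ A` with `⟪x, b⟫ ≤ ε` (`ε > 0`). Then the convex hull of `A` contains `z` with `‖z‖ ≤ 2 ε`.
* `exists_four`: a point of the convex hull of `A ⊆ ℝ³` is a convex combination of four points of
  `A` (repetitions allowed).
-/

namespace HRP

theorem exists_small_convex {A : Set (EuclideanSpace ℝ (Fin 3))} {ε : ℝ}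
    (hε : 0 < ε) (h : ∀ x : EuclideanSpace ℝ (Fin 3), ‖x‖ = 1 → ∃ b ∈ A, inner ℝ x b ≤ ε) :
    ∃ z ∈ convexHull ℝ A, ‖z‖ ≤ 2 * ε := by
  have hne : A.Nonempty := by
    obtain ⟨b, hb, _⟩ := h (EuclideanSpace.single 0 1) (by simp)
    exact ⟨b, hb⟩
  have hKc : Convex ℝ (closure (convexHull ℝ A)) := (convex_convexHull ℝ A).closure
  have hKne : (closure (convexHull ℝ A)).Nonempty := by
    obtain ⟨b, hb⟩ := hne
    exact ⟨b, subset_closure (subset_convexHull ℝ A hb)⟩
  have hKcl : IsComplete (closure (convexHull ℝ A)) := isClosed_closure.isComplete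
  obtain ⟨z0, hz0, hmin⟩ := exists_norm_eq_iInf_of_complete_convex hKne hKcl hKc
    (0 : EuclideanSpace ℝ (Fin 3))
  have hineq := (norm_eq_iInf_iff_real_inner_le_zero hKc hz0).1 hmin
  by_cases hd : ‖z0‖ ≤ ε
  · obtain ⟨z, hz, hdist⟩ := Metric.mem_closure_iff.1 hz0 ε hε
    refine ⟨z, hz, ?_⟩
    have h1 : ‖z‖ ≤ ‖z0‖ + ‖z0 - z‖ := by
      have : z = z0 - (z0 - z) := by abel
      calc ‖z‖ = ‖z0 - (z0 - z)‖ := by rw [← this]
        _ ≤ ‖z0‖ + ‖z0 - z‖ := norm_sub_le _ _
    rw [dist_eq_norm] at hdist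
    linarith
  · exfalso
    push Not at hd
    have hpos : 0 < ‖z0‖ := lt_trans hε hd
    obtain ⟨b, hb, hbe⟩ := h ((‖z0‖⁻¹) • z0) (by
      rw [norm_smul, norm_inv, norm_norm, inv_mul_cancel₀ hpos.ne'])
    have h2 := hineq b (subset_closure (subset_convexHull ℝ A hb))
    rw [zero_sub, inner_neg_left, inner_sub_right, real_inner_self_eq_norm_sq] at h2
    rw [real_inner_smul_left] at hbe
    have h3 : ‖z0‖ ^ 2 ≤ inner ℝ z0 b := by linarith
    have h4 : ‖z0‖⁻¹ * ‖z0‖ ^ 2 ≤ ‖z0‖⁻¹ * inner ℝ z0 b :=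
      mul_le_mul_of_nonneg_left h3 (by positivity)
    have h5 : ‖z0‖⁻¹ * ‖z0‖ ^ 2 = ‖z0‖ := by field_simp
    linarith

theorem exists_four {A : Set (EuclideanSpace ℝ (Fin 3))} {z : EuclideanSpace ℝ (Fin 3)}
    (hz : z ∈ convexHull ℝ A) :
    ∃ (b : Fin 4 → EuclideanSpace ℝ (Fin 3)) (μ : Fin 4 → ℝ), (∀ i, b i ∈ A) ∧ (∀ i, 0 ≤ μ i) ∧
      ∑ i, μ i = 1 ∧ ∑ i, μ i • b i = z := by
  classical
  rw [convexHull_eq_union] at hz
  simp only [Set.mem_iUnion] at hz
  obtain ⟨t, htA, hai, hzt⟩ := hz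
  rw [Finset.mem_convexHull'] at hzt
  obtain ⟨w, hw0, hw1, hwz⟩ := hzt
  have hcard : Fintype.card t ≤ 4 := by
    have h1 := hai.card_le_finrank_succ
    have h2 : Module.finrank ℝ (vectorSpan ℝ (Set.range ((↑) : t → EuclideanSpace ℝ (Fin 3))))
        ≤ Module.finrank ℝ (EuclideanSpace ℝ (Fin 3)) := Submodule.finrank_le _
    rw [finrank_euclideanSpace_fin] at h2
    omega
  obtain ⟨f⟩ : Nonempty (t ↪ Fin 4) := Function.Embedding.nonempty_of_card_le (by simpa using hcard)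
  have htne : t.Nonempty := by
    rw [Finset.nonempty_iff_ne_empty]
    intro h0
    rw [h0] at hw1
    simp at hw1
  obtain ⟨a0, ha0⟩ := htne
  let g : Fin 4 → t := fun j => if hj : ∃ y : t, f y = j then hj.choose else ⟨a0, ha0⟩
  have hg : ∀ y : t, g (f y) = y := by
    intro y
    have hj : ∃ y' : t, f y' = f y := ⟨y, rfl⟩
    have : g (f y) = hj.choose := dif_pos hj
    rw [this]
    exact f.injective hj.choose_spec
  refine ⟨fun j => (g j : EuclideanSpace ℝ (Fin 3)),
    fun j => ∑ y : t, if f y = j then w y else 0, ?_, ?_, ?_, ?_⟩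
  · intro j
    exact htA (g j).2
  · intro j
    apply Finset.sum_nonneg
    intro y _
    split_ifs
    · exact hw0 y y.2
    · exact le_refl 0
  · rw [Finset.sum_comm]
    simp only [Finset.sum_ite_eq, Finset.mem_univ, if_true]
    rw [← hw1]
    exact Finset.sum_coe_sort t w
  · simp only [Finset.sum_smul]
    rw [Finset.sum_comm]
    have : ∀ y : t, ∑ j : Fin 4, (if f y = j then w y else 0) • (g j : EuclideanSpace ℝ (Fin 3))
        = w y • (y : EuclideanSpace ℝ (Fin 3)) := by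
      intro y
      rw [Finset.sum_eq_single (f y)]
      · rw [if_pos rfl, hg y]
      · intro j _ hj
        rw [if_neg (Ne.symm hj), zero_smul]
      · intro h
        exact absurd (Finset.mem_univ _) h
    rw [Finset.sum_congr rfl (fun y _ => this y)]
    rw [← hwz]
    exact Finset.sum_coe_sort t (fun y => w y • y)

end HRP
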