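import Mathlib

/-!
# HRP-MDefs : `2 × 2` matrices, null directions, planes

Definitions of the pure matrix part of the project (completeness of compact manifolds locally
modelled on `SL(2,ℂ)` with the group of isometries).
-/

namespace HRP

open Matrix

/-- complex `2 × 2` matrices. -/
abbrev Mat := Matrix (Fin 2) (Fin 2) ℂ

/-- `ℂ²`. -/
abbrev V := Fin 2 → ℂ

/-- Hermitian square norm of a vector. -/
noncomputable def vsq (v : V) : ℝ := Complex.normSq (v 0) + Complex.normSq (v 1)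

/-- Hermitian (Hilbert-Schmidt) square norm of a matrix. -/
noncomputable def nsq (X : Mat) : ℝ :=
  Complex.normSq (X 0 0) + Complex.normSq (X 0 1) + Complex.normSq (X 1 0) + Complex.normSq (X 1 1)

/-- the symplectic form. -/
def om (v w : V) : ℂ := v 0 * w 1 - v 1 * w 0

/-- the nilpotent matrix `v ↦ om ψ v • ψ`. -/
def nil (ψ : V) : Mat := !![-(ψ 0 * ψ 1), ψ 0 ^ 2; -(ψ 1 ^ 2), ψ 0 * ψ 1]

/-- planes = rank one idempotents: trace one and determinant zero. -/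
def IsPl (P : Mat) : Prop := P.trace = 1 ∧ P.det = 0

/-- `q_P(ψ) = tr (P n(ψ))`. -/
noncomputable def qP (P : Mat) (ψ : V) : ℂ := (P * nil ψ).trace

/-- the plane `P` seen from the point moved by `g`: `P g / tr (P g)`. -/
noncomputable def mvP (P g : Mat) : Mat := ((P * g).trace)⁻¹ • (P * g)

/-- special unitary matrices. -/
def IsU (u : Mat) : Prop := uᴴ * u = 1 ∧ u.det = 1

/-- the adapted unitary matrix: for a unit vector `ψ`, `Un ψ *ᵥ ψ = (1, 0)`, first row `ψ*`. -/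
noncomputable def Un (ψ : V) : Mat := !![star (ψ 0), star (ψ 1); -(ψ 1), ψ 0]

/-- the diagonal frame `diag (e^{s/2}, e^{-s/2})`. -/
noncomputable def Dg (s : ℝ) : Mat := !![(Real.exp (s / 2) : ℂ), 0; 0, (Real.exp (-(s / 2)) : ℂ)]

/-- the Bloch vector. -/
noncomputable def bl (ψ : V) : EuclideanSpace ℝ (Fin 3) :=
  !₂[2 * (star (ψ 0) * ψ 1).re, 2 * (star (ψ 0) * ψ 1).im,
    Complex.normSq (ψ 0) - Complex.normSq (ψ 1)]

/-- `Nrm P ψ M`: normal form of the plane `P` at the unit vector `ψ`: in the unitary basis adapted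
to `ψ` the matrix of `P` is `[[1/2, q], [r, 1/2]]` with `|r| = M ≥ 1/2`, `|q| = 1/(4M)`. -/
structure Nrm (P : Mat) (ψ : V) (M : ℝ) : Prop where
  pl : IsPl P
  unit : vsq ψ = 1
  half : 1 / 2 ≤ M
  e00 : (Un ψ * P * (Un ψ)⁻¹) 0 0 = 1 / 2
  e11 : (Un ψ * P * (Un ψ)⁻¹) 1 1 = 1 / 2
  e10 : ‖(Un ψ * P * (Un ψ)⁻¹) 1 0‖ = M
  e01 : ‖(Un ψ * P * (Un ψ)⁻¹) 0 1‖ = 1 / (4 * M)

/-- the maximum of the function `e` on the unit sphere of the frame `k`. -/
noncomputable def mx (e : V → ℝ) (k : Mat) : ℝ := sSup ((fun ψ => e (k⁻¹ *ᵥ ψ)) '' {ψ | vsq ψ = 1})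

/-- `F m = (m - 1/(4m))²`, increasing on `[1/2, ∞)`. -/
noncomputable def FF (m : ℝ) : ℝ := (m - 1 / (4 * m)) ^ 2

/-- the inverse function of `FF` on `[1/2, ∞)`. -/
noncomputable def GG (c : ℝ) : ℝ := (Real.sqrt c + Real.sqrt (c + 1)) / 2

/-- the function `v(y, k)`. -/
noncomputable def vv (e : V → ℝ) (k : Mat) : ℝ := FF (mx e k)

end HRP
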