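import Pool.Agent.HRP.EDefs
import Pool.Agent.HRP.A2
import Pool.Agent.HRP.A3

/-!
# HRP-E1 : the maximum `mx e k` of a radius function on the unit sphere of the frame `k`

`ψ ↦ e (k⁻¹ ψ)` is upper semicontinuous (composition with a continuous map), the unit sphere is
compact and nonempty: the maximum is attained (`UpperSemicontinuousOn.exists_isMaxOn` or
`IsCompact` + semicontinuity), so `mx e k` is a maximum and `e (k⁻¹ φ) ≤ mx e k * |φ|²` for all `φ`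
by homogeneity (`φ = √|φ|² • unit`, `φ = 0`: both sides are `0`).
* `mx_unitary`: `(u k)⁻¹ ψ = k⁻¹ (u⁻¹ ψ)`, `u⁻¹` preserves the unit sphere.
* `mx_Dg_le`: `e ((Dg s k)⁻¹ ψ) = e (k⁻¹ (Dg (-s) ψ)) ≤ mx e k |Dg (-s) ψ|² ≤ e^{|s|} mx e k`.
* `continuous_mx_Dg`: from `mx e (Dg s k) ≤ e^{|s-t|} mx e (Dg t k)` for all `s, t`.
-/

namespace HRP

open Matrix

theorem e1_zero {e : V → ℝ} (he : EFun e) : e 0 = 0 := by
  have := he.hom 0 0
  simpa using this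

theorem e1_cont (k : Mat) : Continuous fun ψ : V => k⁻¹ *ᵥ ψ := by
  exact Continuous.matrix_mulVec continuous_const continuous_id

theorem e1_hom {e : V → ℝ} (he : EFun e) (k : Mat) {m : ℝ}
    (h : ∀ ψ : V, vsq ψ = 1 → e (k⁻¹ *ᵥ ψ) ≤ m) (φ : V) : e (k⁻¹ *ᵥ φ) ≤ m * vsq φ := by
  by_cases h0 : φ = 0
  · have : vsq φ = 0 := vsq_eq_zero.2 h0
    rw [this, h0, mulVec_zero, e1_zero he]; simp
  · have hv : vsq φ ≠ 0 := fun h => h0 (vsq_eq_zero.1 h)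
    have hp : 0 < vsq φ := lt_of_le_of_ne (vsq_nonneg φ) (Ne.symm hv)
    have hs : 0 < Real.sqrt (vsq φ) := Real.sqrt_pos.2 hp
    have hs2 : Real.sqrt (vsq φ) * Real.sqrt (vsq φ) = vsq φ := Real.mul_self_sqrt hp.le
    have hc : ((Real.sqrt (vsq φ) : ℝ) : ℂ) ≠ 0 := by exact_mod_cast hs.ne'
    have e1 : φ = ((Real.sqrt (vsq φ) : ℝ) : ℂ) • ((((Real.sqrt (vsq φ) : ℝ) : ℂ)⁻¹) • φ) := by
      rw [smul_smul, mul_inv_cancel₀ hc, one_smul]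
    have h1 : vsq ((((Real.sqrt (vsq φ) : ℝ) : ℂ)⁻¹) • φ) = 1 := by
      rw [vsq_smul, Complex.normSq_inv, Complex.normSq_ofReal, hs2, inv_mul_cancel₀ hv]
    have h2 := h _ h1
    have h3 : e (k⁻¹ *ᵥ φ) = vsq φ * e (k⁻¹ *ᵥ ((((Real.sqrt (vsq φ) : ℝ) : ℂ)⁻¹) • φ)) := by
      conv_lhs => rw [e1, mulVec_smul, he.hom, Complex.normSq_ofReal, hs2]
    rw [h3, mul_comm]
    exact mul_le_mul_of_nonneg_right h2 hp.le

theorem EFun.exists_max {e : V → ℝ} (he : EFun e) {k : Mat} (hk : k.det = 1) :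
    ∃ ψ : V, vsq ψ = 1 ∧ e (k⁻¹ *ᵥ ψ) = mx e k ∧ ∀ φ : V, e (k⁻¹ *ᵥ φ) ≤ mx e k * vsq φ := by
  have husc : UpperSemicontinuous fun ψ : V => e (k⁻¹ *ᵥ ψ) := he.usc.comp (e1_cont k)
  obtain ⟨ψ, hψ, hmax⟩ := UpperSemicontinuousOn.exists_isMaxOn sphere_nonempty isCompact_sphere
    (husc.upperSemicontinuousOn _)
  have hg : IsGreatest ((fun ψ => e (k⁻¹ *ᵥ ψ)) '' {ψ | vsq ψ = 1}) (e (k⁻¹ *ᵥ ψ)) := by
    refine ⟨⟨ψ, hψ, rfl⟩, ?_⟩
    rintro _ ⟨φ, hφ, rfl⟩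
    exact hmax hφ
  have hm : mx e k = e (k⁻¹ *ᵥ ψ) := hg.csSup_eq
  refine ⟨ψ, hψ, hm.symm, ?_⟩
  rw [hm]
  exact e1_hom he k fun φ hφ => hmax hφ

theorem EFun.le_mx {e : V → ℝ} (he : EFun e) {k : Mat} (hk : k.det = 1) (φ : V) :
    e (k⁻¹ *ᵥ φ) ≤ mx e k * vsq φ := by
  obtain ⟨ψ, _, _, h⟩ := he.exists_max hk
  exact h φ

theorem EFun.mx_le {e : V → ℝ} (he : EFun e) {k : Mat} (hk : k.det = 1) {C : ℝ}
    (h : ∀ φ : V, e (k⁻¹ *ᵥ φ) ≤ C * vsq φ) : mx e k ≤ C := by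
  obtain ⟨ψ, h1, h2, _⟩ := he.exists_max hk
  have := h ψ
  rw [h1, h2, mul_one] at this
  exact this

theorem EFun.mx_nonneg {e : V → ℝ} (he : EFun e) {k : Mat} (hk : k.det = 1) : 0 ≤ mx e k := by
  obtain ⟨ψ, _, h2, _⟩ := he.exists_max hk
  rw [← h2]
  exact he.nonneg _

theorem EFun.mx_pos {e : V → ℝ} (he : EFun e) {k : Mat} (hk : k.det = 1) (h : ∃ ψ, e ψ ≠ 0) :
    0 < mx e k := by
  obtain ⟨ψ, hψ⟩ := h
  have hpos : 0 < e ψ := lt_of_le_of_ne (he.nonneg ψ) (Ne.symm hψ)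
  have hu : IsUnit k.det := by rw [hk]; exact isUnit_one
  have h1 := he.le_mx hk (k *ᵥ ψ)
  rw [mulVec_mulVec, nonsing_inv_mul _ hu, one_mulVec] at h1
  by_contra hc
  push Not at hc
  have := mul_nonpos_of_nonpos_of_nonneg hc (vsq_nonneg (k *ᵥ ψ))
  linarith

theorem EFun.mx_unitary {e : V → ℝ} (he : EFun e) {u k : Mat} (hu : IsU u) :
    mx e (u * k) = mx e k := by
  unfold mx
  congr 1
  ext x
  constructor
  · rintro ⟨ψ, hψ, rfl⟩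
    refine ⟨u⁻¹ *ᵥ ψ, ?_, ?_⟩
    · show vsq (u⁻¹ *ᵥ ψ) = 1
      rw [hu.inv.vsq_mulVec]; exact hψ
    · show e (k⁻¹ *ᵥ (u⁻¹ *ᵥ ψ)) = e ((u * k)⁻¹ *ᵥ ψ)
      rw [mulVec_mulVec, Matrix.mul_inv_rev]
  · rintro ⟨ψ, hψ, rfl⟩
    refine ⟨u *ᵥ ψ, ?_, ?_⟩
    · show vsq (u *ᵥ ψ) = 1
      rw [hu.vsq_mulVec]; exact hψ
    · show e ((u * k)⁻¹ *ᵥ (u *ᵥ ψ)) = e (k⁻¹ *ᵥ ψ)
      have hd : IsUnit u.det := by rw [hu.2]; exact isUnit_one
      rw [mulVec_mulVec, Matrix.mul_inv_rev, Matrix.mul_assoc, nonsing_inv_mul _ hd, Matrix.mul_one]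

theorem EFun.mx_Dg_le {e : V → ℝ} (he : EFun e) {k : Mat} (hk : k.det = 1) (s : ℝ) :
    mx e (Dg s * k) ≤ Real.exp |s| * mx e k := by
  have hd : (Dg s * k).det = 1 := by rw [det_mul, det_Dg, hk, one_mul]
  apply he.mx_le hd
  intro φ
  rw [Matrix.mul_inv_rev, Dg_inv, ← mulVec_mulVec]
  have h1 := he.le_mx hk (Dg (-s) *ᵥ φ)
  have h2 := vsq_Dg_mulVec_le (-s) φ
  rw [abs_neg] at h2
  have h3 := he.mx_nonneg hk
  calc e (k⁻¹ *ᵥ (Dg (-s) *ᵥ φ)) ≤ mx e k * vsq (Dg (-s) *ᵥ φ) := h1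
    _ ≤ mx e k * (Real.exp |s| * vsq φ) := mul_le_mul_of_nonneg_left h2 h3
    _ = Real.exp |s| * mx e k * vsq φ := by ring

theorem EFun.continuous_mx_Dg {e : V → ℝ} (he : EFun e) {k : Mat} (hk : k.det = 1) :
    Continuous fun s : ℝ => mx e (Dg s * k) := by
  have hd : ∀ s, (Dg s * k).det = 1 := fun s => by rw [det_mul, det_Dg, hk, one_mul]
  have key : ∀ s t : ℝ, mx e (Dg s * k) ≤ Real.exp |s - t| * mx e (Dg t * k) := by
    intro s t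
    have h := he.mx_Dg_le (hd t) (s - t)
    rwa [← Matrix.mul_assoc, ← Dg_add, sub_add_cancel] at h
  rw [continuous_iff_continuousAt]
  intro t
  have h1 : Filter.Tendsto (fun s : ℝ => Real.exp |s - t| * mx e (Dg t * k)) (nhds t)
      (nhds (mx e (Dg t * k))) := by
    have hc : Continuous fun s : ℝ => Real.exp |s - t| * mx e (Dg t * k) := by fun_prop
    have := hc.tendsto t
    simpa using this
  have h2 : Filter.Tendsto (fun s : ℝ => Real.exp (-|s - t|) * mx e (Dg t * k)) (nhds t)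
      (nhds (mx e (Dg t * k))) := by
    have hc : Continuous fun s : ℝ => Real.exp (-|s - t|) * mx e (Dg t * k) := by fun_prop
    have := hc.tendsto t
    simpa using this
  refine tendsto_of_tendsto_of_tendsto_of_le_of_le h2 h1 ?_ ?_
  · intro s
    have h := key t s
    rw [abs_sub_comm] at h
    show Real.exp (-|s - t|) * mx e (Dg t * k) ≤ mx e (Dg s * k)
    rw [Real.exp_neg, inv_mul_le_iff₀ (Real.exp_pos _)]
    exact h
  · intro s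
    exact key s t

end HRP
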