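import Pool.Agent.HRP.E1
import Pool.Agent.HRP.A5
import Pool.Agent.HRP.A6

/-!
# HRP-E2 : contact planes at maximisers (5.1)

`m = mx (S.e y) k > 0`. Take a maximiser `ψ` (`EFun.exists_max`), `S.us` with `C = ε = m`: a plane
`P`, `|q_P(ψ)| = e y (k⁻¹ ψ) = m`, visible with some margin `c`. With `g = 1` (`mvP_one`,
`k⁻¹ * 1 * k = 1`, `mv_one`): `|q_P(φ)| ≤ e y (k⁻¹ φ) ≤ m |φ|²` for `|φ - ψ|² < c`; apply
`nrm_of_localMax`. In particular `m ≥ 1/2`.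
-/

namespace HRP

open Matrix

variable {E : Type*}

theorem ESys.exists_contact (S : ESys E) {y : E} {k : Mat} (hk : k.det = 1)
    (h0 : 0 < mx (S.e y) k) :
    ∃ (P : Mat) (ψ : V) (c : ℝ), 0 < c ∧ Nrm P ψ (mx (S.e y) k) ∧ S.Vis y k P ψ c := by
  obtain ⟨ψ, h1, h2, h3⟩ := (S.efun y).exists_max hk
  obtain ⟨c, hc, C', _, hus⟩ := S.us (mx (S.e y) k) h0 (mx (S.e y) k) h0
  obtain ⟨P, hP, _, hq, hv⟩ := hus y k ψ hk h3 h1 h2.ge
  have hne : qP P ψ ≠ 0 := by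
    intro h
    rw [h, norm_zero, h2] at hq
    exact absurd hq.symm h0.ne'
  have hloc : ∀ φ : V, vsq (φ - ψ) < c → ‖qP P φ‖ ≤ ‖qP P ψ‖ * vsq φ := by
    intro φ hφ
    have hu : IsUnit k.det := by rw [hk]; exact isUnit_one
    have h0' : nsq ((1 : Mat) - 1) < c := by
      have : nsq ((1 : Mat) - 1) = 0 := by simp [nsq]
      rw [this]; exact hc
    have := hv 1 φ det_one h0' hφ
    rw [mvP_one hP, Matrix.mul_one, nonsing_inv_mul _ hu, S.mv_one] at this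
    rw [hq, h2]
    exact this.trans (h3 φ)
  refine ⟨P, ψ, c, hc, ?_, hv⟩
  have := nrm_of_localMax hP h1 hne hc hloc
  rwa [hq, h2] at this

theorem ESys.half_le_mx (S : ESys E) {y : E} (hy : ∃ ψ, S.e y ψ ≠ 0) {k : Mat}
    (hk : k.det = 1) : 1 / 2 ≤ mx (S.e y) k := by
  obtain ⟨P, ψ, c, _, h, _⟩ := S.exists_contact (y := y) hk ((S.efun y).mx_pos hk hy)
  exact h.half

end HRP
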