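import Pool.Agent.HRP.E1
import Pool.Agent.HRP.A8

/-!
# HRP-E5 : upper bound for `mx` at nearby points (5.3)

For all `C, ε > 0` there is `δ > 0`: if `e y (k⁻¹ φ) ≤ C |φ|²` for all `φ`, `det g = 1` and
`nsq (g - 1) < δ` then `mx (e (y.g)) k ≤ mx (e y) k + ε`, `y.g = mv y (k⁻¹ g k)`.

Proof. `S.crude C`: constants `c₁, C'`; `S.us C' ε`: constants `c₂, C''`. Let `nsq (g - 1) < δ`,
`y' = y.g`, `m' = mx (e y') k`, `ψ` a maximiser. If `m' ≤ ε` there is nothing to prove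
(`mx_nonneg`). Otherwise `us` at `y'` gives a plane `P`, `nsq P ≤ C''`, `|q_P(ψ)| = m'`, and with
`g⁻¹` in place of `g` (`nsq (g⁻¹ - 1) ≤ nsq g⁻¹ nsq (g - 1)` small, `nsq_inv`), `φ = ψ`:
`|q_{P^{g⁻¹}}(ψ)| ≤ e (y'.g⁻¹) (k⁻¹ ψ) = e y (k⁻¹ ψ) ≤ mx (e y) k`, and
`| |q_{P^{g⁻¹}}(ψ)| - m' | ≤ √ nsq (P^{g⁻¹} - P) < ε` (`mvP_near C''`, `norm_qP_sub_le`).
-/

namespace HRP

open Matrix

variable {E : Type*}

theorem e5_nsq_inv_sub_one {g : Mat} (hg : g.det = 1) : nsq (g⁻¹ - 1) = nsq (g - 1) := by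
  have h1 : g⁻¹ = !![g 1 1, -(g 0 1); -(g 1 0), g 0 0] := by
    rw [Matrix.inv_def, hg, Ring.inverse_one, one_smul, Matrix.adjugate_fin_two]
  rw [h1]
  simp only [nsq, Matrix.sub_apply, Matrix.of_apply, Matrix.cons_val', Matrix.cons_val_zero,
    Matrix.cons_val_one, Matrix.cons_val_fin_one, Matrix.one_apply_eq, Matrix.one_apply, Fin.isValue]
  simp [Complex.normSq_neg]
  ring

theorem e5_det_inv {g : Mat} (hg : g.det = 1) : (g⁻¹).det = 1 := by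
  rw [Matrix.det_nonsing_inv, hg, Ring.inverse_one]

theorem ESys.mx_near (S : ESys E) {C ε : ℝ} (hC : 0 < C) (hε : 0 < ε) :
    ∃ δ : ℝ, 0 < δ ∧ ∀ (y : E) (k g : Mat), k.det = 1 → g.det = 1 →
      (∀ φ, S.e y (k⁻¹ *ᵥ φ) ≤ C * vsq φ) → nsq (g - 1) < δ →
      mx (S.e (S.mv y (k⁻¹ * g * k))) k ≤ mx (S.e y) k + ε := by
  obtain ⟨c₁, hc₁, C', hC', H1⟩ := S.crude C hC
  obtain ⟨c₂, hc₂, C'', hC'', H2⟩ := S.us C' hC' ε hε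
  obtain ⟨δ₃, hδ₃, H3⟩ := mvP_near C'' (pow_pos hε 2)
  refine ⟨min c₁ (min c₂ δ₃), lt_min hc₁ (lt_min hc₂ hδ₃), ?_⟩
  intro y k g hk hg hy hlt
  have hlt1 : nsq (g - 1) < c₁ := lt_of_lt_of_le hlt (min_le_left _ _)
  have hlt2 : nsq (g⁻¹ - 1) < c₂ := by
    rw [e5_nsq_inv_sub_one hg]
    exact lt_of_lt_of_le hlt (le_trans (min_le_right _ _) (min_le_left _ _))
  have hlt3 : nsq (g⁻¹ - 1) < δ₃ := by
    rw [e5_nsq_inv_sub_one hg]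
    exact lt_of_lt_of_le hlt (le_trans (min_le_right _ _) (min_le_right _ _))
  obtain ⟨ha, hb⟩ := H1 y k g hk hg hy hlt1
  obtain ⟨ψ, hψ, hψm, -⟩ := (S.efun (S.mv y (k⁻¹ * g * k))).exists_max hk
  have hnn : 0 ≤ mx (S.e y) k := (S.efun y).mx_nonneg hk
  by_cases hm : mx (S.e (S.mv y (k⁻¹ * g * k))) k ≤ ε
  · linarith
  · push Not at hm
    obtain ⟨P, hP, hPn, hPq, hvis⟩ := H2 (S.mv y (k⁻¹ * g * k)) k ψ hk ha hψ
      (by rw [hψm]; exact hm.le)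
    have h1 := hvis g⁻¹ ψ (e5_det_inv hg) hlt2 (by
      rw [sub_self]
      simpa [vsq] using hc₂)
    rw [hb] at h1
    have h2 : S.e y (k⁻¹ *ᵥ ψ) ≤ mx (S.e y) k := by
      have := (S.efun y).le_mx hk ψ
      rwa [hψ, mul_one] at this
    obtain ⟨-, h3⟩ := H3 P g⁻¹ hP hPn hlt3
    have h4 := norm_qP_sub_le P (mvP P g⁻¹) ψ
    rw [hψ, mul_one] at h4
    have h5 : Real.sqrt (nsq (mvP P g⁻¹ - P)) ≤ ε := by
      calc Real.sqrt (nsq (mvP P g⁻¹ - P)) ≤ Real.sqrt (ε ^ 2) := Real.sqrt_le_sqrt h3.le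
        _ = ε := Real.sqrt_sq hε.le
    have h6 : ‖qP P ψ‖ ≤ ‖qP (mvP P g⁻¹) ψ‖ + ‖qP (mvP P g⁻¹) ψ - qP P ψ‖ := by
      have h7 : qP P ψ = qP (mvP P g⁻¹) ψ - (qP (mvP P g⁻¹) ψ - qP P ψ) := by ring
      calc ‖qP P ψ‖ = ‖qP (mvP P g⁻¹) ψ - (qP (mvP P g⁻¹) ψ - qP P ψ)‖ := by rw [← h7]
        _ ≤ _ := norm_sub_le _ _
    rw [hPq, hψm] at h6
    linarith

end HRP
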