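import Pool.Agent.HRP.Defs

/-!
# HRP-EDefs : abstract system of radius functions

`e y ψ = 1 / (radius of the maximal liftable disc t ↦ y (1 + t n(ψ)))`, `mv y g = y.g` (`g` near
`1`; junk elsewhere). Frame `k`: the vector `ψ` of the frame `k` is the vector `k⁻¹ *ᵥ ψ`; the
element `g` of the frame `k` is `k⁻¹ * g * k`.
-/

namespace HRP

open Matrix

/-- nonnegative, upper semicontinuous functions on `ℂ²`, homogeneous of degree `(1,1)`. -/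
structure EFun (e : V → ℝ) : Prop where
  nonneg : ∀ ψ, 0 ≤ e ψ
  hom : ∀ (c : ℂ) (ψ : V), e (c • ψ) = Complex.normSq c * e ψ
  usc : UpperSemicontinuous e

/-- The properties of the radius functions used in sections 5 and 6. -/
structure ESys (E : Type*) where
  e : E → V → ℝ
  mv : E → Mat → E
  efun : ∀ y, EFun (e y)
  mv_one : ∀ y, mv y 1 = y
  /-- good frames exist, uniformly (the frames `h_y`) -/
  bdd : ∃ C : ℝ, 0 < C ∧ ∀ y, ∃ k : Mat, k.det = 1 ∧ ∀ ψ, e y (k⁻¹ *ᵥ ψ) ≤ C * vsq ψ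
  /-- free balls: crude bound for `e` at nearby points -/
  crude : ∀ C : ℝ, 0 < C → ∃ c : ℝ, 0 < c ∧ ∃ C' : ℝ, 0 < C' ∧ ∀ (y : E) (k g : Mat), k.det = 1 →
    g.det = 1 → (∀ ψ, e y (k⁻¹ *ᵥ ψ) ≤ C * vsq ψ) → nsq (g - 1) < c →
    (∀ ψ, e (mv y (k⁻¹ * g * k)) (k⁻¹ *ᵥ ψ) ≤ C' * vsq ψ) ∧
      mv (mv y (k⁻¹ * g * k)) (k⁻¹ * g⁻¹ * k) = y
  /-- uniform supports: a plane `P` touching the disc in the direction `ψ`, visible from all nearby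
  points in all nearby directions -/
  us : ∀ C : ℝ, 0 < C → ∀ ε : ℝ, 0 < ε → ∃ c : ℝ, 0 < c ∧ ∃ C' : ℝ, 0 < C' ∧
    ∀ (y : E) (k : Mat) (ψ : V), k.det = 1 → (∀ φ, e y (k⁻¹ *ᵥ φ) ≤ C * vsq φ) → vsq ψ = 1 →
      ε ≤ e y (k⁻¹ *ᵥ ψ) →
      ∃ P : Mat, IsPl P ∧ nsq P ≤ C' ∧ ‖qP P ψ‖ = e y (k⁻¹ *ᵥ ψ) ∧
        ∀ (g : Mat) (φ : V), g.det = 1 → nsq (g - 1) < c → vsq (φ - ψ) < c →
          ‖qP (mvP P g) φ‖ ≤ e (mv y (k⁻¹ * g * k)) (k⁻¹ *ᵥ φ)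

/-- the plane `P` (frame `k`) is visible from `y` in the direction `ψ`, with margin `c`. -/
def ESys.Vis {E : Type*} (S : ESys E) (y : E) (k P : Mat) (ψ : V) (c : ℝ) : Prop :=
  ∀ (g : Mat) (φ : V), g.det = 1 → nsq (g - 1) < c → vsq (φ - ψ) < c →
    ‖qP (mvP P g) φ‖ ≤ S.e (S.mv y (k⁻¹ * g * k)) (k⁻¹ *ᵥ φ)

end HRP
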