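import Pool.Agent.HRP.E1
import Pool.Agent.HRP.A9

/-!
# HRP-F1 : almost contacts of an almost minimal frame (section 6)

For all `M > 0`, `ε > 0` there are `s > 0`, `δ > 0` such that for every `EFun e`, `det k = 1` with
`mx e k ≤ M + δ` and `M - δ ≤ mx e (Dg s * u * k)` for all special unitary `u`: for every unit
vector `χ` there is a unit vector `ψ` with `M - ε ≤ e (k⁻¹ ψ)` and `⟪bl χ, bl ψ⟫ ≤ ε`.

Proof. `u = Un χ`. Let `φ'` be a maximiser for the frame `Dg s * u * k`, `m' = mx e (Dg s * u * k)`,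
`a = |φ'₀|²`, `b = |φ'₁|²`, `a + b = 1`, `x = a - b`. `ψ₀ = u⁻¹ (Dg (-s) φ')`, so
`(Dg s * u * k)⁻¹ φ' = k⁻¹ ψ₀`, `N = |ψ₀|² = e^{-s} a + e^{s} b = cosh s - x sinh s`, `e^{-s} ≤ N ≤ e^s`.
`M - δ ≤ m' = e (k⁻¹ ψ₀) ≤ (M + δ) N`. Let `ψ = ψ₀ / √N`: `e (k⁻¹ ψ) = m'/N ≥ (M - δ) e^{-s}`, which
is `≥ M - ε` if `s`, `δ` are small. `u ψ = Dg (-s) φ' / √N`, so by `inner_bl`
`⟪bl χ, bl ψ⟫ = (e^{-s} a - e^{s} b)/N = (x cosh s - sinh s)/N`. If `x ≤ 0` this is `≤ 0`. If `x > 0` it is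
`≤ x cosh s e^{s}`, and `x sinh s = cosh s - N ≤ cosh s - (M - δ)/(M + δ) = (cosh s - 1) + 2δ/(M + δ)`.
So it is `≤ e^s cosh s [(cosh s - 1)/sinh s + 2 δ/((M+δ) sinh s)]`. First choose `s` small
(`(cosh s - 1)/sinh s → 0`; e.g. `cosh s - 1 ≤ s²` and `sinh s ≥ s` for `0 ≤ s ≤ 1`), then `δ`.
-/

namespace HRP

open Matrix

/-- the choice of the numbers -/
theorem f1_num {M ε s δ N a b m' p q : ℝ} (hM : 0 < M) (hε : 0 < ε) (hs : 0 < s) (hs1 : s ≤ 1 / 2)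
    (hs2 : s ≤ ε / 8) (hs3 : M * s ≤ ε / 2) (hδ : 0 < δ) (hδ1 : δ ≤ ε / 2) (hδ2 : 2 * δ ≤ M * s ^ 2)
    (ha : 0 ≤ a) (hb : 0 ≤ b) (hab : a + b = 1) (hp : p = Real.exp s) (hq : q = Real.exp (-s))
    (hN : N = q * a + p * b) (h1 : M - δ ≤ m') (h2 : m' ≤ (M + δ) * N) :
    0 < N ∧ M - ε ≤ N⁻¹ * m' ∧ N⁻¹ * (q * a - p * b) ≤ ε := by
  have hpq : p * q = 1 := by rw [hp, hq, ← Real.exp_add]; simp
  have hp1 : 1 + s + s ^ 2 / 2 ≤ p := by rw [hp]; exact Real.quadratic_le_exp_of_nonneg hs.le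
  have hq1 : 1 - s ≤ q := by rw [hq]; have := Real.add_one_le_exp (-s); linarith
  have hp2 : p ≤ 1 + s + s ^ 2 := by
    rw [hp]
    have := (abs_le.1 (Real.abs_exp_sub_one_sub_id_le (x := s) (by rw [abs_of_pos hs]; linarith))).2
    linarith
  have hq2 : q ≤ 1 - s + s ^ 2 := by
    rw [hq]
    have := (abs_le.1 (Real.abs_exp_sub_one_sub_id_le (x := -s) (by
      rw [abs_neg, abs_of_pos hs]; linarith))).2
    have h3 : (-s) ^ 2 = s ^ 2 := by ring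
    rw [h3] at this
    linarith
  have hs4 : s ^ 2 ≤ s / 2 := by nlinarith
  have hq0 : 0 < q := by rw [hq]; exact Real.exp_pos _
  have hp0 : 0 < p := by rw [hp]; exact Real.exp_pos _
  have hqp : q ≤ p := by nlinarith
  have hMδ : 0 < M + δ := by linarith
  have hδM : 0 ≤ M - δ := by nlinarith
  have hN1 : 1 - s ^ 2 ≤ N := by
    have h3 : (M + δ) * (1 - s ^ 2) ≤ (M + δ) * N := by
      have h4 : 0 ≤ s ^ 2 * δ := by positivity
      nlinarith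
    exact le_of_mul_le_mul_left h3 hMδ
  have hN0 : 3 / 4 ≤ N := by nlinarith
  have hNpos : 0 < N := by linarith
  have hNp : N ≤ p := by
    rw [hN]
    have h3 : q * a ≤ p * a := mul_le_mul_of_nonneg_right hqp ha
    have h4 : p * a + p * b = p := by rw [← mul_add, hab, mul_one]
    linarith
  refine ⟨hNpos, ?_, ?_⟩
  · have h3 : q * (M - δ) ≤ N⁻¹ * m' := by
      have h4 : q = p⁻¹ := by
        field_simp
        linarith
      have h5 : p⁻¹ ≤ N⁻¹ := inv_anti₀ hNpos hNp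
      rw [h4]
      exact mul_le_mul h5 h1 hδM (by positivity)
    have h6 : (1 - s) * (M - δ) ≤ q * (M - δ) := mul_le_mul_of_nonneg_right hq1 hδM
    have h7 : 0 ≤ s * δ := by positivity
    nlinarith
  · have hx : a - b ≤ 4 * s := by
      rcases le_or_gt (a - b) 0 with h3 | h3
      · linarith
      · have h4 : 2 * N = (p + q) - (a - b) * (p - q) := by
          rw [hN]
          linear_combination (p + q) * hab
        have h5 : (a - b) * (p - q) ≤ 4 * s ^ 2 := by linarith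
        have h6 : s ≤ p - q := by linarith
        have h7 : (a - b) * s ≤ (a - b) * (p - q) := mul_le_mul_of_nonneg_left h6 h3.le
        have h8 : (a - b) * s ≤ 4 * s * s := by linarith
        exact le_of_mul_le_mul_right h8 hs
    have h3 : q * a - p * b ≤ a - b := by nlinarith
    have h4 : q * a - p * b ≤ ε * N := by nlinarith
    rw [inv_mul_le_iff₀ hNpos]
    linarith

theorem f1_Dg_normSq (s : ℝ) (v : V) :
    Complex.normSq ((Dg s *ᵥ v) 0) = Real.exp s * Complex.normSq (v 0) ∧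
      Complex.normSq ((Dg s *ᵥ v) 1) = Real.exp (-s) * Complex.normSq (v 1) := by
  have h0 : (Dg s *ᵥ v) 0 = (Real.exp (s / 2) : ℂ) * v 0 := by
    simp [Dg, Matrix.mulVec, dotProduct, Fin.sum_univ_two]
  have h1 : (Dg s *ᵥ v) 1 = (Real.exp (-(s / 2)) : ℂ) * v 1 := by
    simp [Dg, Matrix.mulVec, dotProduct, Fin.sum_univ_two]
  rw [h0, h1, map_mul, map_mul, Complex.normSq_ofReal, Complex.normSq_ofReal, ← Real.exp_add,
    ← Real.exp_add]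
  constructor
  · congr 2
    ring
  · congr 2
    ring

theorem almost_contact {M ε : ℝ} (hM : 0 < M) (hε : 0 < ε) :
    ∃ s : ℝ, 0 < s ∧ ∃ δ : ℝ, 0 < δ ∧ ∀ (e : V → ℝ) (k : Mat), EFun e → k.det = 1 →
      mx e k ≤ M + δ → (∀ u : Mat, IsU u → M - δ ≤ mx e (Dg s * u * k)) →
      ∀ χ : V, vsq χ = 1 → ∃ ψ : V, vsq ψ = 1 ∧ M - ε ≤ e (k⁻¹ *ᵥ ψ) ∧
        inner ℝ (bl χ) (bl ψ) ≤ ε := by
  obtain ⟨s, hs, hs1, hs2, hs3⟩ : ∃ s : ℝ, 0 < s ∧ s ≤ 1 / 2 ∧ s ≤ ε / 8 ∧ M * s ≤ ε / 2 := by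
    refine ⟨min (1 / 2) (min (ε / 8) (ε / (2 * M))), ?_, min_le_left _ _, ?_, ?_⟩
    · refine lt_min (by norm_num) (lt_min (by positivity) (by positivity))
    · exact (min_le_right _ _).trans (min_le_left _ _)
    · have h1 : min (1 / 2) (min (ε / 8) (ε / (2 * M))) ≤ ε / (2 * M) :=
        (min_le_right _ _).trans (min_le_right _ _)
      have h2 := mul_le_mul_of_nonneg_left h1 hM.le
      refine h2.trans (le_of_eq ?_)
      field_simp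
  obtain ⟨δ, hδ, hδ1, hδ2⟩ : ∃ δ : ℝ, 0 < δ ∧ δ ≤ ε / 2 ∧ 2 * δ ≤ M * s ^ 2 := by
    refine ⟨min (ε / 2) (M * s ^ 2 / 2), lt_min (by positivity) (by positivity), min_le_left _ _, ?_⟩
    have := min_le_right (ε / 2) (M * s ^ 2 / 2)
    linarith
  refine ⟨s, hs, δ, hδ, fun e k he hk hm hmu χ hχ => ?_⟩
  have hU : IsU (Un χ) := Un_isU hχ
  have hUdet : (Un χ).det = 1 := hU.2
  have hKdet : (Dg s * Un χ * k).det = 1 := by
    rw [Matrix.det_mul, Matrix.det_mul, det_Dg, hUdet, hk]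
    norm_num
  obtain ⟨φ, hφ, hφm, -⟩ := he.exists_max hKdet
  have hUunit : IsUnit (Un χ).det := by rw [hUdet]; exact isUnit_one
  have hinv : (Dg s * Un χ * k)⁻¹ *ᵥ φ = k⁻¹ *ᵥ ((Un χ)⁻¹ *ᵥ (Dg (-s) *ᵥ φ)) := by
    rw [Matrix.mul_inv_rev, Matrix.mul_inv_rev, Dg_inv, Matrix.mulVec_mulVec, Matrix.mulVec_mulVec,
      Matrix.mul_assoc]
  set ψ0 : V := (Un χ)⁻¹ *ᵥ (Dg (-s) *ᵥ φ) with hψ0
  rw [hinv] at hφm
  set N : ℝ := vsq ψ0 with hNdef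
  have hN1 : N = Real.exp (-s) * Complex.normSq (φ 0) + Real.exp s * Complex.normSq (φ 1) := by
    rw [hNdef, hψ0, hU.inv.vsq_mulVec, vsq_Dg_mulVec, neg_neg]
  have hN0 : 0 ≤ N := by
    rw [hN1]
    have := Complex.normSq_nonneg (φ 0)
    have := Complex.normSq_nonneg (φ 1)
    positivity
  have h1 : M - δ ≤ e (k⁻¹ *ᵥ ψ0) := by
    rw [hφm]
    exact hmu _ hU
  have h2 : e (k⁻¹ *ᵥ ψ0) ≤ (M + δ) * N :=
    (he.le_mx hk ψ0).trans (mul_le_mul_of_nonneg_right hm hN0)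
  obtain ⟨hNpos, h3, h4⟩ := f1_num hM hε hs hs1 hs2 hs3 hδ hδ1 hδ2 (Complex.normSq_nonneg (φ 0))
    (Complex.normSq_nonneg (φ 1)) hφ rfl rfl hN1 h1 h2
  have hc : Complex.normSq (((Real.sqrt N)⁻¹ : ℝ) : ℂ) = N⁻¹ := by
    rw [Complex.normSq_ofReal, ← mul_inv, Real.mul_self_sqrt hN0]
  refine ⟨(((Real.sqrt N)⁻¹ : ℝ) : ℂ) • ψ0, ?_, ?_, ?_⟩
  · rw [vsq_smul, hc, ← hNdef, inv_mul_cancel₀ hNpos.ne']
  · rw [Matrix.mulVec_smul, he.hom, hc]
    exact h3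
  · rw [inner_bl hχ]
    have h5 : Un χ *ᵥ ((((Real.sqrt N)⁻¹ : ℝ) : ℂ) • ψ0) =
        (((Real.sqrt N)⁻¹ : ℝ) : ℂ) • (Dg (-s) *ᵥ φ) := by
      rw [Matrix.mulVec_smul, hψ0, Matrix.mulVec_mulVec, Matrix.mul_nonsing_inv _ hUunit,
        Matrix.one_mulVec]
    obtain ⟨h6, h7⟩ := f1_Dg_normSq (-s) φ
    rw [h5, Pi.smul_apply, Pi.smul_apply, smul_eq_mul, smul_eq_mul, map_mul, map_mul, hc, h6, h7,
      ← mul_sub, neg_neg]
    exact h4

end HRP
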