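import Pool.Agent.HRP.F1
import Pool.Agent.HRP.D1

/-!
# HRP-F2 : four almost contacts with almost balanced weights

Combine `almost_contact` (with `A = bl '' {ψ | vsq ψ = 1 ∧ M - ε ≤ e (k⁻¹ ψ)}`), `bl_surj` (every
unit vector of `ℝ³` is `bl χ`), `exists_small_convex` and `exists_four`.
-/

namespace HRP

open Matrix

theorem four_contacts {M ε : ℝ} (hM : 0 < M) (hε : 0 < ε) :
    ∃ s : ℝ, 0 < s ∧ ∃ δ : ℝ, 0 < δ ∧ ∀ (e : V → ℝ) (k : Mat), EFun e → k.det = 1 →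
      mx e k ≤ M + δ → (∀ u : Mat, IsU u → M - δ ≤ mx e (Dg s * u * k)) →
      ∃ (ψ : Fin 4 → V) (μ : Fin 4 → ℝ), (∀ i, vsq (ψ i) = 1) ∧ (∀ i, M - ε ≤ e (k⁻¹ *ᵥ ψ i)) ∧
        (∀ i, 0 ≤ μ i) ∧ ∑ i, μ i = 1 ∧ ‖∑ i, μ i • bl (ψ i)‖ ≤ 2 * ε := by
  obtain ⟨s, hs, δ, hδ, hc⟩ := almost_contact hM hε
  refine ⟨s, hs, δ, hδ, ?_⟩
  intro e k he hk h1 h2
  have h3 := hc e k he hk h1 h2
  obtain ⟨z, hz, hz2⟩ := exists_small_convex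
    (A := bl '' {ψ | vsq ψ = 1 ∧ M - ε ≤ e (k⁻¹ *ᵥ ψ)}) hε (by
      intro x hx
      obtain ⟨χ, hχ, rfl⟩ := bl_surj hx
      obtain ⟨ψ, a1, a2, a3⟩ := h3 χ hχ
      exact ⟨bl ψ, ⟨ψ, ⟨a1, a2⟩, rfl⟩, a3⟩)
  obtain ⟨b, μ, hb, h0, h1', h2'⟩ := exists_four hz
  choose ψ hψ1 hψ2 using hb
  refine ⟨ψ, μ, fun i => (hψ1 i).1, fun i => (hψ1 i).2, h0, h1', ?_⟩
  rw [← h2'] at hz2
  simp only [hψ2]
  exact hz2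

end HRP
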