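import Pool.Agent.HRP.E2
import Pool.Agent.HRP.B2

/-!
# HRP-F3 : choice of the sequences

`f y = inf {vv (S.e y) k | det k = 1} ≥ 0` (`FF_nonneg`), bounded above: by `S.bdd` there is a frame
with `mx ≤ C` (`mx_le`), so `f y ≤ FF (max C (1/2))` (`FF_mono`, `half_le_mx`). If `f y₀ > 0` for some
`y₀` let `c = sup f > 0`. For every `n` choose `y n` with `f (y n) > c - 1/(n+1)` and `k n` with
`vv (S.e (y n)) (k n) < f (y n) + 1/(n+1) ≤ c + 1/(n+1)`.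
-/

namespace HRP

open Matrix

variable {E : Type*}

theorem ESys.exists_seq (S : ESys E) (hne : ∀ y, ∃ ψ, S.e y ψ ≠ 0) {y₀ : E} {ε₀ : ℝ}
    (hε₀ : 0 < ε₀) (h : ∀ k : Mat, k.det = 1 → ε₀ ≤ vv (S.e y₀) k) :
    ∃ c : ℝ, 0 < c ∧ (∀ (y : E) (η : ℝ), 0 < η → ∃ k : Mat, k.det = 1 ∧ vv (S.e y) k < c + η) ∧
      ∃ (y : ℕ → E) (k : ℕ → Mat), (∀ n, (k n).det = 1) ∧
        (∀ n, ∀ k' : Mat, k'.det = 1 → c - 1 / (n + 1) ≤ vv (S.e (y n)) k') ∧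
        ∀ n, vv (S.e (y n)) (k n) ≤ c + 1 / (n + 1) := by
  obtain ⟨C, hC, hbdd⟩ := S.bdd
  set A : E → Set ℝ := fun y => (fun k : Mat => vv (S.e y) k) '' {k | k.det = 1} with hA
  have hne' : ∀ y, (A y).Nonempty := fun y => ⟨_, 1, by simp, rfl⟩
  have hbb : ∀ y, BddBelow (A y) := by
    intro y
    refine ⟨0, ?_⟩
    rintro _ ⟨k, -, rfl⟩
    exact FF_nonneg _
  have hle : ∀ y (k : Mat), k.det = 1 → sInf (A y) ≤ vv (S.e y) k := fun y k hk =>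
    csInf_le (hbb y) ⟨k, hk, rfl⟩
  have hub : ∀ y, sInf (A y) ≤ FF C := by
    intro y
    obtain ⟨k, hk, hk2⟩ := hbdd y
    refine (hle y k hk).trans ?_
    exact FF_mono (S.half_le_mx (hne y) hk) ((S.efun y).mx_le hk hk2)
  have hba : BddAbove (Set.range fun y => sInf (A y)) := by
    refine ⟨FF C, ?_⟩
    rintro _ ⟨y, rfl⟩
    exact hub y
  have hlec : ∀ y, sInf (A y) ≤ sSup (Set.range fun y => sInf (A y)) := fun y =>
    le_csSup hba ⟨y, rfl⟩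
  obtain ⟨c, hc⟩ : ∃ c, c = sSup (Set.range fun y => sInf (A y)) := ⟨_, rfl⟩
  have h0 : ε₀ ≤ sInf (A y₀) := by
    refine le_csInf (hne' y₀) ?_
    rintro _ ⟨k, hk, rfl⟩
    exact h k hk
  have hcpos : 0 < c := by
    have := hlec y₀
    rw [← hc] at this
    linarith
  have hfirst : ∀ (y : E) (η : ℝ), 0 < η → ∃ k : Mat, k.det = 1 ∧ vv (S.e y) k < c + η := by
    intro y η hη
    have h1 : sInf (A y) < c + η := by
      have := hlec y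
      rw [← hc] at this
      linarith
    obtain ⟨_, ⟨k, hk, rfl⟩, hk2⟩ := exists_lt_of_csInf_lt (hne' y) h1
    exact ⟨k, hk, hk2⟩
  refine ⟨c, hcpos, hfirst, ?_⟩
  have hsecond : ∀ n : ℕ, ∃ (y : E) (k : Mat), k.det = 1 ∧
      (∀ k' : Mat, k'.det = 1 → c - 1 / (n + 1) ≤ vv (S.e y) k') ∧
      vv (S.e y) k ≤ c + 1 / (n + 1) := by
    intro n
    have hn : (0:ℝ) < 1 / ((n:ℝ) + 1) := by positivity
    have h1 : c - 1 / ((n:ℝ) + 1) < sSup (Set.range fun y => sInf (A y)) := by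
      rw [← hc]
      linarith
    obtain ⟨_, ⟨y, rfl⟩, hy⟩ := exists_lt_of_lt_csSup (Set.range_nonempty_iff_nonempty.2 ⟨y₀⟩) h1
    obtain ⟨k, hk, hk2⟩ := hfirst y _ hn
    exact ⟨y, k, hk, fun k' hk' => (hy.le).trans (hle y k' hk'), hk2.le⟩
  choose y k h1 h2 h3 using hsecond
  exact ⟨y, k, h1, h2, h3⟩

end HRP
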