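import Pool.Agent.HRP.F2
import Pool.Agent.HRP.E2
import Pool.Agent.HRP.B2

/-!
# HRP-F4 : configurations of four contact planes along the sequence

Let `M = GG c > 1/2`. For every `m` (with `ε = 1/(m+1)`) take `s, δ` from `four_contacts M ε` and
`n ≥ m` so large that `GG (c - 1/(n+1)) ≥ M - δ` and `GG (c + 1/(n+1)) ≤ M + δ`
(`continuous_GG`). As `mx = GG (vv)` (`GG_FF`, `half_le_mx`), `GG_mono` gives the hypotheses of
`four_contacts` for `e = S.e (y n)`, `k = k n`. The bound `mx (S.e (y n)) (k n) ≤ GG (c + 1) =: C`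
is uniform; for `m` so large that `M - 1/(m+1) ≥ 1/4`, `S.us C (1/4)` gives the constants `c₃, C'`
and planes `P' m i`. (Start the numbering at such an `m₀`: use the index `m + m₀` and
`1/(m + m₀ + 1) ≤ 1/(m+1)`.) Put `Y m = y n`, `K m = k n`.
-/

namespace HRP

open Matrix

variable {E : Type*}

theorem f4_det_Dg (s : ℝ) : (Dg s).det = 1 := by
  rw [Matrix.det_fin_two]
  simp only [Dg, Matrix.of_apply, Matrix.cons_val', Matrix.cons_val_zero, Matrix.cons_val_one,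
    Matrix.cons_val_fin_one, mul_zero, sub_zero]
  rw [← Complex.ofReal_mul, ← Real.exp_add]
  simp

theorem f4_mx (S : ESys E) (hne : ∀ y, ∃ ψ, S.e y ψ ≠ 0) (y : E) {k : Mat} (hk : k.det = 1) :
    mx (S.e y) k = GG (vv (S.e y) k) := by
  unfold vv
  rw [GG_FF (S.half_le_mx (hne y) hk)]

theorem f4_step (S : ESys E) (hne : ∀ y, ∃ ψ, S.e y ψ ≠ 0) {c : ℝ} (hc : 0 < c)
    {y : ℕ → E} {k : ℕ → Mat} (hk : ∀ n, (k n).det = 1)
    (h1 : ∀ n, ∀ k' : Mat, k'.det = 1 → c - 1 / (n + 1) ≤ vv (S.e (y n)) k')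
    (h2 : ∀ n, vv (S.e (y n)) (k n) ≤ c + 1 / (n + 1)) (m : ℕ) {ε : ℝ} (hε : 0 < ε) :
    ∃ n, m ≤ n ∧ ∃ (ψ : Fin 4 → V) (μ : Fin 4 → ℝ), (∀ i, vsq (ψ i) = 1) ∧
      (∀ i, GG c - ε ≤ S.e (y n) ((k n)⁻¹ *ᵥ ψ i)) ∧
        (∀ i, 0 ≤ μ i) ∧ ∑ i, μ i = 1 ∧ ‖∑ i, μ i • bl (ψ i)‖ ≤ 2 * ε := by
  have hM : 0 < GG c := by linarith [half_lt_GG hc]
  obtain ⟨s, hs, δ, hδ, hf⟩ := four_contacts hM hε
  have t0 : Filter.Tendsto (fun n : ℕ => 1 / ((n:ℝ) + 1)) Filter.atTop (nhds 0) :=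
    tendsto_one_div_add_atTop_nhds_zero_nat
  have t1 : Filter.Tendsto (fun n : ℕ => GG (c - 1 / ((n:ℝ) + 1))) Filter.atTop (nhds (GG c)) := by
    have h3 : Filter.Tendsto (fun n : ℕ => c - 1 / ((n:ℝ) + 1)) Filter.atTop (nhds c) := by
      have := tendsto_const_nhds (x := c).sub t0
      simpa using this
    exact (continuous_GG.tendsto c).comp h3
  have t2 : Filter.Tendsto (fun n : ℕ => GG (c + 1 / ((n:ℝ) + 1))) Filter.atTop (nhds (GG c)) := by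
    have h3 : Filter.Tendsto (fun n : ℕ => c + 1 / ((n:ℝ) + 1)) Filter.atTop (nhds c) := by
      have := tendsto_const_nhds (x := c).add t0
      simpa using this
    exact (continuous_GG.tendsto c).comp h3
  have e1 := t1.eventually (eventually_gt_nhds (show GG c - δ < GG c by linarith))
  have e2 := t2.eventually (eventually_lt_nhds (show GG c < GG c + δ by linarith))
  obtain ⟨n, ⟨hn1, hn2⟩, hn3⟩ := ((e1.and e2).and (Filter.eventually_ge_atTop m)).exists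
  refine ⟨n, hn3, ?_⟩
  refine hf (S.e (y n)) (k n) (S.efun (y n)) (hk n) ?_ ?_
  · rw [f4_mx S hne (y n) (hk n)]
    exact (GG_mono (h2 n)).trans hn2.le
  · intro u hu
    have hdet : (Dg s * u * k n).det = 1 := by
      rw [Matrix.det_mul, Matrix.det_mul, f4_det_Dg, hu.2, hk n]
      simp
    rw [f4_mx S hne (y n) hdet]
    exact hn1.le.trans (GG_mono (h1 n _ hdet))

theorem ESys.exists_configs (S : ESys E) (hne : ∀ y, ∃ ψ, S.e y ψ ≠ 0) {c : ℝ} (hc : 0 < c)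
    {y : ℕ → E} {k : ℕ → Mat} (hk : ∀ n, (k n).det = 1)
    (h1 : ∀ n, ∀ k' : Mat, k'.det = 1 → c - 1 / (n + 1) ≤ vv (S.e (y n)) k')
    (h2 : ∀ n, vv (S.e (y n)) (k n) ≤ c + 1 / (n + 1)) :
    ∃ c₃ : ℝ, 0 < c₃ ∧ ∃ C' : ℝ, ∃ (Y : ℕ → E) (K : ℕ → Mat) (P : ℕ → Fin 4 → Mat)
      (ψ : ℕ → Fin 4 → V) (μ : ℕ → Fin 4 → ℝ),
      (∀ m, (K m).det = 1) ∧ (∀ m, mx (S.e (Y m)) (K m) ≤ GG (c + 1 / (m + 1))) ∧
      (∀ m i, IsPl (P m i)) ∧ (∀ m i, nsq (P m i) ≤ C') ∧ (∀ m i, vsq (ψ m i) = 1) ∧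
      (∀ m i, S.Vis (Y m) (K m) (P m i) (ψ m i) c₃) ∧
      (∀ m i, GG c - 1 / (m + 1) ≤ ‖qP (P m i) (ψ m i)‖) ∧
      (∀ m i, 0 ≤ μ m i) ∧ (∀ m, ∑ i, μ m i = 1) ∧
      (∀ m, ‖∑ i, μ m i • bl (ψ m i)‖ ≤ 2 / (m + 1)) := by
  have hM : 1 / 2 < GG c := half_lt_GG hc
  have hC : 0 < GG (c + 1) := by
    have := half_lt_GG (show 0 < c + 1 by linarith)
    linarith
  obtain ⟨c₃, hc₃, C', hC', hus⟩ := S.us (GG (c + 1)) hC (1 / 4) (by norm_num)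
  refine ⟨c₃, hc₃, C', ?_⟩
  have hmx : ∀ m n : ℕ, m ≤ n → mx (S.e (y n)) (k n) ≤ GG (c + 1 / ((m:ℝ) + 1)) := by
    intro m n hmn
    rw [f4_mx S hne (y n) (hk n)]
    refine (GG_mono (h2 n)).trans (GG_mono ?_)
    have h3 : (m:ℝ) ≤ n := by exact_mod_cast hmn
    have h4 : (0:ℝ) < (m:ℝ) + 1 := by positivity
    have := one_div_le_one_div_of_le h4 (show (m:ℝ) + 1 ≤ n + 1 by linarith)
    linarith
  have hstep : ∀ m : ℕ, ∃ (Y : E) (K : Mat) (P : Fin 4 → Mat) (ψ : Fin 4 → V) (μ : Fin 4 → ℝ),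
      K.det = 1 ∧ mx (S.e Y) K ≤ GG (c + 1 / ((m:ℝ) + 1)) ∧ (∀ i, IsPl (P i)) ∧
      (∀ i, nsq (P i) ≤ C') ∧ (∀ i, vsq (ψ i) = 1) ∧ (∀ i, S.Vis Y K (P i) (ψ i) c₃) ∧
      (∀ i, GG c - 1 / ((m:ℝ) + 1) ≤ ‖qP (P i) (ψ i)‖) ∧ (∀ i, 0 ≤ μ i) ∧ ∑ i, μ i = 1 ∧
      ‖∑ i, μ i • bl (ψ i)‖ ≤ 2 / ((m:ℝ) + 1) := by
    intro m
    have hm0 : (0:ℝ) ≤ (m:ℝ) := Nat.cast_nonneg m
    have hε : (0:ℝ) < 1 / ((m:ℝ) + 4) := by positivity
    have hε1 : 1 / ((m:ℝ) + 4) ≤ 1 / ((m:ℝ) + 1) :=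
      one_div_le_one_div_of_le (by linarith) (by linarith)
    have hε2 : 1 / ((m:ℝ) + 4) ≤ 1 / 4 := one_div_le_one_div_of_le (by norm_num) (by linarith)
    obtain ⟨n, hmn, ψ, μ, a1, a2, a3, a4, a5⟩ := f4_step S hne hc hk h1 h2 m hε
    have hle : ∀ φ, S.e (y n) ((k n)⁻¹ *ᵥ φ) ≤ GG (c + 1) * vsq φ := by
      intro φ
      refine ((S.efun (y n)).le_mx (hk n) φ).trans ?_
      have h5 : mx (S.e (y n)) (k n) ≤ GG (c + 1) := by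
        have := hmx 0 n (Nat.zero_le n)
        simpa using this
      have h6 : 0 ≤ vsq φ := add_nonneg (Complex.normSq_nonneg _) (Complex.normSq_nonneg _)
      exact mul_le_mul_of_nonneg_right h5 h6
    have hP : ∀ i, ∃ P : Mat, IsPl P ∧ nsq P ≤ C' ∧ ‖qP P (ψ i)‖ = S.e (y n) ((k n)⁻¹ *ᵥ ψ i) ∧
        ∀ (g : Mat) (φ : V), g.det = 1 → nsq (g - 1) < c₃ → vsq (φ - ψ i) < c₃ →
          ‖qP (mvP P g) φ‖ ≤ S.e (S.mv (y n) ((k n)⁻¹ * g * k n)) ((k n)⁻¹ *ᵥ φ) := by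
      intro i
      refine hus (y n) (k n) (ψ i) (hk n) hle (a1 i) ?_
      have := a2 i
      linarith
    choose P b1 b2 b3 b4 using hP
    refine ⟨y n, k n, P, ψ, μ, hk n, hmx m n hmn, b1, b2, a1, fun i => b4 i, ?_, a3, a4, ?_⟩
    · intro i
      rw [b3]
      have := a2 i
      linarith
    · refine a5.trans ?_
      have : 2 / ((m:ℝ) + 1) = 2 * (1 / ((m:ℝ) + 1)) := by ring
      rw [this]
      linarith
  choose Y K P ψ μ q1 q2 q3 q4 q5 q6 q7 q8 q9 q10 using hstep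
  exact ⟨Y, K, P, ψ, μ, q1, q2, q3, q4, q5, q6, q7, q8, q9, q10⟩

end HRP
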