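import Pool.Agent.HRP.F4
import Pool.Agent.HRP.A5
import Pool.Agent.HRP.A9
import Pool.Agent.HRP.A7

/-!
# HRP-F5 : limit configuration

Compactness: `(P m, ψ m, μ m)` stay in a compact set (`isCompact_nsq_le`, `isCompact_sphere`,
`[0,1]`), so there is a convergent subsequence. The limits: `IsPl (P i)` (closed condition),
`vsq (ψ i) = 1`, `|q_{P i}(ψ i)| = GG c` (between `GG c - 1/(m+1)` and
`e (K⁻¹ ψ) ≤ mx ≤ GG (c + 1/(m+1))`: `Vis` with `g = 1`, `φ = ψ`, `mv_one`), and for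
`vsq (φ - ψ i) < c₃/4` (so that `vsq (φ - ψ m i) < c₃` for large `m`)
`|q_{P m i}(φ)| ≤ e (K⁻¹ φ) ≤ mx |φ|² ≤ GG (c + 1/(m+1)) |φ|²`, in the limit
`|q_{P i}(φ)| ≤ GG c |φ|²`: `nrm_of_localMax` gives `Nrm (P i) (ψ i) (GG c)`. `∑ μ i bl (ψ i) = 0` by
continuity (`continuous_bl`).
-/

namespace HRP

open Matrix Filter Topology

variable {E : Type*}

theorem f5_cont : Continuous fun x : Mat × V => ‖qP x.1 x.2‖ := by
  have h : (fun x : Mat × V => ‖qP x.1 x.2‖) = fun x : Mat × V =>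
      ‖x.1 1 0 * x.2 0 ^ 2 + (x.1 1 1 - x.1 0 0) * (x.2 0 * x.2 1) - x.1 0 1 * x.2 1 ^ 2‖ := by
    funext x
    rw [qP_formula]
  rw [h]
  have e : ∀ i j : Fin 2, Continuous fun x : Mat × V => x.1 i j := fun i j =>
    Continuous.matrix_elem continuous_fst i j
  have v : ∀ i : Fin 2, Continuous fun x : Mat × V => x.2 i := fun i =>
    (continuous_apply i).comp continuous_snd
  exact ((((e 1 0).mul ((v 0).pow 2)).add (((e 1 1).sub (e 0 0)).mul ((v 0).mul (v 1)))).sub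
    ((e 0 1).mul ((v 1).pow 2))).norm

theorem f5_qlim {P : ℕ → Mat} {P0 : Mat} {ψ : ℕ → V} {ψ0 : V} (hP : Tendsto P atTop (𝓝 P0))
    (hψ : Tendsto ψ atTop (𝓝 ψ0)) :
    Tendsto (fun m => ‖qP (P m) (ψ m)‖) atTop (𝓝 ‖qP P0 ψ0‖) := by
  have h1 : Tendsto (fun m => (P m, ψ m)) atTop (𝓝 (P0, ψ0)) := hP.prodMk_nhds hψ
  have h2 := (f5_cont.tendsto (P0, ψ0)).comp h1
  simpa only [Function.comp_def] using h2

theorem f5_isClosed : IsClosed {P : Mat | IsPl P} := by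
  have h1 : IsClosed {P : Mat | P.trace = 1} :=
    isClosed_eq (Continuous.matrix_trace continuous_id) continuous_const
  have h2 : IsClosed {P : Mat | P.det = 0} :=
    isClosed_eq (Continuous.matrix_det continuous_id) continuous_const
  exact h1.inter h2

theorem f5_vis (S : ESys E) {y : E} {k P : Mat} {ψ φ : V} {c : ℝ} (hc : 0 < c) (hk : k.det = 1)
    (hP : IsPl P) (h : S.Vis y k P ψ c) (hφ : vsq (φ - ψ) < c) :
    ‖qP P φ‖ ≤ mx (S.e y) k * vsq φ := by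
  have hu : IsUnit k.det := by rw [hk]; exact isUnit_one
  have h1 := h 1 φ Matrix.det_one (by
    rw [sub_self]
    have : nsq (0 : Mat) = 0 := by simp [nsq]
    rw [this]
    exact hc) hφ
  rw [mvP_one hP, Matrix.mul_one, Matrix.nonsing_inv_mul _ hu, S.mv_one] at h1
  exact h1.trans ((S.efun y).le_mx hk φ)

theorem ESys.exists_limit (S : ESys E) {c : ℝ} (hc : 0 < c) {c₃ C' : ℝ} (hc₃ : 0 < c₃)
    {Y : ℕ → E} {K : ℕ → Mat} {P : ℕ → Fin 4 → Mat} {ψ : ℕ → Fin 4 → V} {μ : ℕ → Fin 4 → ℝ}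
    (hK : ∀ m, (K m).det = 1) (hmx : ∀ m, mx (S.e (Y m)) (K m) ≤ GG (c + 1 / (m + 1)))
    (hP : ∀ m i, IsPl (P m i)) (hPC : ∀ m i, nsq (P m i) ≤ C') (hψ : ∀ m i, vsq (ψ m i) = 1)
    (hvis : ∀ m i, S.Vis (Y m) (K m) (P m i) (ψ m i) c₃)
    (hq : ∀ m i, GG c - 1 / (m + 1) ≤ ‖qP (P m i) (ψ m i)‖)
    (hμ : ∀ m i, 0 ≤ μ m i) (hμ1 : ∀ m, ∑ i, μ m i = 1)
    (hbl : ∀ m, ‖∑ i, μ m i • bl (ψ m i)‖ ≤ 2 / (m + 1)) :
    ∃ (θ : ℕ → ℕ) (P0 : Fin 4 → Mat) (ψ0 : Fin 4 → V) (μ0 : Fin 4 → ℝ), StrictMono θ ∧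
      (∀ i, Tendsto (fun m => P (θ m) i) atTop (𝓝 (P0 i))) ∧
      (∀ i, Tendsto (fun m => ψ (θ m) i) atTop (𝓝 (ψ0 i))) ∧
      (∀ i, Tendsto (fun m => μ (θ m) i) atTop (𝓝 (μ0 i))) ∧
      (∀ i, Nrm (P0 i) (ψ0 i) (GG c)) ∧ (∀ i, 0 ≤ μ0 i) ∧ ∑ i, μ0 i = 1 ∧
      ∑ i, μ0 i • bl (ψ0 i) = 0 := by
  haveI : FirstCountableTopology Mat := inferInstanceAs (FirstCountableTopology (Fin 2 → Fin 2 → ℂ))
  have hμle : ∀ m i, μ m i ≤ 1 := fun m i => by
    rw [← hμ1 m]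
    exact Finset.single_le_sum (fun j _ => hμ m j) (Finset.mem_univ i)
  have hcomp : IsCompact ((Set.pi Set.univ fun _ : Fin 4 => {X : Mat | nsq X ≤ C'}) ×ˢ
      ((Set.pi Set.univ fun _ : Fin 4 => {v : V | vsq v = 1}) ×ˢ
        (Set.pi Set.univ fun _ : Fin 4 => Set.Icc (0 : ℝ) 1))) :=
    (isCompact_univ_pi fun _ => isCompact_nsq_le C').prod
      ((isCompact_univ_pi fun _ => isCompact_sphere).prod (isCompact_univ_pi fun _ => isCompact_Icc))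
  obtain ⟨⟨P0, ψ0, μ0⟩, hmem, θ, hθ, hlim⟩ := hcomp.tendsto_subseq
    (x := fun m => (P m, ψ m, μ m))
    (fun m => ⟨fun i _ => hPC m i, fun i _ => hψ m i, fun i _ => ⟨hμ m i, hμle m i⟩⟩)
  have hP0 : ∀ i, Tendsto (fun m => P (θ m) i) atTop (𝓝 (P0 i)) := by
    intro i
    exact (((continuous_apply i).comp continuous_fst).tendsto (P0, ψ0, μ0)).comp hlim
  have hψ0 : ∀ i, Tendsto (fun m => ψ (θ m) i) atTop (𝓝 (ψ0 i)) := by
    intro i
    exact (((continuous_apply i).comp (continuous_fst.comp continuous_snd)).tendsto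
      (P0, ψ0, μ0)).comp hlim
  have hμ0 : ∀ i, Tendsto (fun m => μ (θ m) i) atTop (𝓝 (μ0 i)) := by
    intro i
    exact (((continuous_apply i).comp (continuous_snd.comp continuous_snd)).tendsto
      (P0, ψ0, μ0)).comp hlim
  have hψ1 : ∀ i, vsq (ψ0 i) = 1 := fun i => hmem.2.1 i (Set.mem_univ i)
  have hPl : ∀ i, IsPl (P0 i) := fun i =>
    f5_isClosed.mem_of_tendsto (hP0 i) (Filter.Eventually.of_forall fun m => hP (θ m) i)
  have hinv : Tendsto (fun m => 1 / (((θ m : ℕ) : ℝ) + 1)) atTop (𝓝 0) :=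
    tendsto_one_div_add_atTop_nhds_zero_nat.comp hθ.tendsto_atTop
  have hGG : Tendsto (fun m => GG (c + 1 / (((θ m : ℕ) : ℝ) + 1))) atTop (𝓝 (GG c)) := by
    have h1 : Tendsto (fun m => c + 1 / (((θ m : ℕ) : ℝ) + 1)) atTop (𝓝 (c + 0)) :=
      tendsto_const_nhds.add hinv
    rw [add_zero] at h1
    exact (continuous_GG.tendsto c).comp h1
  have hqlim : ∀ i φ, Tendsto (fun m => ‖qP (P (θ m) i) φ‖) atTop (𝓝 ‖qP (P0 i) φ‖) := by
    intro i φ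
    exact f5_qlim (hP0 i) tendsto_const_nhds
  have hqlim2 : ∀ i, Tendsto (fun m => ‖qP (P (θ m) i) (ψ (θ m) i)‖) atTop
      (𝓝 ‖qP (P0 i) (ψ0 i)‖) := by
    intro i
    exact f5_qlim (hP0 i) (hψ0 i)
  have hup : ∀ i φ, vsq (φ - ψ0 i) < c₃ → ‖qP (P0 i) φ‖ ≤ GG c * vsq φ := by
    intro i φ hφ
    have h1 : Tendsto (fun m => vsq (φ - ψ (θ m) i)) atTop (𝓝 (vsq (φ - ψ0 i))) :=
      (continuous_vsq.tendsto _).comp (tendsto_const_nhds.sub (hψ0 i))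
    have h2 : ∀ᶠ m in atTop, vsq (φ - ψ (θ m) i) < c₃ := h1.eventually_lt_const hφ
    refine le_of_tendsto_of_tendsto (hqlim i φ) (hGG.mul_const (vsq φ)) ?_
    filter_upwards [h2] with m hm
    exact (f5_vis S hc₃ (hK (θ m)) (hP (θ m) i) (hvis (θ m) i) hm).trans
      (mul_le_mul_of_nonneg_right (hmx (θ m)) (vsq_nonneg φ))
  have heq : ∀ i, ‖qP (P0 i) (ψ0 i)‖ = GG c := by
    intro i
    apply le_antisymm
    · have h1 := hup i (ψ0 i) (by
        rw [sub_self]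
        have : vsq (0 : V) = 0 := by simp [vsq]
        rw [this]
        exact hc₃)
      rw [hψ1, mul_one] at h1
      exact h1
    · have h1 : Tendsto (fun m => GG c - 1 / (((θ m : ℕ) : ℝ) + 1)) atTop (𝓝 (GG c - 0)) :=
        tendsto_const_nhds.sub hinv
      rw [sub_zero] at h1
      exact le_of_tendsto_of_tendsto' h1 (hqlim2 i) fun m => hq (θ m) i
  refine ⟨θ, P0, ψ0, μ0, hθ, hP0, hψ0, hμ0, fun i => ?_, fun i => (hmem.2.2 i (Set.mem_univ i)).1,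
    ?_, ?_⟩
  · have h0 : qP (P0 i) (ψ0 i) ≠ 0 := by
      intro h
      have h1 := heq i
      rw [h, norm_zero] at h1
      have := half_lt_GG hc
      linarith
    have h1 := nrm_of_localMax (hPl i) (hψ1 i) h0 hc₃ (fun φ hφ => by
      rw [heq i]
      exact hup i φ hφ)
    rw [heq i] at h1
    exact h1
  · have h1 : Tendsto (fun m => ∑ i, μ (θ m) i) atTop (𝓝 (∑ i, μ0 i)) :=
      tendsto_finset_sum _ fun i _ => hμ0 i
    have h2 : (fun m => ∑ i, μ (θ m) i) = fun _ => (1 : ℝ) := funext fun m => hμ1 (θ m)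
    rw [h2] at h1
    exact (tendsto_nhds_unique h1 tendsto_const_nhds)
  · have h1 : Tendsto (fun m => ∑ i, μ (θ m) i • bl (ψ (θ m) i)) atTop
        (𝓝 (∑ i, μ0 i • bl (ψ0 i))) :=
      tendsto_finset_sum _ fun i _ => (hμ0 i).smul ((continuous_bl.tendsto _).comp (hψ0 i))
    have h2 : Tendsto (fun m => 2 / (((θ m : ℕ) : ℝ) + 1)) atTop (𝓝 0) := by
      have h3 := hinv.const_mul (2 : ℝ)
      rw [mul_zero] at h3
      refine h3.congr fun m => ?_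
      ring
    have h3 : Tendsto (fun m => ∑ i, μ (θ m) i • bl (ψ (θ m) i)) atTop (𝓝 0) :=
      squeeze_zero_norm (fun m => hbl (θ m)) h2
    exact tendsto_nhds_unique h1 h3

end HRP
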