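import Pool.Agent.HRP.A6

/-!
# HRP-F5b : balanced contacts form a minimal configuration

`Nrm.comm` for all `i` with the same `M`:
`∑ μ i (P i P iᴴ - P iᴴ P i) = const • [matrix built from ∑ μ i bl (ψ i)] = 0`, since the matrix
`[[x₂, x₀ - i x₁], [x₀ + i x₁, -x₂]]` is (real) linear in `x`.
-/

namespace HRP

open Matrix

/-- the matrix of a vector of `ℝ³` -/
noncomputable def f5b_B (x : Fin 3 → ℝ) : Mat :=
  !![((x 2 : ℝ) : ℂ), (x 0 : ℂ) - Complex.I * (x 1 : ℂ);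
        (x 0 : ℂ) + Complex.I * (x 1 : ℂ), -((x 2 : ℝ) : ℂ)]

theorem f5b_sum {n : ℕ} (μ : Fin n → ℝ) (x : Fin n → Fin 3 → ℝ)
    (h : ∀ k, ∑ i, μ i * x i k = 0) : ∑ i, (μ i : ℂ) • f5b_B (x i) = 0 := by
  have hk : ∀ k, ∑ i, (μ i : ℂ) * (x i k : ℂ) = 0 := by
    intro k
    have := congrArg (fun r : ℝ => (r : ℂ)) (h k)
    simpa using this
  ext a b
  rw [Matrix.sum_apply]
  simp only [Matrix.smul_apply, smul_eq_mul, Matrix.zero_apply]
  fin_cases a <;> fin_cases b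
  · simp only [f5b_B, Fin.zero_eta, Matrix.of_apply, Matrix.cons_val', Matrix.cons_val_zero]
    exact hk 2
  · have : ∀ i, (μ i : ℂ) * f5b_B (x i) ⟨0, by omega⟩ ⟨1, by omega⟩ =
        (μ i : ℂ) * (x i 0 : ℂ) - Complex.I * ((μ i : ℂ) * (x i 1 : ℂ)) := by
      intro i
      simp [f5b_B]
      ring
    rw [Finset.sum_congr rfl fun i _ => this i, Finset.sum_sub_distrib, ← Finset.mul_sum, hk, hk]
    simp
  · have : ∀ i, (μ i : ℂ) * f5b_B (x i) ⟨1, by omega⟩ ⟨0, by omega⟩ =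
        (μ i : ℂ) * (x i 0 : ℂ) + Complex.I * ((μ i : ℂ) * (x i 1 : ℂ)) := by
      intro i
      simp [f5b_B]
      ring
    rw [Finset.sum_congr rfl fun i _ => this i, Finset.sum_add_distrib, ← Finset.mul_sum, hk, hk]
    simp
  · have : ∀ i, (μ i : ℂ) * f5b_B (x i) ⟨1, by omega⟩ ⟨1, by omega⟩ =
        - ((μ i : ℂ) * (x i 2 : ℂ)) := by
      intro i
      simp [f5b_B]
    rw [Finset.sum_congr rfl fun i _ => this i, Finset.sum_neg_distrib, hk]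
    simp

theorem min_of_balanced {n : ℕ} {P : Fin n → Mat} {ψ : Fin n → V} {μ : Fin n → ℝ} {M : ℝ}
    (h : ∀ i, Nrm (P i) (ψ i) M) (h0 : ∑ i, μ i • bl (ψ i) = 0) :
    ∑ i, (μ i : ℂ) • (P i * (P i)ᴴ - (P i)ᴴ * P i) = 0 := by
  have hk : ∀ k, ∑ i, μ i * bl (ψ i) k = 0 := by
    intro k
    have := congrArg (fun x : EuclideanSpace ℝ (Fin 3) => x k) h0
    simpa using this
  have h1 := f5b_sum μ (fun i k => bl (ψ i) k) hk
  have h2 : ∀ i, (μ i : ℂ) • (P i * (P i)ᴴ - (P i)ᴴ * P i) =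
      (((1 / (4 * M)) ^ 2 - M ^ 2 : ℝ) : ℂ) • ((μ i : ℂ) • f5b_B (fun k => bl (ψ i) k)) := by
    intro i
    rw [(h i).comm, smul_comm]
    rfl
  rw [Finset.sum_congr rfl fun i _ => h2 i, ← Finset.smul_sum, h1, smul_zero]

end HRP
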