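import Pool.Agent.HRP.F5
import Pool.Agent.HRP.F5b
import Pool.Agent.HRP.F3
import Pool.Agent.HRP.E4
import Pool.Agent.HRP.E5
import Pool.Agent.HRP.A4
import Pool.Agent.HRP.C6
import Pool.Agent.HRP.C7

/-!
# HRP-F6 : the contradiction

Data as in the conclusion of `exists_configs`/`exists_limit` (already passed to the subsequence).
`nsq (P0 i) = 1 + c` (`Nrm.nsq_eq`, `FF_GG`), `min_of_balanced`.
(a) `ESys.lower` for the four `(P0 i, ψ0 i)` and `c₃`: `δ` (minimum of four).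
(b) `r > 0` with `nsq (u⁻¹ Dg s u - 1) < δ` for `|s| ≤ r` (`nsq_UDU_sub_one_le`).
(c) `growth_robust` with `r`: `η₁, δ₁`.
(d) `ε' > 0` with `FF (GG c + 2 ε') < c + η₁` (`continuousOn_FF`, `FF_GG`); `mx (S.e (Y m)) (K m)
≤ GG (c + 1/(m+1)) ≤ GG c + ε'` for large `m` (`continuous_GG`); `mx_near` with `C = GG (c+1)` (`> 0`),
`ε'`: `δ₂`; so for large `m` and `nsq (g - 1) < δ₂`: `vv (S.e (y.g)) (K m) ≤ FF (GG c + 2ε') ≤ c + η₁`.
(e) `lemmaE_robust` with `ρ = min δ (min δ₁ δ₂)`: `g`, `η₂`.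
(f) Fix a large `m`, `e' = S.e (S.mv (Y m) ((K m)⁻¹ g (K m)))`. For every `k` with `det k = 1`:
`k (K m)⁻¹ = u₁ Dg s u₂` (`cartan`), `w t = vv e' (Dg t * (u₂ * K m))` is convex (`convexOn_vv`),
`vv e' k = w s` (`mx_unitary`). `w 0 ≤ c + η₁` by (d) (`Dg_zero`, `mx_unitary`). For `|t| ≤ r` with
`k₁ = u₂⁻¹ Dg t u₂`: `vv e' (k₁ * K m) = w t` (`mx_unitary` with `u₂⁻¹`), and `ESys.lower` for each `i`
gives `nsq (k₁ (P i)^g k₁⁻¹) - 1 ≤ w t`; summing with the weights `μ m i` (sum `1`):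
`w t ≥ ∑ μ nsq (…) - 1`, which is `≥ c + η₂` by (e), and `≥ c + η₁` if `|t| = r` by (c).
`convex_outside`: `w t ≥ c + η₁` for `|t| ≥ r`. So `vv e' k ≥ c + min η₁ η₂` for all `k`: contradiction
with `hsup`.
-/

namespace HRP

open Matrix Filter Topology

variable {E : Type*}

theorem f6_small {δ : ℝ} (hδ : 0 < δ) :
    ∃ r : ℝ, 0 < r ∧ ∀ s : ℝ, |s| ≤ r →
      (Real.exp (s / 2) - 1) ^ 2 + (Real.exp (-(s / 2)) - 1) ^ 2 < δ := by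
  have hcont : Continuous fun s : ℝ =>
      (Real.exp (s / 2) - 1) ^ 2 + (Real.exp (-(s / 2)) - 1) ^ 2 := by fun_prop
  have h0 : (fun s : ℝ => (Real.exp (s / 2) - 1) ^ 2 + (Real.exp (-(s / 2)) - 1) ^ 2) 0 = 0 := by
    simp
  have hev : ∀ᶠ s in 𝓝 (0 : ℝ),
      (fun s : ℝ => (Real.exp (s / 2) - 1) ^ 2 + (Real.exp (-(s / 2)) - 1) ^ 2) s < δ := by
    refine hcont.continuousAt.eventually (gt_mem_nhds ?_)
    rw [h0]
    exact hδ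
  obtain ⟨ε, hε, hball⟩ := Metric.eventually_nhds_iff.mp hev
  refine ⟨ε / 2, by linarith, fun s hs => hball ?_⟩
  rw [Real.dist_eq, sub_zero]
  linarith

theorem f6_eps {c η : ℝ} (hc : 0 < c) (hη : 0 < η) :
    ∃ ε : ℝ, 0 < ε ∧ FF (GG c + 2 * ε) < c + η := by
  have hMc : 1 / 2 < GG c := half_lt_GG hc
  have hcont : ContinuousAt FF (GG c) := continuousOn_FF.continuousAt (Ici_mem_nhds hMc)
  have hev : ∀ᶠ x in 𝓝 (GG c), FF x < c + η := by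
    refine hcont.eventually (gt_mem_nhds ?_)
    rw [FF_GG hc.le]
    linarith
  obtain ⟨ε, hε, hball⟩ := Metric.eventually_nhds_iff.mp hev
  refine ⟨ε / 4, by linarith, hball ?_⟩
  rw [Real.dist_eq]
  have h1 : GG c + 2 * (ε / 4) - GG c = ε / 2 := by ring
  rw [h1, abs_of_pos (by linarith)]
  linarith

theorem f6_GG (c : ℝ) {ε : ℝ} (hε : 0 < ε) :
    ∀ᶠ m : ℕ in atTop, GG (c + 1 / ((m : ℝ) + 1)) < GG c + ε := by
  have h1 : Tendsto (fun m : ℕ => c + 1 / ((m : ℝ) + 1)) atTop (𝓝 (c + 0)) :=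
    tendsto_const_nhds.add tendsto_one_div_add_atTop_nhds_zero_nat
  rw [add_zero] at h1
  have h2 := (continuous_GG.tendsto c).comp h1
  exact h2.eventually (gt_mem_nhds (by linarith))

theorem ESys.contradiction (S : ESys E) (hne : ∀ y, ∃ ψ, S.e y ψ ≠ 0) {c : ℝ} (hc : 0 < c)
    (hsup : ∀ (y : E) (η : ℝ), 0 < η → ∃ k : Mat, k.det = 1 ∧ vv (S.e y) k < c + η)
    {c₃ : ℝ} (hc₃ : 0 < c₃)
    {Y : ℕ → E} {K : ℕ → Mat} {P : ℕ → Fin 4 → Mat} {ψ : ℕ → Fin 4 → V} {μ : ℕ → Fin 4 → ℝ}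
    (hK : ∀ m, (K m).det = 1) (hmx : ∀ m, mx (S.e (Y m)) (K m) ≤ GG (c + 1 / (m + 1)))
    (hP : ∀ m i, IsPl (P m i))
    (hvis : ∀ m i, S.Vis (Y m) (K m) (P m i) (ψ m i) c₃)
    (hμ : ∀ m i, 0 ≤ μ m i) (hμ1 : ∀ m, ∑ i, μ m i = 1)
    {P0 : Fin 4 → Mat} {ψ0 : Fin 4 → V} {μ0 : Fin 4 → ℝ}
    (hP0 : ∀ i, Tendsto (fun m => P m i) atTop (𝓝 (P0 i)))
    (hψ0 : ∀ i, Tendsto (fun m => ψ m i) atTop (𝓝 (ψ0 i)))
    (hμ0 : ∀ i, Tendsto (fun m => μ m i) atTop (𝓝 (μ0 i)))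
    (hN : ∀ i, Nrm (P0 i) (ψ0 i) (GG c)) (hμ0n : ∀ i, 0 ≤ μ0 i) (hμ01 : ∑ i, μ0 i = 1)
    (hbl : ∑ i, μ0 i • bl (ψ0 i) = 0) : False := by
  have hMc : 1 / 2 < GG c := half_lt_GG hc
  have hmin := min_of_balanced hN hbl
  have hPl : ∀ i, IsPl (P0 i) := fun i => (hN i).pl
  have hS : ∑ i, μ0 i * nsq (P0 i) = 1 + c := by
    have h1 : ∀ i, μ0 i * nsq (P0 i) = μ0 i * (1 + c) := fun i => by
      rw [(hN i).nsq_eq, FF_GG hc.le]
    rw [Finset.sum_congr rfl (fun i _ => h1 i), ← Finset.sum_mul, hμ01, one_mul]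
  -- (a)
  choose δ hδ hlow using fun i => S.lower (hN i) hMc hc₃
  obtain ⟨δ0, hδ0, hδle⟩ : ∃ δ0 : ℝ, 0 < δ0 ∧ ∀ i, δ0 ≤ δ i := by
    obtain ⟨i0, -, hi0⟩ := Finset.exists_min_image (Finset.univ : Finset (Fin 4)) δ
      ⟨0, Finset.mem_univ _⟩
    exact ⟨δ i0, hδ i0, fun i => hi0 i (Finset.mem_univ _)⟩
  -- (b)
  obtain ⟨r, hr, hrs⟩ := f6_small hδ0
  -- (c)
  obtain ⟨η₁, hη₁, δ₁, hδ₁, hgrow⟩ :=
    growth_robust hμ0n hμ01 hPl hmin hc hS hμ hμ1 hP hμ0 hP0 hr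
  -- (d)
  obtain ⟨ε', hε', hFF⟩ := f6_eps hc hη₁
  obtain ⟨δ₂, hδ₂, hnear⟩ := S.mx_near (C := GG (c + 1)) (ε := ε')
    (by have := half_le_GG (c := c + 1) (by linarith); linarith) hε'
  -- (e)
  obtain ⟨g, hg, hgρ, η₂, hη₂, hE⟩ := lemmaE_robust hμ0n hμ01 hPl hmin hc hS hμ hμ1 hP hμ0 hP0
    (ρ := min δ0 (min δ₁ δ₂)) (lt_min hδ0 (lt_min hδ₁ hδ₂))
  have hg0 : nsq (g - 1) < δ0 := lt_of_lt_of_le hgρ (min_le_left _ _)
  have hg1 : nsq (g - 1) < δ₁ :=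
    lt_of_lt_of_le hgρ (le_trans (min_le_right _ _) (min_le_left _ _))
  have hg2 : nsq (g - 1) < δ₂ :=
    lt_of_lt_of_le hgρ (le_trans (min_le_right _ _) (min_le_right _ _))
  -- (f)
  have hev1 : ∀ᶠ m in atTop, ∀ i, nsq (P m i - P0 i) < δ0 :=
    eventually_all.mpr fun i => (tendsto_nsq_sub.mp (hP0 i)).eventually (gt_mem_nhds hδ0)
  have hev2 : ∀ᶠ m in atTop, ∀ i, vsq (ψ m i - ψ0 i) < δ0 :=
    eventually_all.mpr fun i => (tendsto_vsq_sub.mp (hψ0 i)).eventually (gt_mem_nhds hδ0)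
  have hev3 := f6_GG c hε'
  obtain ⟨m, hm1, hm2, hm3, hmg, hmE⟩ :=
    (hev1.and (hev2.and (hev3.and (hgrow.and hE)))).exists
  have hmC : ∀ φ, S.e (Y m) ((K m)⁻¹ *ᵥ φ) ≤ GG (c + 1) * vsq φ := by
    intro φ
    refine ((S.efun (Y m)).le_mx (hK m) φ).trans (mul_le_mul_of_nonneg_right ?_ (vsq_nonneg φ))
    refine (hmx m).trans (GG_mono ?_)
    have h5 : (0 : ℝ) < (m : ℝ) + 1 := by positivity
    have h6 : 1 / ((m : ℝ) + 1) ≤ 1 := by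
      rw [div_le_one h5]
      have : (0 : ℝ) ≤ (m : ℝ) := Nat.cast_nonneg m
      linarith
    linarith
  have hmxK : mx (S.e (S.mv (Y m) ((K m)⁻¹ * g * K m))) (K m) ≤ GG c + 2 * ε' := by
    have h1 := hnear (Y m) (K m) g (hK m) hg hmC hg2
    have h2 := hmx m
    linarith
  have hvvK : vv (S.e (S.mv (Y m) ((K m)⁻¹ * g * K m))) (K m) ≤ c + η₁ :=
    (FF_mono (S.half_le_mx (hne _) (hK m)) hmxK).trans hFF.le
  obtain ⟨k, hk, hkv⟩ := hsup (S.mv (Y m) ((K m)⁻¹ * g * K m)) (min η₁ η₂) (lt_min hη₁ hη₂)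
  refine absurd hkv (not_lt.mpr ?_)
  have hKi : ((K m)⁻¹).det = 1 := by
    rw [Matrix.det_nonsing_inv, hK m]
    simp
  have hkK : (k * (K m)⁻¹).det = 1 := by rw [Matrix.det_mul, hk, hKi, one_mul]
  obtain ⟨u₁, u₂, s, hu₁, hu₂, hcart⟩ := cartan hkK
  have hKunit : IsUnit (K m).det := by rw [hK m]; exact isUnit_one
  have hkeq : k = u₁ * (Dg s * (u₂ * K m)) := by
    have h1 : k = k * (K m)⁻¹ * K m := by
      rw [Matrix.mul_assoc, Matrix.nonsing_inv_mul _ hKunit, Matrix.mul_one]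
    rw [h1, hcart]
    simp only [Matrix.mul_assoc]
  have hu₂K : (u₂ * K m).det = 1 := by rw [Matrix.det_mul, hu₂.2, hK m, one_mul]
  have hu₂unit : IsUnit u₂.det := by rw [hu₂.2]; exact isUnit_one
  generalize hy' : S.mv (Y m) ((K m)⁻¹ * g * K m) = y' at *
  have hw := S.convexOn_vv (hne y') hu₂K
  have hvk : vv (S.e y') k = vv (S.e y') (Dg s * (u₂ * K m)) := by
    unfold vv
    rw [hkeq, (S.efun y').mx_unitary hu₁]
  have hw0 : vv (S.e y') (Dg 0 * (u₂ * K m)) ≤ c + η₁ := by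
    have h1 : vv (S.e y') (Dg 0 * (u₂ * K m)) = vv (S.e y') (K m) := by
      unfold vv
      rw [Dg_zero, Matrix.one_mul, (S.efun y').mx_unitary hu₂]
    rw [h1]
    exact hvvK
  have hlower : ∀ t : ℝ, |t| ≤ r →
      ∑ i, μ m i * nsq ((u₂⁻¹ * Dg t * u₂) * mvP (P m i) g * (u₂⁻¹ * Dg t * u₂)⁻¹) - 1 ≤
        vv (S.e y') (Dg t * (u₂ * K m)) := by
    intro t ht
    have hdet : (u₂⁻¹ * Dg t * u₂).det = 1 := by
      rw [Matrix.det_mul, Matrix.det_mul, det_Dg, hu₂.inv.2, hu₂.2]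
      simp
    have hsm : nsq (u₂⁻¹ * Dg t * u₂ - 1) < δ0 := by
      rw [nsq_UDU_sub_one_le hu₂ t]
      exact hrs t ht
    have heq : vv (S.e y') (u₂⁻¹ * Dg t * u₂ * K m) = vv (S.e y') (Dg t * (u₂ * K m)) := by
      have h1 : u₂⁻¹ * Dg t * u₂ * K m = u₂⁻¹ * (Dg t * (u₂ * K m)) := by
        simp only [Matrix.mul_assoc]
      unfold vv
      rw [h1, (S.efun y').mx_unitary hu₂.inv]
    have hi : ∀ i, nsq ((u₂⁻¹ * Dg t * u₂) * mvP (P m i) g * (u₂⁻¹ * Dg t * u₂)⁻¹) ≤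
        vv (S.e y') (Dg t * (u₂ * K m)) + 1 := by
      intro i
      have h1 := hlow i (Y m) (K m) (P m i) (ψ m i) (hK m) (hP m i)
        (lt_of_lt_of_le (hm1 i) (hδle i)) (lt_of_lt_of_le (hm2 i) (hδle i)) (hvis m i)
        g (u₂⁻¹ * Dg t * u₂) hg hdet (lt_of_lt_of_le hg0 (hδle i))
        (lt_of_lt_of_le hsm (hδle i))
      rw [hy', heq] at h1
      linarith
    have hsum : ∑ i, μ m i * nsq ((u₂⁻¹ * Dg t * u₂) * mvP (P m i) g *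
        (u₂⁻¹ * Dg t * u₂)⁻¹) ≤ ∑ i, μ m i * (vv (S.e y') (Dg t * (u₂ * K m)) + 1) :=
      Finset.sum_le_sum fun i _ => mul_le_mul_of_nonneg_left (hi i) (hμ m i)
    rw [← Finset.sum_mul, hμ1 m, one_mul] at hsum
    linarith
  have hdet' : ∀ t : ℝ, (u₂⁻¹ * Dg t * u₂).det = 1 := by
    intro t
    rw [Matrix.det_mul, Matrix.det_mul, det_Dg, hu₂.inv.2, hu₂.2]
    simp
  rw [hvk]
  rcases le_or_gt |s| r with hs | hs
  · have h1 := hlower s hs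
    have h2 := hmE (u₂⁻¹ * Dg s * u₂) (hdet' s)
    have h3 := min_le_right η₁ η₂
    linarith
  · have h1 : c + η₁ ≤ vv (S.e y') (Dg r * (u₂ * K m)) :=
      (hmg g u₂ hg1 hu₂ r (abs_of_pos hr)).trans (hlower r (abs_of_pos hr).le)
    have habs : |(-r)| = r := by rw [abs_neg, abs_of_pos hr]
    have h2 : c + η₁ ≤ vv (S.e y') (Dg (-r) * (u₂ * K m)) :=
      (hmg g u₂ hg1 hu₂ (-r) habs).trans (hlower (-r) habs.le)
    have h3 := convex_outside hw hr hw0 h1 h2 hs.le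
    have h4 := min_le_left η₁ η₂
    have h5 : c + min η₁ η₂ ≤ c + η₁ := by linarith
    exact h5.trans h3

/-- THEOREM B: `inf_k v(y,k) = 0`. -/
theorem ESys.theoremB (S : ESys E) (hne : ∀ y, ∃ ψ, S.e y ψ ≠ 0) (y : E) {ε : ℝ} (hε : 0 < ε) :
    ∃ k : Mat, k.det = 1 ∧ vv (S.e y) k < ε := by
  by_contra hcon
  push Not at hcon
  obtain ⟨c, hc, hsup, y', k', hk', h1, h2⟩ := S.exists_seq hne hε hcon
  obtain ⟨c₃, hc₃, C', Y, K, P, ψ, μ, hK, hmx, hP, hPC, hψ, hvis, hq, hμ, hμ1, hbl⟩ :=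
    S.exists_configs hne hc hk' h1 h2
  obtain ⟨θ, P0, ψ0, μ0, hθ, hP0, hψ0, hμ0, hN, hμ0n, hμ01, hbl0⟩ :=
    S.exists_limit hc hc₃ hK hmx hP hPC hψ hvis hq hμ hμ1 hbl
  have hmx' : ∀ m, mx (S.e (Y (θ m))) (K (θ m)) ≤ GG (c + 1 / (m + 1)) := by
    intro m
    refine (hmx (θ m)).trans (GG_mono ?_)
    have h3 : m ≤ θ m := hθ.id_le m
    have h4 : ((m : ℝ)) ≤ (θ m : ℝ) := by exact_mod_cast h3
    have h5 : (0 : ℝ) < (m : ℝ) + 1 := by positivity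
    have h6 : 1 / ((θ m : ℝ) + 1) ≤ 1 / ((m : ℝ) + 1) :=
      one_div_le_one_div_of_le h5 (by linarith)
    linarith
  exact S.contradiction hne hc hsup hc₃ (fun m => hK (θ m)) hmx' (fun m i => hP (θ m) i)
    (fun m i => hvis (θ m) i) (fun m i => hμ (θ m) i) (fun m => hμ1 (θ m)) hP0 hψ0 hμ0 hN hμ0n
    hμ01 hbl0

end HRP
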